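import Pool.Agent.Helper462.Zg.Defs

/-!
# The Ziegler spectrum: definitions

Modules are left modules over a ring `R`; right modules over `S` are left modules over `Sᵐᵒᵖ`.
Everything lives in one universe `u`.
-/

namespace Zg

universe u



/-- pp formulas with arbitrary finite index types -/
theorem exists_formula {R : Type u} [Ring R] {I J : Type} [Fintype I] [Fintype J]
    (B : J → I → R) (a : J → R) :
    ∃ φ : PPFormula R, ∀ (Q : Type u) [AddCommGroup Q] [Module R Q] (v : Q),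
      v ∈ φ.sol Q ↔ ∃ z : I → Q, ∀ j, ∑ i, B j i • z i = a j • v := by
  refine ⟨⟨Fintype.card I, Fintype.card J,
    fun j i => B ((Fintype.equivFin J).symm j) ((Fintype.equivFin I).symm i),
    fun j => a ((Fintype.equivFin J).symm j)⟩, ?_⟩
  intro Q _ _ v
  constructor
  · rintro ⟨z, hz⟩
    refine ⟨fun i => z (Fintype.equivFin I i), fun j => ?_⟩
    have h := hz (Fintype.equivFin J j)
    simp only [Equiv.symm_apply_apply] at h
    rw [← h, ← Equiv.sum_comp (Fintype.equivFin I)]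
    simp
  · rintro ⟨z, hz⟩
    refine ⟨fun i => z ((Fintype.equivFin I).symm i), fun j => ?_⟩
    have h := hz ((Fintype.equivFin J).symm j)
    show ∑ i, B ((Fintype.equivFin J).symm j) ((Fintype.equivFin I).symm i) •
      z ((Fintype.equivFin I).symm i) = a ((Fintype.equivFin J).symm j) • v
    rw [← h, ← Equiv.sum_comp (Fintype.equivFin I)]
    simp

/-- homomorphisms preserve pp formulas -/
theorem sol_map {R : Type u} [Ring R] (φ : PPFormula R) {Q Q' : Type u} [AddCommGroup Q]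
    [Module R Q] [AddCommGroup Q'] [Module R Q'] (f : Q →ₗ[R] Q') {v : Q} (hv : v ∈ φ.sol Q) :
    f v ∈ φ.sol Q' := by
  obtain ⟨z, hz⟩ := hv
  refine ⟨fun i => f (z i), fun j => ?_⟩
  have h := congrArg f (hz j)
  rw [map_sum] at h
  simp only [map_smul] at h
  exact h

theorem sol_zero {R : Type u} [Ring R] (φ : PPFormula R) (Q : Type u) [AddCommGroup Q]
    [Module R Q] : (0 : Q) ∈ φ.sol Q := ⟨fun _ => 0, fun j => by simp⟩

/-- a finite presentation -/
theorem presentation {A : Type u} [Ring A] [IsNoetherianRing A]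
    (M : Type u) [AddCommGroup M] [Module A M] [IsNoetherian A M] :
    ∃ (n l : ℕ) (κ : Fin l → Fin n → A) (π : (Fin n → A) →ₗ[A] M), Function.Surjective π ∧
      (∀ j, π (κ j) = 0) ∧ ∀ (Q : Type u) [AddCommGroup Q] [Module A Q] (z : Fin n → Q),
        (∀ j, ∑ i, κ j i • z i = 0) → ∃ u : M →ₗ[A] Q, ∀ x, u (π x) = ∑ i, x i • z i := by
  obtain ⟨n, π, hπ⟩ := Module.Finite.exists_fin' A M
  have hfg : (LinearMap.ker π).FG := IsNoetherian.noetherian _
  rw [Submodule.fg_iff_exists_fin_generating_family] at hfg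
  obtain ⟨l, κ, hκ⟩ := hfg
  have hk : ∀ j, π (κ j) = 0 := by
    intro j
    have h : κ j ∈ LinearMap.ker π := by
      rw [← hκ]
      exact Submodule.subset_span ⟨j, rfl⟩
    exact LinearMap.mem_ker.mp h
  refine ⟨n, l, κ, π, hπ, hk, ?_⟩
  intro Q _ _ z hz
  have hle : LinearMap.ker π ≤ LinearMap.ker (Fintype.linearCombination A z) := by
    rw [← hκ, Submodule.span_le]
    rintro _ ⟨j, rfl⟩
    rw [SetLike.mem_coe, LinearMap.mem_ker, Fintype.linearCombination_apply]
    exact hz j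
  refine ⟨((LinearMap.ker π).liftQ (Fintype.linearCombination A z) hle) ∘ₗ
    (π.quotKerEquivOfSurjective hπ).symm.toLinearMap, fun x => ?_⟩
  have h1 : (π.quotKerEquivOfSurjective hπ).symm (π x) = Submodule.Quotient.mk x := by
    rw [LinearEquiv.symm_apply_eq]
    rfl
  rw [LinearMap.comp_apply, LinearEquiv.coe_coe, h1, Submodule.liftQ_apply,
    Fintype.linearCombination_apply]

theorem hom_eq {A : Type u} [Ring A] {n : ℕ} {M Q : Type u} [AddCommGroup M] [Module A M]
    [AddCommGroup Q] [Module A Q] (π : (Fin n → A) →ₗ[A] M) (u : M →ₗ[A] Q) (x : Fin n → A) :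
    ∑ i, x i • u (π (Pi.single i 1)) = u (π x) := by
  conv_rhs => rw [show x = ∑ i, x i • (Pi.single i (1 : A) : Fin n → A) from by
    funext j
    simp [Finset.sum_apply, Pi.single_apply]]
  rw [map_sum, map_sum]
  simp only [map_smul]

theorem unit_or_nilp {A : Type u} [Ring A] {M : Type u} [AddCommGroup M] [Module A M]
    [IsNoetherian A M] [IsArtinian A M] (hM : IsIndecomposable A M) (f : Module.End A M) :
    IsUnit f ∨ IsNilpotent f := by
  obtain ⟨k, hk⟩ := Filter.eventually_atTop.mp (LinearMap.eventually_isCompl_ker_pow_range_pow f)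
  have h := hk (k + 1) (Nat.le_succ k)
  rcases hM.2 _ _ h with h1 | h1
  · left
    have h2 : LinearMap.range (f ^ (k + 1)) = ⊤ := by
      have h2 := h.sup_eq_top
      rwa [h1, bot_sup_eq] at h2
    have h3 : IsUnit (f ^ (k + 1)) := by
      rw [Module.End.isUnit_iff]
      exact ⟨LinearMap.ker_eq_bot.mp h1, LinearMap.range_eq_top.mp h2⟩
    exact (isUnit_pow_iff (Nat.succ_ne_zero k)).mp h3
  · right
    exact ⟨k + 1, LinearMap.range_eq_bot.mp h1⟩

theorem local_end {A : Type u} [Ring A] {M : Type u} [AddCommGroup M] [Module A M]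
    [IsNoetherian A M] [IsArtinian A M] (hM : IsIndecomposable A M) (f g : Module.End A M)
    (hf : ¬ IsUnit f) (hg : ¬ IsUnit g) : IsUnit (1 - (f + g)) := by
  rcases unit_or_nilp hM (1 - (f + g)) with h | h
  · exact h
  · exfalso
    have h1 := h.isUnit_one_sub
    rw [sub_sub_cancel] at h1
    obtain ⟨w, hw⟩ := h1
    have h2 : ¬ IsUnit (↑w⁻¹ * f) := by
      rwa [Units.isUnit_units_mul]
    have h3 := ((unit_or_nilp hM (↑w⁻¹ * f)).resolve_left h2).isUnit_one_sub
    have h4 : 1 - ↑w⁻¹ * f = ↑w⁻¹ * g := by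
      have h5 : (↑w⁻¹ : Module.End A M) * (f + g) = 1 := by rw [← hw]; exact w.inv_mul
      rw [← h5, mul_add]
      abel
    rw [h4, Units.isUnit_units_mul] at h3
    exact hg h3

/-- Two pp pairs open at an indecomposable module of finite length can be refined to one pair. -/
theorem combine_pairs {A : Type u} [Ring A] [IsNoetherianRing A]
    (M : Type u) [AddCommGroup M] [Module A M] (hfl : IsFiniteLength A M)
    (hM : IsIndecomposable A M) (φ₁ ψ₁ φ₂ ψ₂ : PPFormula A) (m₁ m₂ : M)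
    (h₁ : m₁ ∈ φ₁.sol M) (h₁' : m₁ ∉ ψ₁.sol M) (h₂ : m₂ ∈ φ₂.sol M) (h₂' : m₂ ∉ ψ₂.sol M) :
    ∃ φ ψ : PPFormula A, ψ.Le φ ∧ (∃ m : M, m ∈ φ.sol M ∧ m ∉ ψ.sol M) ∧
      ∀ (Q : Type u) [AddCommGroup Q] [Module A Q], φ.sol Q ≠ ψ.sol Q →
        ((∃ q : Q, q ∈ φ₁.sol Q ∧ q ∉ ψ₁.sol Q) ∧ (∃ q : Q, q ∈ φ₂.sol Q ∧ q ∉ ψ₂.sol Q)) := by
  obtain ⟨hN, hAr⟩ := isFiniteLength_iff_isNoetherian_isArtinian.mp hfl
  obtain ⟨n, l, κ, π, hπ, hκ, hext⟩ := presentation (A := A) M
  obtain ⟨d₁, hd₁⟩ := hπ m₁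
  obtain ⟨d₂, hd₂⟩ := hπ m₂
  have hrel : ∀ (Q : Type u) [AddCommGroup Q] [Module A Q] (u : M →ₗ[A] Q) (j : Fin l),
      ∑ i, κ j i • u (π (Pi.single i 1)) = 0 := by
    intro Q _ _ u j
    rw [hom_eq, hκ, map_zero]
  obtain ⟨φ, hφ⟩ := exists_formula (R := A) (I := Fin n) (J := Option (Fin l))
    (fun j i => match j with | none => d₁ i | some k => κ k i)
    (fun j => match j with | none => 1 | some _ => 0)
  have hφ' : ∀ (Q : Type u) [AddCommGroup Q] [Module A Q] (v : Q), v ∈ φ.sol Q ↔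
      ∃ u : M →ₗ[A] Q, u m₁ = v := by
    intro Q _ _ v
    rw [hφ]
    constructor
    · rintro ⟨z, hz⟩
      obtain ⟨u, hu⟩ := hext Q z (fun j => by simpa using hz (some j))
      refine ⟨u, ?_⟩
      rw [← hd₁, hu]
      simpa using hz none
    · rintro ⟨u, rfl⟩
      refine ⟨fun i => u (π (Pi.single i 1)), fun j => ?_⟩
      cases j with
      | none =>
        show ∑ i, d₁ i • u (π (Pi.single i 1)) = (1 : A) • u m₁
        rw [hom_eq, hd₁, one_smul]
      | some k =>
        show ∑ i, κ k i • u (π (Pi.single i 1)) = (0 : A) • u m₁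
        rw [hrel Q u k, zero_smul]
  obtain ⟨ψ, hψ⟩ := exists_formula (R := A) (I := (Fin n ⊕ Fin n) ⊕ (Fin ψ₁.m ⊕ Fin ψ₂.m))
    (J := Option ((Fin l ⊕ Fin l) ⊕ (Fin ψ₁.l ⊕ Fin ψ₂.l)))
    (fun j i => match j, i with
      | none, Sum.inl (Sum.inl i) => d₁ i
      | none, Sum.inl (Sum.inr i) => d₁ i
      | none, Sum.inr _ => 0
      | some (Sum.inl (Sum.inl k)), Sum.inl (Sum.inl i) => κ k i
      | some (Sum.inl (Sum.inl _)), Sum.inl (Sum.inr _) => 0
      | some (Sum.inl (Sum.inl _)), Sum.inr _ => 0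
      | some (Sum.inl (Sum.inr _)), Sum.inl (Sum.inl _) => 0
      | some (Sum.inl (Sum.inr k)), Sum.inl (Sum.inr i) => κ k i
      | some (Sum.inl (Sum.inr _)), Sum.inr _ => 0
      | some (Sum.inr (Sum.inl k)), Sum.inl (Sum.inl i) => -(ψ₁.a k * d₁ i)
      | some (Sum.inr (Sum.inl _)), Sum.inl (Sum.inr _) => 0
      | some (Sum.inr (Sum.inl k)), Sum.inr (Sum.inl i) => ψ₁.B k i
      | some (Sum.inr (Sum.inl _)), Sum.inr (Sum.inr _) => 0
      | some (Sum.inr (Sum.inr _)), Sum.inl (Sum.inl _) => 0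
      | some (Sum.inr (Sum.inr k)), Sum.inl (Sum.inr i) => -(ψ₂.a k * d₂ i)
      | some (Sum.inr (Sum.inr _)), Sum.inr (Sum.inl _) => 0
      | some (Sum.inr (Sum.inr k)), Sum.inr (Sum.inr i) => ψ₂.B k i)
    (fun j => match j with | none => 1 | some _ => 0)
  have hψ' : ∀ (Q : Type u) [AddCommGroup Q] [Module A Q] (v : Q), v ∈ ψ.sol Q ↔
      ∃ u' u : M →ₗ[A] Q, u' m₁ ∈ ψ₁.sol Q ∧ u m₂ ∈ ψ₂.sol Q ∧ u' m₁ + u m₁ = v := by
    intro Q _ _ v
    rw [hψ]
    constructor
    · rintro ⟨z, hz⟩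
      obtain ⟨u', hu'⟩ := hext Q (fun i => z (Sum.inl (Sum.inl i))) (fun j => by
        have h := hz (some (Sum.inl (Sum.inl j)))
        simpa [Fintype.sum_sum_type] using h)
      obtain ⟨u, hu⟩ := hext Q (fun i => z (Sum.inl (Sum.inr i))) (fun j => by
        have h := hz (some (Sum.inl (Sum.inr j)))
        simpa [Fintype.sum_sum_type] using h)
      refine ⟨u', u, ⟨fun i => z (Sum.inr (Sum.inl i)), fun k => ?_⟩,
        ⟨fun i => z (Sum.inr (Sum.inr i)), fun k => ?_⟩, ?_⟩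
      · have h := hz (some (Sum.inr (Sum.inl k)))
        simp only [Fintype.sum_sum_type, neg_smul, Finset.sum_neg_distrib, zero_smul,
          Finset.sum_const_zero, add_zero, mul_smul, ← Finset.smul_sum] at h
        rw [← hd₁, hu']
        rw [neg_add_eq_zero] at h
        exact h.symm
      · have h := hz (some (Sum.inr (Sum.inr k)))
        simp only [Fintype.sum_sum_type, neg_smul, Finset.sum_neg_distrib, zero_smul,
          Finset.sum_const_zero, add_zero, zero_add, mul_smul, ← Finset.smul_sum] at h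
        rw [← hd₂, hu]
        rw [neg_add_eq_zero] at h
        exact h.symm
      · have h := hz none
        simp only [Fintype.sum_sum_type, zero_smul, Finset.sum_const_zero, add_zero, one_smul] at h
        rw [← hd₁, hu', hu]
        exact h
    · rintro ⟨u', u, ⟨w₁, hw₁⟩, ⟨w₂, hw₂⟩, rfl⟩
      refine ⟨Sum.elim (Sum.elim (fun i => u' (π (Pi.single i 1))) (fun i => u (π (Pi.single i 1))))
        (Sum.elim w₁ w₂), fun j => ?_⟩
      rcases j with _ | ((k | k) | (k | k))
      · simp only [Fintype.sum_sum_type, Sum.elim_inl, Sum.elim_inr, zero_smul,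
          Finset.sum_const_zero, add_zero, one_smul]
        rw [hom_eq, hom_eq, hd₁]
      · simp only [Fintype.sum_sum_type, Sum.elim_inl, Sum.elim_inr, zero_smul,
          Finset.sum_const_zero, add_zero]
        exact hrel Q u' k
      · simp only [Fintype.sum_sum_type, Sum.elim_inl, Sum.elim_inr, zero_smul,
          Finset.sum_const_zero, add_zero, zero_add]
        exact hrel Q u k
      · simp only [Fintype.sum_sum_type, Sum.elim_inl, Sum.elim_inr, zero_smul, neg_smul,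
          Finset.sum_neg_distrib, Finset.sum_const_zero, add_zero, mul_smul, ← Finset.smul_sum]
        rw [hom_eq, hd₁, neg_add_eq_zero]
        exact (hw₁ k).symm
      · simp only [Fintype.sum_sum_type, Sum.elim_inl, Sum.elim_inr, zero_smul, neg_smul,
          Finset.sum_neg_distrib, Finset.sum_const_zero, add_zero, zero_add, mul_smul,
          ← Finset.smul_sum]
        rw [hom_eq, hd₂, neg_add_eq_zero]
        exact (hw₂ k).symm
  refine ⟨φ, ψ, ?_, ⟨m₁, ?_, ?_⟩, ?_⟩
  · intro Q _ _ v hv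
    obtain ⟨u', u, _, _, h⟩ := (hψ' Q v).mp hv
    exact (hφ' Q v).mpr ⟨u' + u, h⟩
  · exact (hφ' M m₁).mpr ⟨LinearMap.id, rfl⟩
  · intro hm
    obtain ⟨u', u, a1, a2, a3⟩ := (hψ' M m₁).mp hm
    have n1 : ¬ IsUnit (u' : Module.End A M) := by
      rintro ⟨w, hw⟩
      apply h₁'
      have h3 := sol_map ψ₁ (↑w⁻¹ : Module.End A M) a1
      have h4 : (↑w⁻¹ : Module.End A M) (u' m₁) = m₁ := by
        have h5 : (↑w⁻¹ : Module.End A M) * u' = 1 := by rw [← hw]; exact w.inv_mul
        have h6 := congrArg (fun f : Module.End A M => f m₁) h5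
        exact h6
      rwa [h4] at h3
    have n2 : ¬ IsUnit (u : Module.End A M) := by
      rintro ⟨w, hw⟩
      apply h₂'
      have h3 := sol_map ψ₂ (↑w⁻¹ : Module.End A M) a2
      have h4 : (↑w⁻¹ : Module.End A M) (u m₂) = m₂ := by
        have h5 : (↑w⁻¹ : Module.End A M) * u = 1 := by rw [← hw]; exact w.inv_mul
        have h6 := congrArg (fun f : Module.End A M => f m₂) h5
        exact h6
      rwa [h4] at h3
    have h7 := local_end hM u' u n1 n2
    rw [Module.End.isUnit_iff] at h7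
    have h8 : (1 - (u' + u) : Module.End A M) m₁ = 0 := by
      show m₁ - (u' m₁ + u m₁) = 0
      rw [a3, sub_self]
    have h9 : m₁ = 0 := h7.1 (by rw [h8, map_zero])
    apply h₁'
    rw [h9]
    exact sol_zero ψ₁ M
  · intro Q _ _ hne
    have h10 : ∃ q, q ∈ φ.sol Q ∧ q ∉ ψ.sol Q := by
      by_contra hc
      apply hne
      apply Set.Subset.antisymm
      · intro q hq
        by_contra hq'
        exact hc ⟨q, hq, hq'⟩
      · intro q hq
        obtain ⟨u', u, _, _, h⟩ := (hψ' Q q).mp hq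
        exact (hφ' Q q).mpr ⟨u' + u, h⟩
    obtain ⟨q, hq, hq'⟩ := h10
    obtain ⟨u, rfl⟩ := (hφ' Q q).mp hq
    refine ⟨⟨u m₁, sol_map φ₁ u h₁, fun h => hq' ?_⟩, ⟨u m₂, sol_map φ₂ u h₂, fun h => hq' ?_⟩⟩
    · refine (hψ' Q _).mpr ⟨u, 0, h, ?_, ?_⟩
      · simpa using sol_zero ψ₂ Q
      · simp
    · refine (hψ' Q _).mpr ⟨0, u, ?_, h, ?_⟩
      · simpa using sol_zero ψ₁ Q
      · simp

end Zg
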