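import Pool.Agent.Helper462.Zg.Defs

/-!
# The Ziegler spectrum: definitions

Modules are left modules over a ring `R`; right modules over `S` are left modules over `Sᵐᵒᵖ`.
Everything lives in one universe `u`.
-/

namespace Zg

universe u



section Iso11021

variable {A : Type u} [Ring A]

/-- Every element of a left ideal is a combination of finitely many generators. -/
theorem left_gen_11021 {R : Type u} [Ring R] [IsNoetherianRing R] (K : Ideal R) :
    ∃ (p : ℕ) (b : Fin p → R), (∀ j, b j ∈ K) ∧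
      ∀ y ∈ K, ∃ r : Fin p → R, y = ∑ j, r j * b j := by
  obtain ⟨s, hs⟩ := (isNoetherianRing_iff_ideal_fg R).1 inferInstance K
  obtain ⟨e⟩ : Nonempty (Fin s.card ≃ s) := ⟨s.equivFin.symm⟩
  refine ⟨s.card, fun j => (e j : R), fun j => ?_, fun y hy => ?_⟩
  · rw [← hs]
    exact Submodule.subset_span (e j).2
  · rw [← hs] at hy
    obtain ⟨f, -, hf⟩ := Submodule.mem_span_finset.1 hy
    refine ⟨fun j => f (e j), ?_⟩
    rw [← hf, ← Finset.sum_coe_sort, ← Equiv.sum_comp e]
    rfl

/-- right version -/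
theorem right_gen_11021 [IsNoetherianRing Aᵐᵒᵖ] (K : Ideal A)
    (hK : ∀ a ∈ K, ∀ r : A, a * r ∈ K) :
    ∃ (q : ℕ) (c : Fin q → A), (∀ j, c j ∈ K) ∧
      ∀ y ∈ K, ∃ r : Fin q → A, y = ∑ j, c j * r j := by
  obtain ⟨q, c, hc, h⟩ := left_gen_11021 (R := Aᵐᵒᵖ)
    { carrier := {x | x.unop ∈ K}
      add_mem' := fun {x y} hx hy => by
        change (x + y).unop ∈ K
        rw [MulOpposite.unop_add]
        exact K.add_mem hx hy
      zero_mem' := K.zero_mem
      smul_mem' := fun r x hx => by
        change (r * x).unop ∈ K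
        rw [MulOpposite.unop_mul]
        exact hK _ hx _ }
  refine ⟨q, fun j => (c j).unop, hc, fun y hy => ?_⟩
  obtain ⟨r, hr⟩ := h (MulOpposite.op y) hy
  refine ⟨fun j => (r j).unop, ?_⟩
  have h2 := congrArg MulOpposite.unop hr
  rw [MulOpposite.unop_op] at h2
  rw [h2]
  simp

/-- modules killed by `K` are semisimple -/
theorem semisimple_11021 (K : Ideal A) (hM : IsSemisimpleModule A (A ⧸ K)) (X : Type u)
    [AddCommGroup X] [Module A X] (hX : ∀ a ∈ K, ∀ x : X, a • x = 0) : IsSemisimpleModule A X := by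
  have h1 : ∀ x : X, K ≤ LinearMap.ker (LinearMap.toSpanSingleton A X x) := by
    intro x a ha
    rw [LinearMap.mem_ker, LinearMap.toSpanSingleton_apply]
    exact hX a ha x
  refine isSemisimpleModule_of_isSemisimpleModule_submodule'
    (p := fun x : X => LinearMap.range (Submodule.liftQ K (LinearMap.toSpanSingleton A X x) (h1 x)))
    (fun x => IsSemisimpleModule.range _) ?_
  rw [eq_top_iff]
  intro x _
  refine Submodule.mem_iSup_of_mem x ?_
  refine ⟨Submodule.Quotient.mk 1, ?_⟩
  rw [Submodule.liftQ_apply, LinearMap.toSpanSingleton_apply, one_smul]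

end Iso11021

/-- A finite-dimensional simple module is isolated by a pp pair. -/
theorem isolated_of_simple {k : Type u} [Field k] [IsAlgClosed k] {A : Type u} [Ring A]
    [Algebra k A] [IsNoetherianRing A] [IsNoetherianRing Aᵐᵒᵖ]
    (L : Type u) [AddCommGroup L] [Module k L] [Module A L] [IsScalarTower k A L]
    [IsSimpleModule A L] [FiniteDimensional k L] :
    ∃ φ ψ : PPFormula A, ψ.Le φ ∧ φ.sol L ≠ ψ.sol L ∧
      ∀ (Q : Type u) [AddCommGroup Q] [Module A Q], IsIndecomposable A Q →
        φ.sol Q ≠ ψ.sol Q → Nonempty (Q ≃ₗ[A] L) := by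
  classical
  obtain ⟨K, hK⟩ : ∃ K : Ideal A, ∀ a, a ∈ K ↔ ∀ y : L, a • y = 0 :=
    ⟨Module.annihilator A L, fun a => Module.mem_annihilator⟩
  have hK2 : ∀ a ∈ K, ∀ r : A, a * r ∈ K := by
    intro a ha r
    rw [hK]
    intro y
    rw [mul_smul]
    exact (hK a).1 ha _
  obtain ⟨p, b, hb, hbK⟩ := left_gen_11021 K
  obtain ⟨q, c, hc, hcK⟩ := right_gen_11021 K hK2
  -- A / K is semisimple
  obtain ⟨x, hx⟩ : ∃ x : Module.Basis.ofVectorSpaceIndex k L → L,
      x = fun i => Module.Basis.ofVectorSpace k L i := ⟨_, rfl⟩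
  obtain ⟨j0, hj0⟩ : ∃ j0 : A →ₗ[A] (Module.Basis.ofVectorSpaceIndex k L → L),
      j0 = LinearMap.toSpanSingleton A _ x := ⟨_, rfl⟩
  have hker : K = LinearMap.ker j0 := by
    ext a
    rw [LinearMap.mem_ker, hj0, LinearMap.toSpanSingleton_apply, hK]
    constructor
    · intro h
      ext i
      exact h _
    · intro h y
      have h1 : ∀ i, a • (Module.Basis.ofVectorSpace k L i) = 0 := by
        intro i
        have := congrFun h i
        rw [hx] at this
        exact this
      rw [← (Module.Basis.ofVectorSpace k L).sum_repr y, Finset.smul_sum]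
      refine Finset.sum_eq_zero fun i _ => ?_
      rw [smul_comm, h1 i, smul_zero]
  obtain ⟨j, hj⟩ : ∃ j : (A ⧸ K) →ₗ[A] (Module.Basis.ofVectorSpaceIndex k L → L),
      Function.Injective j := by
    refine ⟨Submodule.liftQ K j0 hker.le, ?_⟩
    rw [← LinearMap.ker_eq_bot]
    exact Submodule.ker_liftQ_eq_bot _ _ _ hker.ge
  have hM : IsSemisimpleModule A (A ⧸ K) := IsSemisimpleModule.of_injective j hj
  refine ⟨⟨0, p, fun _ i => i.elim0, b⟩, ⟨q, p + 1, Fin.cons c (fun _ _ => 0), Fin.cons 1 b⟩,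
    ?_, ?_, ?_⟩
  · intro Q _ _ v hv
    obtain ⟨z, hz⟩ := hv
    refine ⟨fun i => i.elim0, fun j => ?_⟩
    have := hz j.succ
    simpa using this
  · intro h
    have hnt : Nontrivial L := IsSimpleModule.nontrivial A L
    obtain ⟨v, hv⟩ := exists_ne (0 : L)
    have h1 : v ∈ PPFormula.sol (⟨0, p, fun _ i => i.elim0, b⟩ : PPFormula A) L := by
      refine ⟨fun i => i.elim0, fun j => ?_⟩
      change ∑ i : Fin 0, _ = b j • v
      rw [(hK _).1 (hb j) v]
      exact Finset.sum_empty
    rw [h] at h1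
    obtain ⟨z, hz⟩ := h1
    have h2 : ∑ i, c i • z i = (1 : A) • v := hz 0
    rw [one_smul, Finset.sum_eq_zero fun i _ => (hK _).1 (hc i) (z i)] at h2
    exact hv h2.symm
  · intro Q _ _ hQ hne
    have hle : ∀ v : Q, v ∈ PPFormula.sol (⟨q, p + 1, Fin.cons c (fun _ _ => 0), Fin.cons 1 b⟩ : PPFormula A) Q ↔
        (∃ z : Fin q → Q, ∑ i, c i • z i = v) ∧ ∀ j, b j • v = 0 := by
      intro v
      constructor
      · rintro ⟨z, hz⟩
        refine ⟨⟨z, ?_⟩, fun j => ?_⟩
        · have h2 : ∑ i, c i • z i = (1 : A) • v := hz 0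
          rwa [one_smul] at h2
        · have := hz j.succ
          simpa using this.symm
      · rintro ⟨⟨z, hz⟩, h2⟩
        refine ⟨z, fun j => ?_⟩
        refine Fin.cases ?_ (fun j => ?_) j
        · change ∑ i, c i • z i = (1 : A) • v
          rw [one_smul, hz]
        · change ∑ i, (0 : A) • z i = b j • v
          rw [h2 j]
          simp
    have hph : ∀ v : Q, v ∈ PPFormula.sol (⟨0, p, fun _ i => i.elim0, b⟩ : PPFormula A) Q ↔
        ∀ j, b j • v = 0 := by
      intro v
      constructor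
      · rintro ⟨z, hz⟩ j
        have h2 : ∑ i : Fin 0, _ = b j • v := hz j
        rw [← h2]
        exact Finset.sum_empty
      · intro h
        refine ⟨fun i => i.elim0, fun j => ?_⟩
        change ∑ i : Fin 0, _ = b j • v
        rw [h j]
        exact Finset.sum_empty
    obtain ⟨v, hv1, hv2⟩ : ∃ v : Q, (∀ j, b j • v = 0) ∧ ¬ ∃ z : Fin q → Q, ∑ i, c i • z i = v := by
      by_contra hcon
      push Not at hcon
      apply hne
      ext v
      rw [hle, hph]
      constructor
      · intro h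
        exact ⟨hcon v h, h⟩
      · intro h
        exact h.2
    have hKv : ∀ a ∈ K, a • v = 0 := by
      intro a ha
      obtain ⟨r, hr⟩ := hbK a ha
      rw [hr, Finset.sum_smul]
      refine Finset.sum_eq_zero fun i _ => ?_
      rw [mul_smul, hv1 i, smul_zero]
    have hKc : ∀ a ∈ K, ∀ w : Q, ∃ z : Fin q → Q, ∑ i, c i • z i = a • w := by
      intro a ha w
      obtain ⟨r, hr⟩ := hcK a ha
      refine ⟨fun i => r i • w, ?_⟩
      rw [hr, Finset.sum_smul]
      exact Finset.sum_congr rfl fun i _ => (mul_smul _ _ _).symm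
    have hadd : ∀ w w' : Q, (∃ z : Fin q → Q, ∑ i, c i • z i = w) →
        (∃ z : Fin q → Q, ∑ i, c i • z i = w') → ∃ z : Fin q → Q, ∑ i, c i • z i = w + w' := by
      rintro _ _ ⟨z, rfl⟩ ⟨z', rfl⟩
      refine ⟨fun i => z i + z' i, ?_⟩
      rw [← Finset.sum_add_distrib]
      exact Finset.sum_congr rfl fun i _ => smul_add _ _ _
    obtain ⟨N, hN⟩ : ∃ N : Submodule A Q, ∀ w, w ∈ N ↔ ∃ z : Fin q → Q, ∑ i, c i • z i = w := by
      refine ⟨{ carrier := {w | ∃ z : Fin q → Q, ∑ i, c i • z i = w}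
                add_mem' := fun {w w'} h h' => hadd w w' h h'
                zero_mem' := ⟨fun _ => 0, by simp⟩
                smul_mem' := ?_ }, fun w => Iff.rfl⟩
      rintro a _ ⟨z, rfl⟩
      rw [Finset.smul_sum]
      have h3 : ∀ s : Finset (Fin q), ∃ z' : Fin q → Q, ∑ i, c i • z' i = ∑ i ∈ s, a • c i • z i := by
        intro s
        induction s using Finset.induction_on with
        | empty => exact ⟨fun _ => 0, by simp⟩
        | insert i s hi ih =>
          rw [Finset.sum_insert hi]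
          refine hadd _ _ ?_ ih
          rw [← mul_smul]
          exact hKc _ (K.mul_mem_left a (hc i)) (z i)
      exact h3 Finset.univ
    have hQN : IsSemisimpleModule A (Q ⧸ N) := by
      refine semisimple_11021 K hM _ fun a ha x => ?_
      obtain ⟨w, rfl⟩ := Submodule.Quotient.mk_surjective N x
      rw [← Submodule.Quotient.mk_smul, Submodule.Quotient.mk_eq_zero, hN]
      exact hKc a ha w
    -- the map from A / K
    obtain ⟨f, hf⟩ : ∃ f : (A ⧸ K) →ₗ[A] Q, f (Submodule.Quotient.mk 1) = v := by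
      refine ⟨Submodule.liftQ K (LinearMap.toSpanSingleton A Q v) ?_, ?_⟩
      · intro a ha
        rw [LinearMap.mem_ker, LinearMap.toSpanSingleton_apply]
        exact hKv a ha
      · rw [Submodule.liftQ_apply, LinearMap.toSpanSingleton_apply, one_smul]
    obtain ⟨m, hm, hmN⟩ : ∃ m : Submodule A (A ⧸ K), IsSimpleModule A m ∧ ¬ m ≤ N.comap f := by
      by_contra hcon
      push Not at hcon
      have h4 : (⊤ : Submodule A (A ⧸ K)) ≤ N.comap f := by
        rw [← IsSemisimpleModule.sSup_simples_eq_top (R := A) (M := A ⧸ K)]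
        exact sSup_le fun m hm => hcon m hm
      have h5 := h4 (Submodule.mem_top (x := Submodule.Quotient.mk 1))
      rw [Submodule.mem_comap, hf, hN] at h5
      exact hv2 h5
    obtain ⟨σ, hσ⟩ : ∃ σ : m →ₗ[A] Q, σ = f ∘ₗ m.subtype := ⟨_, rfl⟩
    have hginj : Function.Injective (N.mkQ ∘ₗ σ) := by
      refine LinearMap.injective_of_ne_zero ?_
      intro h0
      apply hmN
      intro y hy
      have h6 := LinearMap.congr_fun h0 ⟨y, hy⟩
      rw [hσ] at h6
      rw [Submodule.mem_comap]
      have h7 : N.mkQ (f y) = 0 := h6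
      rwa [Submodule.mkQ_apply, Submodule.Quotient.mk_eq_zero] at h7
    obtain ⟨h, hh⟩ := IsSemisimpleModule.extension_property (N.mkQ ∘ₗ σ) hginj
      (LinearMap.id : m →ₗ[A] m)
    obtain ⟨e, he⟩ : ∃ e : Q →ₗ[A] m, e = h ∘ₗ N.mkQ := ⟨_, rfl⟩
    have heσ : ∀ y, e (σ y) = y := by
      intro y
      have := LinearMap.congr_fun hh y
      rw [he]
      exact this
    have hcompl : IsCompl (LinearMap.range σ) (LinearMap.ker e) := by
      constructor
      · rw [Submodule.disjoint_def]
        rintro _ ⟨y, rfl⟩ hy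
        rw [LinearMap.mem_ker, heσ] at hy
        rw [hy, map_zero]
      · rw [codisjoint_iff, eq_top_iff]
        intro w _
        refine Submodule.mem_sup.2 ⟨σ (e w), ⟨e w, rfl⟩, w - σ (e w), ?_, by abel⟩
        rw [LinearMap.mem_ker, map_sub, heσ, sub_self]
    have hnm : Nontrivial m := IsSimpleModule.nontrivial A m
    have hkere : LinearMap.ker e = ⊥ := by
      rcases hQ.2 _ _ hcompl with h8 | h8
      · exfalso
        obtain ⟨y, hy⟩ := exists_ne (0 : m)
        apply hy
        have h9 : σ y ∈ LinearMap.range σ := ⟨y, rfl⟩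
        rw [h8, Submodule.mem_bot] at h9
        rw [← heσ y, h9, map_zero]
      · exact h8
    have hebij : Function.Bijective e :=
      ⟨LinearMap.ker_eq_bot.1 hkere, fun y => ⟨σ y, heσ y⟩⟩
    -- m is isomorphic to L
    obtain ⟨g, hg⟩ : ∃ g : m →ₗ[A] (Module.Basis.ofVectorSpaceIndex k L → L), g = j ∘ₗ m.subtype :=
      ⟨_, rfl⟩
    have hginj2 : Function.Injective g := by
      rw [hg]
      exact hj.comp (Submodule.injective_subtype m)
    obtain ⟨i, hi⟩ : ∃ i, (LinearMap.proj i) ∘ₗ g ≠ 0 := by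
      by_contra hcon
      push Not at hcon
      obtain ⟨y, hy⟩ := exists_ne (0 : m)
      apply hy
      apply hginj2
      rw [map_zero]
      ext i
      exact LinearMap.congr_fun (hcon i) y
    have hbij := LinearMap.bijective_of_ne_zero hi
    exact ⟨(LinearEquiv.ofBijective e hebij).trans (LinearEquiv.ofBijective _ hbij)⟩

end Zg
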