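import Pool.Agent.Helper462.Zg.Ext
import Pool.Agent.Helper462.Zg.Iso
import Pool.Agent.Helper462.Zg.Combine

/-!
# Isolated points among hulls of finite-length modules over quotients of `U(sl₂)`
-/

namespace Zg

universe u

section General

variable {k : Type u} [Field k] {A : Type u} [Ring A] [Algebra k A]

/-- finite-dimensional modules are pure-injective -/
theorem isPureInjective_of_finiteDimensional (M : Type u) [AddCommGroup M] [Module k M]
    [Module A M] [IsScalarTower k A M] [FiniteDimensional k M] : IsPureInjective A M := by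
  have hbij : Function.Bijective (kap : M →ₗ[A] DD k M) := by
    refine ⟨kap_isPureEmbedding.1, fun F => ?_⟩
    obtain ⟨m, hm⟩ := (Module.evalEquiv k M).surjective F
    exact ⟨m, hm⟩
  let e := LinearEquiv.ofBijective (kap : M →ₗ[A] DD k M) hbij
  refine DD.isPureInjective.retract (kap : M →ₗ[A] DD k M) e.symm.toLinearMap ?_
  ext m
  exact e.symm_apply_apply m

/-- a pure-injective hull of a pure-injective module is an isomorphism -/
theorem hull_bijective {M N : Type u} [AddCommGroup M] [Module A M] [AddCommGroup N]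
    [Module A N] (hM : IsPureInjective A M) (i : M →ₗ[A] N) (hi : IsPureInjectiveHull i) :
    Function.Bijective i := by
  obtain ⟨r, hr⟩ := hM M N i hi.1 LinearMap.id
  have h1 : (i ∘ₗ r) ∘ₗ i = i := by
    rw [LinearMap.comp_assoc, hr, LinearMap.comp_id]
  have h2 := hi.2.2 (i ∘ₗ r) h1
  refine ⟨hi.1.1, fun y => ?_⟩
  obtain ⟨x, hx⟩ := h2.2 y
  exact ⟨r x, hx⟩

/-- uniqueness of hulls -/
theorem hull_unique {M N N' : Type u} [AddCommGroup M] [Module A M] [AddCommGroup N]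
    [Module A N] [AddCommGroup N'] [Module A N'] (i : M →ₗ[A] N) (hi : IsPureInjectiveHull i)
    (i' : M →ₗ[A] N') (hi' : IsPureInjectiveHull i') : Nonempty (N ≃ₗ[A] N') := by
  obtain ⟨α, hα⟩ := hi'.2.1 M N i hi.1 i'
  obtain ⟨β, hβ⟩ := hi.2.1 M N' i' hi'.1 i
  have h1 : Function.Bijective (β ∘ₗ α) := hi.2.2 _ (by rw [LinearMap.comp_assoc, hα, hβ])
  have h2 : Function.Bijective (α ∘ₗ β) := hi'.2.2 _ (by rw [LinearMap.comp_assoc, hβ, hα])
  refine ⟨LinearEquiv.ofBijective α ⟨?_, ?_⟩⟩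
  · exact Function.Injective.of_comp (f := β) h1.1
  · exact Function.Surjective.of_comp (g := β) h2.2

theorem sol_ne_iff_of_equiv (φ ψ : PPFormula A) {N N' : Type u} [AddCommGroup N] [Module A N]
    [AddCommGroup N'] [Module A N'] (e : N ≃ₗ[A] N') (h : φ.sol N ≠ ψ.sol N) :
    φ.sol N' ≠ ψ.sol N' := by
  intro hcon
  apply h
  ext x
  constructor
  · intro hx
    have h1 : e x ∈ ψ.sol N' := hcon ▸ mem_sol_map φ e.toLinearMap hx
    simpa using mem_sol_map ψ e.symm.toLinearMap h1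
  · intro hx
    have h1 : e x ∈ φ.sol N' := hcon ▸ mem_sol_map ψ e.toLinearMap hx
    simpa using mem_sol_map φ e.symm.toLinearMap h1

theorem zgPoint_mem_basicSet (φ ψ : PPFormula A) (N : IndecPureInjective A) :
    zgPoint N ∈ basicSet φ ψ ↔ φ.sol N.carrier ≠ ψ.sol N.carrier := by
  constructor
  · rintro ⟨N', h1, h2⟩
    obtain ⟨e⟩ := Quotient.exact h1
    exact sol_ne_iff_of_equiv φ ψ e h2
  · intro h
    exact ⟨N, rfl, h⟩

theorem zgPoint_eq_iff (N N' : IndecPureInjective A) :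
    zgPoint N = zgPoint N' ↔ Nonempty (N.carrier ≃ₗ[A] N'.carrier) :=
  ⟨fun h => Quotient.exact h, fun h => Quotient.sound h⟩

theorem exists_mem_of_ne {φ ψ : PPFormula A} (hle : ψ.Le φ) {Q : Type u} [AddCommGroup Q]
    [Module A Q] (h : φ.sol Q ≠ ψ.sol Q) : ∃ q : Q, q ∈ φ.sol Q ∧ q ∉ ψ.sol Q := by
  by_contra hcon
  push Not at hcon
  exact h (Set.Subset.antisymm hcon (hle Q))

end General

section Sl2

variable {k : Type u} [Field k] {A : Type u} [Ring A] [Algebra k A] {e f h : A}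

/-- finite intersections of basic sets around the hull of `M` can be refined to one pair -/
theorem refine_finite [IsNoetherianRing A] {M N : Type u} [AddCommGroup M] [Module A M]
    [AddCommGroup N] [Module A N] (hfl : IsFiniteLength A M) (hM : IsIndecomposable A M)
    (i : M →ₗ[A] N) (hi : IsPureInjectiveHull i) (k : Type u) [Field k] [Algebra k A]
    (N₀ : IndecPureInjective A) (e₀ : N₀.carrier ≃ₗ[A] N)
    (F : Set (Set (ZieglerSpectrum A))) (hF : F.Finite)
    (hFb : ∀ S ∈ F, ∃ φ ψ : PPFormula A, ψ.Le φ ∧ S = basicSet φ ψ)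
    (hmem : ∀ S ∈ F, zgPoint N₀ ∈ S) :
    ∃ φ ψ : PPFormula A, ψ.Le φ ∧ (∃ m : M, m ∈ φ.sol M ∧ m ∉ ψ.sol M) ∧
      ∀ Q : IndecPureInjective A, φ.sol Q.carrier ≠ ψ.sol Q.carrier → ∀ S ∈ F, zgPoint Q ∈ S := by
  induction F, hF using Set.Finite.induction_on with
  | empty =>
    obtain ⟨m, hm⟩ := (nontrivial_iff_exists_ne (0 : M)).1 hM.1
    refine ⟨⟨0, 0, fun j => j.elim0, fun j => j.elim0⟩,
      ⟨0, 1, fun _ i => i.elim0, fun _ => 1⟩, ?_, ⟨m, ?_, ?_⟩, ?_⟩
    · rintro Q _ _ q -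
      exact ⟨fun i => i.elim0, fun j => j.elim0⟩
    · exact ⟨fun i => i.elim0, fun j => j.elim0⟩
    · rintro ⟨z, hz⟩
      exact hm (by simpa using (hz 0).symm)
    · rintro Q - S hS
      exact absurd hS (Set.notMem_empty S)
  | insert hS hfin ih =>
    rename_i S F
    obtain ⟨φ₁, ψ₁, hle₁, ⟨m₁, hm₁, hm₁'⟩, hQ₁⟩ := ih
      (fun T hT => hFb T (Set.mem_insert_of_mem _ hT))
      (fun T hT => hmem T (Set.mem_insert_of_mem _ hT))
    obtain ⟨φ₂, ψ₂, hle₂, rfl⟩ := hFb S (Set.mem_insert _ _)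
    have h2 := (zgPoint_mem_basicSet φ₂ ψ₂ N₀).1 (hmem _ (Set.mem_insert _ _))
    have h3 := sol_ne_iff_of_equiv φ₂ ψ₂ e₀ h2
    obtain ⟨x, hx, hx'⟩ := exists_mem_of_ne hle₂ h3
    have h4 : ∃ m : M, m ∈ φ₂.sol M ∧ m ∉ ψ₂.sol M := by
      by_contra hcon
      push Not at hcon
      exact hx' (sol_subset_of_hull k i hi φ₂ ψ₂ hcon hx)
    obtain ⟨m₂, hm₂, hm₂'⟩ := h4
    obtain ⟨φ, ψ, hle, hm, hQ⟩ := combine_pairs M hfl hM φ₁ ψ₁ φ₂ ψ₂ m₁ m₂ hm₁ hm₁' hm₂ hm₂'
    refine ⟨φ, ψ, hle, hm, fun Q hne T hT => ?_⟩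
    obtain ⟨⟨q₁, hq₁, hq₁'⟩, ⟨q₂, hq₂, hq₂'⟩⟩ := hQ Q.carrier hne
    rcases hT with rfl | hT
    · rw [zgPoint_mem_basicSet]
      intro heq
      exact hq₂' (heq ▸ hq₂)
    · refine hQ₁ Q ?_ T hT
      intro heq
      exact hq₁' (heq ▸ hq₁)

/-- **Main theorem** over an algebra generated by an `sl₂`-triple. -/
theorem Sl2Gen.isOpen_iff [IsAlgClosed k] [CharZero k] (H : Sl2Gen k e f h)
    (M : Type u) [AddCommGroup M] [Module k M] [Module A M] [IsScalarTower k A M]
    (hfl : IsFiniteLength A M) (hM : IsIndecomposable A M) (N : IndecPureInjective A)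
    (i : M →ₗ[A] N.carrier) (hi : IsPureInjectiveHull i) :
    IsOpen ({zgPoint N} : Set (ZieglerSpectrum A)) ↔ FiniteDimensional k M := by
  have := H.isNoetherianRing
  have := H.op.isNoetherianRing
  constructor
  · intro hopen
    by_contra hdim
    obtain ⟨T, ⟨F, ⟨hFfin, hFsub⟩, rfl⟩, hmemT, hsubT⟩ :=
      (TopologicalSpace.isTopologicalBasis_of_subbasis
        (α := ZieglerSpectrum A) rfl).exists_subset_of_mem_open (Set.mem_singleton (zgPoint N)) hopen
    obtain ⟨φ, ψ, hle, ⟨m, hm, hm'⟩, hQ⟩ := refine_finite hfl hM i hi k N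
      (LinearEquiv.refl A N.carrier) F hFfin (fun S hS => hFsub hS) (fun S hS => hmemT S hS)
    obtain ⟨F', hF1, hF2, ⟨x, hx, hx'⟩, hF4⟩ := H.not_isolated hfl hM hdim i hi φ ψ
      ⟨i m, mem_sol_map φ i hm, fun hcon => hm' (by
        have h5 : Solvable ψ.B (fun j => i (ψ.a j • m)) := by
          simp only [map_smul]
          exact hcon
        exact hi.1.2 _ _ _ _ h5)⟩
    let Q : IndecPureInjective A := ⟨F'.Q, hF1, hF2⟩
    have hQne : φ.sol Q.carrier ≠ ψ.sol Q.carrier := fun heq => hx' (heq ▸ hx)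
    have h6 : zgPoint Q ∈ ({zgPoint N} : Set (ZieglerSpectrum A)) :=
      hsubT (fun S hS => hQ Q hQne S hS)
    obtain ⟨e'⟩ := (zgPoint_eq_iff Q N).1 h6
    exact hF4.false e'
  · intro hdim
    have hsimple := H.isSimpleModule M hM.1 hM.2
    obtain ⟨φ, ψ, hle, hne, hiso⟩ := isolated_of_simple (k := k) (A := A) M
    let e₀ := LinearEquiv.ofBijective i (hull_bijective
      (isPureInjective_of_finiteDimensional (k := k) M) i hi)
    have h1 : ({zgPoint N} : Set (ZieglerSpectrum A)) = basicSet φ ψ := by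
      ext x
      constructor
      · rintro rfl
        rw [zgPoint_mem_basicSet]
        exact sol_ne_iff_of_equiv φ ψ e₀ hne
      · rintro ⟨N', rfl, hN'⟩
        obtain ⟨e'⟩ := hiso N'.carrier N'.indecomposable hN'
        exact (zgPoint_eq_iff N' N).2 ⟨e'.trans e₀⟩
    rw [h1]
    exact TopologicalSpace.isOpen_generateFrom_of_mem ⟨φ, ψ, hle, rfl⟩

/-- the hull of an indecomposable module of finite length exists and is a point of the spectrum -/
theorem exists_point (k : Type u) [Field k] [Algebra k A] [IsNoetherianRing A]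
    (M : Type u) [AddCommGroup M] [Module A M]
    (hfl : IsFiniteLength A M) (hM : IsIndecomposable A M) :
    ∃ (N : IndecPureInjective A) (i : M →ₗ[A] N.carrier), IsPureInjectiveHull i := by
  obtain ⟨⟨N, i⟩, hi⟩ := exists_hull (R := A) k M
  simp only at i hi
  exact ⟨⟨N, hi.2.1, hull_indecomposable hfl hM i hi⟩, i, hi⟩

end Sl2

end Zg
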