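import Mathlib

/-!
# The Ziegler spectrum: definitions

Modules are left modules over a ring `R`; right modules over `S` are left modules over `Sᵐᵒᵖ`.
Everything lives in one universe `u`.
-/

namespace Zg

universe u

section Systems

variable {R : Type u} [Ring R]

/-- The finite system of linear equations `∑ i, B j i • z i = c j` (`j : Fin l`) with constants
`c j` in `Q` is solvable in the module `Q`. -/
def Solvable {m l : ℕ} (B : Fin l → Fin m → R) {Q : Type u} [AddCommGroup Q] [Module R Q]
    (c : Fin l → Q) : Prop :=
  ∃ z : Fin m → Q, ∀ j, ∑ i, B j i • z i = c j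

/-- A homomorphism `f : A → B` is a pure embedding if it is injective and every finite system of
linear equations with constants in `A` that is solvable in `B` is solvable in `A`. -/
def IsPureEmbedding {A B : Type u} [AddCommGroup A] [Module R A] [AddCommGroup B] [Module R B]
    (f : A →ₗ[R] B) : Prop :=
  Function.Injective f ∧
    ∀ (m l : ℕ) (r : Fin l → Fin m → R) (c : Fin l → A),
      Solvable r (fun j => f (c j)) → Solvable r c

variable (R)

/-- `P` is pure-injective: homomorphisms to `P` extend along pure embeddings. -/
def IsPureInjective (P : Type u) [AddCommGroup P] [Module R P] : Prop :=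
  ∀ (A B : Type u) [AddCommGroup A] [Module R A] [AddCommGroup B] [Module R B]
    (i : A →ₗ[R] B), IsPureEmbedding i → ∀ g : A →ₗ[R] P, ∃ h : B →ₗ[R] P, h ∘ₗ i = g

/-- A nonzero module which is not the direct sum of two nonzero submodules. -/
def IsIndecomposable (N : Type u) [AddCommGroup N] [Module R N] : Prop :=
  Nontrivial N ∧ ∀ N₁ N₂ : Submodule R N, IsCompl N₁ N₂ → N₁ = ⊥ ∨ N₂ = ⊥

/-- A pp formula in one free variable `v`: `∃ z, ⋀ j, ∑ i, B j i • z i = a j • v`. -/
structure PPFormula where
  /-- number of bound variables -/
  m : ℕ
  /-- number of equations -/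
  l : ℕ
  /-- coefficients of the bound variables -/
  B : Fin l → Fin m → R
  /-- coefficients of the free variable -/
  a : Fin l → R

variable {R}

/-- The solution set `φ(N)` of a pp formula in a module `N`. -/
def PPFormula.sol (φ : PPFormula R) (N : Type u) [AddCommGroup N] [Module R N] : Set N :=
  {v | Solvable φ.B (fun j => φ.a j • v)}

/-- `ψ ≤ φ`: the formula `ψ` implies `φ` in every module. -/
def PPFormula.Le (ψ φ : PPFormula R) : Prop :=
  ∀ (Q : Type u) [AddCommGroup Q] [Module R Q], ψ.sol Q ⊆ φ.sol Q

/-- `i : M → N` is a pure-injective hull (envelope) of `M`: a pure embedding into a pure-injective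
module `N` such that every endomorphism of `N` over `M` is an automorphism. -/
def IsPureInjectiveHull {M N : Type u} [AddCommGroup M] [Module R M] [AddCommGroup N]
    [Module R N] (i : M →ₗ[R] N) : Prop :=
  IsPureEmbedding i ∧ IsPureInjective R N ∧
    ∀ g : N →ₗ[R] N, g ∘ₗ i = i → Function.Bijective g

end Systems

section Spectrum

/-- an indecomposable pure-injective `R`-module -/
structure IndecPureInjective (R : Type u) [Ring R] where
  /-- the underlying type -/
  carrier : Type u
  [grp : AddCommGroup carrier]
  [mod : Module R carrier]
  pureInjective : IsPureInjective R carrier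
  indecomposable : IsIndecomposable R carrier

attribute [instance] IndecPureInjective.grp IndecPureInjective.mod

variable (R : Type u) [Ring R]

/-- isomorphism of indecomposable pure-injective modules -/
instance zieglerSetoid : Setoid (IndecPureInjective R) where
  r N N' := Nonempty (N.carrier ≃ₗ[R] N'.carrier)
  iseqv :=
    { refl := fun N => ⟨LinearEquiv.refl R N.carrier⟩
      symm := fun ⟨e⟩ => ⟨e.symm⟩
      trans := fun ⟨e⟩ ⟨e'⟩ => ⟨e.trans e'⟩ }

/-- The set of points of the Ziegler spectrum of `R`: isomorphism classes of indecomposable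
pure-injective `R`-modules. -/
def ZieglerSpectrum : Type (u + 1) := Quotient (zieglerSetoid R)

variable {R}

/-- the isomorphism class of `N`, a point of the Ziegler spectrum -/
def zgPoint (N : IndecPureInjective R) : ZieglerSpectrum R := Quotient.mk (zieglerSetoid R) N

/-- the basic set `(φ/ψ)`: the points `N` with `φ(N) ≠ ψ(N)` -/
def basicSet (φ ψ : PPFormula R) : Set (ZieglerSpectrum R) :=
  {x | ∃ N : IndecPureInjective R, zgPoint N = x ∧ φ.sol N.carrier ≠ ψ.sol N.carrier}

/-- the Ziegler topology, generated by the sets `(φ/ψ)` with `ψ ≤ φ` -/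
instance zieglerTopology : TopologicalSpace (ZieglerSpectrum R) :=
  TopologicalSpace.generateFrom {S | ∃ φ ψ : PPFormula R, ψ.Le φ ∧ S = basicSet φ ψ}

end Spectrum

end Zg
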