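import Pool.Agent.Helper462.Zg.Model

/-!
# The double dual of a module over an algebra is pure-injective
-/

namespace Zg

universe u

theorem exists_factor {k : Type*} [Field k] {V W : Type*} [AddCommGroup V] [Module k V]
    [AddCommGroup W] [Module k W] (T : V →ₗ[k] W) (C : V →ₗ[k] k)
    (h : ∀ x, T x = 0 → C x = 0) : ∃ Z : W →ₗ[k] k, ∀ x, Z (T x) = C x := by
  have hker : C ∈ (LinearMap.ker T).dualAnnihilator := by
    rw [Submodule.mem_dualAnnihilator]
    exact fun x hx => h x hx
  rw [← LinearMap.range_dualMap_eq_dualAnnihilator_ker] at hker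
  obtain ⟨Z, hZ⟩ := hker
  exact ⟨Z, fun x => LinearMap.congr_fun hZ x⟩

/-- double dual of a module over the `k`-algebra `R` -/
def DD (k : Type u) [Field k] (Y : Type u) [AddCommGroup Y] [Module k Y] : Type u :=
  Module.Dual k (Module.Dual k Y)

section

variable {k : Type u} [Field k] {R : Type u} [Ring R] [Algebra k R]
  {Y : Type u} [AddCommGroup Y] [Module k Y] [Module R Y] [IsScalarTower k R Y]

instance : AddCommGroup (DD k Y) :=
  inferInstanceAs (AddCommGroup (Module.Dual k (Module.Dual k Y)))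

/-- the underlying functional -/
def DD.ev (F : DD k Y) : Module.Dual k (Module.Dual k Y) := F

/-- construct an element of the double dual -/
def DD.mk (F : Module.Dual k (Module.Dual k Y)) : DD k Y := F

omit [Module R Y] [IsScalarTower k R Y] in
theorem DD.ext' {F G : DD k Y} (h : ∀ lam, F.ev lam = G.ev lam) : F = G :=
  LinearMap.ext h

omit [Module R Y] [IsScalarTower k R Y] in
theorem DD.ev_mk (F : Module.Dual k (Module.Dual k Y)) : (DD.mk F).ev = F := rfl

omit [Module R Y] [IsScalarTower k R Y] in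
theorem DD.ev_add (F G : DD k Y) : (F + G).ev = F.ev + G.ev := rfl

omit [Module R Y] [IsScalarTower k R Y] in
theorem DD.ev_zero : (0 : DD k Y).ev = 0 := rfl

omit [Module R Y] [IsScalarTower k R Y] in
theorem DD.ev_sum {ι : Type*} (s : Finset ι) (F : ι → DD k Y) :
    (∑ i ∈ s, F i).ev = ∑ i ∈ s, (F i).ev :=
  map_sum (⟨⟨DD.ev, rfl⟩, fun _ _ => rfl⟩ : DD k Y →+ Module.Dual k (Module.Dual k Y)) F s

/-- right action on the dual -/
def dact (r : R) : Module.Dual k Y →ₗ[k] Module.Dual k Y := (Algebra.lsmul k k Y r).dualMap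

theorem dact_apply (r : R) (lam : Module.Dual k Y) (y : Y) : dact r lam y = lam (r • y) := rfl

instance : Module R (DD k Y) where
  smul r F := DD.mk (F.ev ∘ₗ dact r)
  one_smul F := by
    refine DD.ext' fun lam => ?_
    change F.ev (dact (1 : R) lam) = _
    congr 1
    ext y
    simp [dact_apply]
  mul_smul r s F := by
    refine DD.ext' fun lam => ?_
    change F.ev (dact (r * s) lam) = F.ev (dact s (dact r lam))
    congr 1
    ext y
    simp [dact_apply, mul_smul]
  smul_zero r := rfl
  smul_add r F G := rfl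
  add_smul r s F := by
    refine DD.ext' fun lam => ?_
    change F.ev (dact (r + s) lam) = F.ev (dact r lam) + F.ev (dact s lam)
    rw [← map_add]
    congr 1
    ext y
    simp [dact_apply, add_smul]
  zero_smul F := by
    refine DD.ext' fun lam => ?_
    change F.ev (dact (0 : R) lam) = 0
    have : dact (0 : R) lam = 0 := by
      ext y
      simp [dact_apply]
    rw [this, map_zero]

theorem DD.ev_smul (r : R) (F : DD k Y) (lam : Module.Dual k Y) :
    (r • F).ev lam = F.ev (dact r lam) := rfl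

/-- the canonical map to the double dual -/
def kap : Y →ₗ[R] DD k Y where
  toFun y := DD.mk (Module.Dual.eval k Y y)
  map_add' x y := by
    refine DD.ext' fun lam => ?_
    simp [DD.ev_mk, DD.ev_add]
  map_smul' r y := by
    refine DD.ext' fun lam => ?_
    simp [DD.ev_mk, DD.ev_smul, dact_apply]

theorem kap_ev (y : Y) (lam : Module.Dual k Y) : (kap (k := k) (R := R) y).ev lam = lam y := rfl

/-- algebraic compactness of the double dual -/
theorem DD.compact {I J : Type u} (a : J → (I →₀ R)) (c : J → DD k Y)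
    (h : ∀ S : Finset J, ∃ z : I → DD k Y, ∀ j ∈ S, Finsupp.linearCombination R z (a j) = c j) :
    ∃ z : I → DD k Y, ∀ j, Finsupp.linearCombination R z (a j) = c j := by
  classical
  let T : (J →₀ Module.Dual k Y) →ₗ[k] (I →₀ Module.Dual k Y) :=
    Finsupp.lsum k (fun j => ∑ i ∈ (a j).support, (Finsupp.lsingle i) ∘ₗ dact (a j i))
  let C : (J →₀ Module.Dual k Y) →ₗ[k] k := Finsupp.lsum k (fun j => (c j).ev)
  have hlc : ∀ (z : I → DD k Y) (j : J) (lam : Module.Dual k Y),
      (Finsupp.linearCombination R z (a j)).ev lam =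
        ∑ i ∈ (a j).support, (z i).ev (dact (a j i) lam) := by
    intro z j lam
    rw [Finsupp.linearCombination_apply, Finsupp.sum, DD.ev_sum, LinearMap.sum_apply]
    rfl
  have hT : ∀ (Zf : (I →₀ Module.Dual k Y) →ₗ[k] k) (j : J) (lam : Module.Dual k Y),
      Zf (T (Finsupp.single j lam)) =
        ∑ i ∈ (a j).support, Zf (Finsupp.single i (dact (a j i) lam)) := by
    intro Zf j lam
    simp only [T, Finsupp.lsum_single, LinearMap.sum_apply, map_sum]
    rfl
  have hker : ∀ x, T x = 0 → C x = 0 := by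
    intro x hx
    obtain ⟨z, hz⟩ := h x.support
    let Zf : (I →₀ Module.Dual k Y) →ₗ[k] k := Finsupp.lsum k (fun i => (z i).ev)
    have h1 : C x = Zf (T x) := by
      conv_lhs => rw [← Finsupp.sum_single x]
      conv_rhs => rw [← Finsupp.sum_single x]
      simp only [Finsupp.sum, map_sum]
      refine Finset.sum_congr rfl fun j hj => ?_
      rw [hT]
      have h2 : C (Finsupp.single j (x j)) = (c j).ev (x j) := by simp [C]
      rw [h2, ← hz j hj, hlc]
      refine Finset.sum_congr rfl fun i _ => ?_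
      simp [Zf]
    rw [h1, hx, map_zero]
  obtain ⟨Z, hZ⟩ := exists_factor (V := J →₀ Module.Dual k Y) (W := I →₀ Module.Dual k Y)
    T C hker
  refine ⟨fun i => DD.mk (Z ∘ₗ Finsupp.lsingle i), fun j => ?_⟩
  refine DD.ext' fun lam => ?_
  rw [hlc]
  have h3 : Z (T (Finsupp.single j lam)) = (c j).ev lam := by
    rw [hZ]
    simp [C]
  rw [← h3, hT]
  rfl

end

section Pure

variable {R : Type u} [Ring R]

/-- purity for systems indexed by finite subsets of arbitrary types -/
theorem IsPureEmbedding.finset {A B : Type u} [AddCommGroup A] [Module R A] [AddCommGroup B]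
    [Module R B] {f : A →ₗ[R] B} (hf : IsPureEmbedding f) {I J : Type*} (S : Finset J)
    (a : J → (I →₀ R)) (c : J → A)
    (h : ∃ z : I → B, ∀ j ∈ S, Finsupp.linearCombination R z (a j) = f (c j)) :
    ∃ y : I → A, ∀ j ∈ S, Finsupp.linearCombination R y (a j) = c j := by
  classical
  obtain ⟨z, hz⟩ := h
  let F : Finset I := S.biUnion (fun j => (a j).support)
  let eF := F.equivFin
  let eS := S.equivFin
  have hsum : ∀ {Q : Type u} [AddCommGroup Q] [Module R Q] (w : I → Q) (j : J), j ∈ S →
      Finsupp.linearCombination R w (a j) =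
        ∑ n : Fin F.card, (a j) (eF.symm n) • w (eF.symm n) := by
    intro Q _ _ w j hj
    rw [Finsupp.linearCombination_apply]
    rw [Finsupp.sum_of_support_subset (a j) (s := F)
      (Finset.subset_biUnion_of_mem (fun j => (a j).support) hj) (fun i r => r • w i)
      (fun i _ => zero_smul _ _)]
    rw [← Finset.sum_coe_sort F (fun i => (a j) i • w i)]
    exact (Equiv.sum_comp eF.symm (fun i : F => (a j) i • w i)).symm
  have h1 : Solvable (fun (n : Fin S.card) (m : Fin F.card) => a (eS.symm n) (eF.symm m))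
      (fun n => f (c (eS.symm n))) := by
    refine ⟨fun m => z (eF.symm m), fun n => ?_⟩
    beta_reduce
    rw [← hz _ (eS.symm n).2, hsum z _ (eS.symm n).2]
  obtain ⟨w, hw⟩ := hf.2 _ _ _ _ h1
  refine ⟨fun i => if hi : i ∈ F then w (eF ⟨i, hi⟩) else 0, fun j hj => ?_⟩
  rw [hsum _ j hj]
  have h2 := hw (eS ⟨j, hj⟩)
  simp only [Equiv.symm_apply_apply] at h2
  rw [← h2]
  refine Finset.sum_congr rfl fun n _ => ?_
  congr 1
  have : (eF.symm n : I) ∈ F := (eF.symm n).2
  simp [this]

end Pure

section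

variable {k : Type u} [Field k] {R : Type u} [Ring R] [Algebra k R]
  {Y : Type u} [AddCommGroup Y] [Module k Y] [Module R Y] [IsScalarTower k R Y]

/-- the double dual is pure-injective -/
theorem DD.isPureInjective : IsPureInjective R (DD k Y) := by
  classical
  intro A B _ _ _ _ i hi g
  let J := ((B × B) ⊕ (R × B)) ⊕ A
  let a : J → (B →₀ R) := fun j => match j with
    | Sum.inl (Sum.inl (b, b')) => Finsupp.single (b + b') 1 - Finsupp.single b 1 -
        Finsupp.single b' 1
    | Sum.inl (Sum.inr (r, b)) => Finsupp.single (r • b) 1 - Finsupp.single b r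
    | Sum.inr x => Finsupp.single (i x) 1
  let cA : J → A := fun j => match j with
    | Sum.inl _ => 0
    | Sum.inr x => x
  have hB : ∀ j, Finsupp.linearCombination R (fun b : B => b) (a j) = i (cA j) := by
    rintro ((⟨b, b'⟩ | ⟨r, b⟩) | x)
    · simp [a, cA]
    · simp [a, cA]
    · simp [a, cA]
  have hfin : ∀ S : Finset J, ∃ z : B → DD k Y, ∀ j ∈ S,
      Finsupp.linearCombination R z (a j) = g (cA j) := by
    intro S
    obtain ⟨y, hy⟩ := hi.finset S a cA ⟨fun b => b, fun j _ => hB j⟩
    refine ⟨fun b => g (y b), fun j hj => ?_⟩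
    rw [← hy j hj]
    simp [Finsupp.linearCombination_apply, Finsupp.sum, map_sum]
  obtain ⟨z, hz⟩ := DD.compact a (fun j => g (cA j)) hfin
  refine ⟨{ toFun := z, map_add' := fun b b' => ?_, map_smul' := fun r b => ?_ }, ?_⟩
  · have := hz (Sum.inl (Sum.inl (b, b')))
    simp only [a, cA, map_sub, Finsupp.linearCombination_single, one_smul, map_zero] at this
    rw [sub_sub, sub_eq_zero] at this
    exact this
  · have := hz (Sum.inl (Sum.inr (r, b)))
    simp only [a, cA, map_sub, Finsupp.linearCombination_single, one_smul, map_zero] at this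
    rw [sub_eq_zero] at this
    exact this
  · ext1 x
    have := hz (Sum.inr x)
    simp only [a, cA, Finsupp.linearCombination_single, one_smul] at this
    exact this

/-- functional criterion for solvability in `Y`: sufficient direction -/
theorem solvable_of_functional {m l : ℕ} (B : Fin l → Fin m → R) (c : Fin l → Y)
    (h : ∀ ρ : Fin l → Module.Dual k Y, (∀ i, ∑ j, dact (B j i) (ρ j) = 0) →
      ∑ j, ρ j (c j) = 0) : Solvable B c := by
  classical
  let L : (Fin m → Y) →ₗ[k] (Fin l → Y) :=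
    LinearMap.pi (fun j => ∑ i, (Algebra.lsmul k k Y (B j i)) ∘ₗ LinearMap.proj i)
  have hL : ∀ z j, L z j = ∑ i, B j i • z i := by
    intro z j
    simp [L]
  by_contra hcon
  have hc : c ∉ LinearMap.range L := by
    rintro ⟨z, hz⟩
    exact hcon ⟨z, fun j => by rw [← hL, hz]⟩
  obtain ⟨σ, hσ, hσ'⟩ := Submodule.exists_le_ker_of_notMem hc
  refine hσ ?_
  have h1 := h (fun j => σ ∘ₗ LinearMap.single k (fun _ => Y) j) (fun i => ?_)
  · rw [← h1]
    conv_lhs => rw [← LinearMap.sum_single_apply (fun _ => Y) (v := c)]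
    rw [map_sum]
    rfl
  · ext y
    have h2 : σ (L (Pi.single i y)) = 0 := by
      have : L (Pi.single i y) ∈ LinearMap.range L := ⟨_, rfl⟩
      exact LinearMap.mem_ker.1 (hσ' this)
    rw [LinearMap.sum_apply]
    simp only [dact_apply, LinearMap.comp_apply, LinearMap.zero_apply]
    rw [← h2, ← map_sum]
    congr 1
    ext j
    rw [hL]
    simp [Pi.single_apply]

/-- functional criterion for solvability in the double dual: sufficient direction -/
theorem DD.solvable_of_functional {m l : ℕ} (B : Fin l → Fin m → R) (c : Fin l → DD k Y)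
    (h : ∀ ρ : Fin l → Module.Dual k Y, (∀ i, ∑ j, dact (B j i) (ρ j) = 0) →
      ∑ j, (c j).ev (ρ j) = 0) : Solvable B c := by
  classical
  let T : (Fin l → Module.Dual k Y) →ₗ[k] (Fin m → Module.Dual k Y) :=
    LinearMap.pi (fun i => ∑ j, (dact (B j i)) ∘ₗ LinearMap.proj j)
  have hT : ∀ ρ i, T ρ i = ∑ j, dact (B j i) (ρ j) := by
    intro ρ i
    simp [T]
  let C : (Fin l → Module.Dual k Y) →ₗ[k] k := ∑ j, (c j).ev ∘ₗ LinearMap.proj j
  have hC : ∀ ρ, C ρ = ∑ j, (c j).ev (ρ j) := by
    intro ρ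
    simp [C]
  have hker : C ∈ (LinearMap.ker T).dualAnnihilator := by
    rw [Submodule.mem_dualAnnihilator]
    intro ρ hρ
    rw [hC]
    refine h ρ (fun i => ?_)
    rw [← hT, LinearMap.mem_ker.1 hρ]
    rfl
  rw [← LinearMap.range_dualMap_eq_dualAnnihilator_ker] at hker
  obtain ⟨Z, hZ⟩ := hker
  refine ⟨fun i => DD.mk (Z ∘ₗ LinearMap.single k (fun _ => Module.Dual k Y) i), fun j => ?_⟩
  refine DD.ext' fun lam => ?_
  have h3 : Z (T (Pi.single j lam)) = (c j).ev lam := by
    have := LinearMap.congr_fun hZ (Pi.single j lam)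
    rw [LinearMap.dualMap_apply] at this
    rw [this, hC]
    rw [Finset.sum_eq_single j]
    · simp
    · intro b _ hb
      simp [hb]
    · simp
  rw [← h3, DD.ev_sum, LinearMap.sum_apply]
  conv_rhs => rw [← LinearMap.sum_single_apply (fun _ => Module.Dual k Y)
    (v := T (Pi.single j lam))]
  rw [map_sum]
  refine Finset.sum_congr rfl fun i _ => ?_
  rw [DD.ev_smul, DD.ev_mk, LinearMap.comp_apply]
  congr 2
  rw [hT]
  rw [Finset.sum_eq_single j]
  · simp
  · intro b _ hb
    simp [hb]
  · simp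

theorem functional_of_solvable {m l : ℕ} (B : Fin l → Fin m → R) (c : Fin l → Y)
    (h : Solvable B c) (ρ : Fin l → Module.Dual k Y) (hρ : ∀ i, ∑ j, dact (B j i) (ρ j) = 0) :
    ∑ j, ρ j (c j) = 0 := by
  obtain ⟨z, hz⟩ := h
  simp only [← hz, map_sum]
  rw [Finset.sum_comm]
  refine Finset.sum_eq_zero fun i _ => ?_
  have := LinearMap.congr_fun (hρ i) (z i)
  rw [LinearMap.sum_apply] at this
  exact this

theorem DD.functional_of_solvable {m l : ℕ} (B : Fin l → Fin m → R) (c : Fin l → DD k Y)
    (h : Solvable B c) (ρ : Fin l → Module.Dual k Y) (hρ : ∀ i, ∑ j, dact (B j i) (ρ j) = 0) :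
    ∑ j, (c j).ev (ρ j) = 0 := by
  obtain ⟨z, hz⟩ := h
  have h1 : ∀ j, (c j).ev (ρ j) = ∑ i, (z i).ev (dact (B j i) (ρ j)) := by
    intro j
    rw [← hz j, DD.ev_sum, LinearMap.sum_apply]
    rfl
  simp only [h1]
  rw [Finset.sum_comm]
  refine Finset.sum_eq_zero fun i _ => ?_
  rw [← map_sum, hρ i, map_zero]

theorem kap_isPureEmbedding : IsPureEmbedding (kap : Y →ₗ[R] DD k Y) := by
  have hsys : ∀ (m l : ℕ) (r : Fin l → Fin m → R) (c : Fin l → Y),
      Solvable r (fun j => (kap (k := k) (R := R) (Y := Y) (c j) : DD k Y)) →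
        Solvable r c := by
    intro m l r c h
    refine solvable_of_functional (k := k) r c (fun ρ hρ => ?_)
    exact DD.functional_of_solvable r _ h ρ hρ
  refine ⟨?_, hsys⟩
  rw [injective_iff_map_eq_zero]
  intro a ha
  obtain ⟨z, hz⟩ := hsys 0 1 (fun _ i => i.elim0) (fun _ => a)
    ⟨fun i => i.elim0, fun j => by simp [ha]⟩
  simpa using (hz 0).symm

/-- implications between pp formulas pass to the double dual -/
theorem DD.sol_subset (φ ψ : PPFormula R) (h : φ.sol Y ⊆ ψ.sol Y) :
    φ.sol (DD k Y) ⊆ ψ.sol (DD k Y) := by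
  classical
  intro F hF
  refine DD.solvable_of_functional _ _ (fun ρ hρ => ?_)
  let lam : Module.Dual k Y := ∑ j, dact (ψ.a j) (ρ j)
  have hlam : ∀ v ∈ ψ.sol Y, lam v = 0 := by
    intro v hv
    have := Zg.functional_of_solvable (k := k) ψ.B (fun j => ψ.a j • v) hv ρ hρ
    simpa [lam, dact_apply] using this
  -- the map (v, z) ↦ B z - a v
  let T : (Y × (Fin φ.m → Y)) →ₗ[k] (Fin φ.l → Y) :=
    LinearMap.pi (fun j => (∑ i, (Algebra.lsmul k k Y (φ.B j i)) ∘ₗ LinearMap.proj i ∘ₗ
      LinearMap.snd k Y (Fin φ.m → Y)) - (Algebra.lsmul k k Y (φ.a j)) ∘ₗ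
        LinearMap.fst k Y (Fin φ.m → Y))
  have hT : ∀ v z j, T (v, z) j = ∑ i, φ.B j i • z i - φ.a j • v := by
    intro v z j
    simp [T]
  have hker : lam ∘ₗ LinearMap.fst k Y (Fin φ.m → Y) ∈ (LinearMap.ker T).dualAnnihilator := by
    rw [Submodule.mem_dualAnnihilator]
    rintro ⟨v, z⟩ hvz
    refine hlam v (h ⟨z, fun j => ?_⟩)
    have h1 : T (v, z) j = 0 := by rw [LinearMap.mem_ker.1 hvz]; rfl
    rw [hT] at h1
    exact sub_eq_zero.1 h1
  rw [← LinearMap.range_dualMap_eq_dualAnnihilator_ker] at hker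
  obtain ⟨σ, hσ⟩ := hker
  let sg : Fin φ.l → Module.Dual k Y := fun j => σ ∘ₗ LinearMap.single k (fun _ => Y) j
  have hσsum : ∀ w : Fin φ.l → Y, σ w = ∑ j, sg j (w j) := by
    intro w
    conv_lhs => rw [← LinearMap.sum_single_apply (fun _ => Y) (v := w)]
    rw [map_sum]
    rfl
  have hvz : ∀ v z, lam v = σ (T (v, z)) := by
    intro v z
    have := LinearMap.congr_fun hσ (v, z)
    rw [LinearMap.dualMap_apply] at this
    rw [this]
    rfl
  have h0 : ∀ i, ∑ j, dact (φ.B j i) (sg j) = 0 := by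
    intro i
    ext y
    have h1 := hvz 0 (Pi.single i y)
    rw [map_zero, hσsum] at h1
    rw [LinearMap.sum_apply, LinearMap.zero_apply, h1]
    refine Finset.sum_congr rfl fun j _ => ?_
    rw [hT, dact_apply]
    congr 1
    simp [Pi.single_apply]
  have hlam' : lam = - ∑ j, dact (φ.a j) (sg j) := by
    ext v
    rw [hvz v 0, hσsum, LinearMap.neg_apply, LinearMap.sum_apply, ← Finset.sum_neg_distrib]
    refine Finset.sum_congr rfl fun j _ => ?_
    rw [hT, dact_apply, ← map_neg]
    congr 1
    simp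
  have h2 := DD.functional_of_solvable _ _ hF sg h0
  have h3 : ∑ j, (ψ.a j • F).ev (ρ j) = F.ev lam := by
    simp [lam, DD.ev_smul]
  rw [h3, hlam', map_neg, map_sum, neg_eq_zero]
  exact h2

end

end Zg
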