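import Pool.Agent.Helper462.Zg.Sl2Def

namespace Zg

universe u


theorem eps_h {k : Type u} [Field k] {A : Type u}
    [Ring A] [Algebra k A] {e f h : A} (H : Sl2Gen k e f h)
    (M : Type u) [AddCommGroup M] [Module A M] (μ : k) (n : ℕ) :
    ∀ w : M, (e - algebraMap k A μ) ^ n • w = 0 →
      (e - algebraMap k A μ) ^ (n + 1) • (h • w) = 0 := by
  induction n with
  | zero =>
    intro w hw
    rw [pow_zero, one_smul] at hw
    rw [hw, smul_zero, smul_zero]
  | succ n ih =>
    intro w hw
    have e1 : (e - algebraMap k A μ) * h = h * (e - algebraMap k A μ) - 2 * e := by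
      rw [sub_mul, mul_sub, ← Algebra.commutes μ h, ← H.he]
      abel
    have e2 : (e - algebraMap k A μ) ^ (n + 1) * (2 * e) = (2 * e) * (e - algebraMap k A μ) ^ (n + 1) := by
      have hc : Commute (e - algebraMap k A μ) (2 * e) := by
        have h1 : Commute (e - algebraMap k A μ) e :=
          (Commute.refl e).sub_left (Algebra.commutes μ e)
        have h2 : Commute (e - algebraMap k A μ) 2 := Commute.ofNat_right _ 2
        exact h2.mul_right h1
      exact (hc.pow_left (n + 1)).eq
    have h3 : (e - algebraMap k A μ) ^ n • ((e - algebraMap k A μ) • w) = 0 := by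
      rw [← mul_smul, ← pow_succ]; exact hw
    have h4 := ih _ h3
    rw [pow_succ, mul_smul, ← mul_smul _ h w, e1, sub_smul, smul_sub, mul_smul h, h4, zero_sub,
      ← mul_smul, e2, mul_smul, hw, smul_zero, neg_zero]

theorem eps_f {k : Type u} [Field k] {A : Type u}
    [Ring A] [Algebra k A] {e f h : A} (H : Sl2Gen k e f h)
    (M : Type u) [AddCommGroup M] [Module A M] (μ : k) (n : ℕ) :
    ∀ w : M, (e - algebraMap k A μ) ^ n • w = 0 →
      (e - algebraMap k A μ) ^ (n + 2) • (f • w) = 0 := by
  induction n with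
  | zero =>
    intro w hw
    rw [pow_zero, one_smul] at hw
    rw [hw, smul_zero, smul_zero]
  | succ n ih =>
    intro w hw
    have e1 : (e - algebraMap k A μ) * f = f * (e - algebraMap k A μ) + h := by
      rw [sub_mul, mul_sub, ← Algebra.commutes μ f, ← H.ef]
      abel
    have h3 : (e - algebraMap k A μ) ^ n • ((e - algebraMap k A μ) • w) = 0 := by
      rw [← mul_smul, ← pow_succ]; exact hw
    have h4 := ih _ h3
    have h5 := eps_h H M μ (n + 1) w hw
    rw [show n + 1 + 2 = (n + 2) + 1 from rfl, pow_succ, mul_smul, ← mul_smul _ f w, e1, add_smul,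
      smul_add, mul_smul f, h4, zero_add]
    exact h5

theorem Sl2Gen.finite_eigen {k : Type u} [Field k] {A : Type u}
    [Ring A] [Algebra k A] {e f h : A} (H : Sl2Gen k e f h)
    (M : Type u) [AddCommGroup M] [Module k M] [Module A M] [IsScalarTower k A M]
    [IsNoetherian A M] : {μ : k | ∃ w : M, w ≠ 0 ∧ e • w = μ • w}.Finite := by
  set T : Module.End k M := Algebra.lsmul k k M e with hT
  have hG : ∀ (μ : k) (w : M), w ∈ T.maxGenEigenspace μ ↔
      ∃ n : ℕ, (e - algebraMap k A μ) ^ n • w = 0 := by
    intro μ w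
    rw [Module.End.mem_maxGenEigenspace]
    have h1 : T - μ • 1 = Algebra.lsmul k k M (e - algebraMap k A μ) := by
      rw [map_sub, hT]
      congr 1
      ext x
      simp
    simp only [h1, ← map_pow]
    rfl
  have hstab : ∀ (μ : k) (a : A) (w : M), w ∈ T.maxGenEigenspace μ → a • w ∈ T.maxGenEigenspace μ := by
    intro μ a
    have ha : a ∈ Algebra.adjoin k {e, f, h} := by rw [H.gen]; trivial
    induction ha using Algebra.adjoin_induction with
    | mem x hx =>
      intro w hw
      rw [hG] at hw ⊢
      obtain ⟨n, hn⟩ := hw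
      simp only [Set.mem_insert_iff, Set.mem_singleton_iff] at hx
      rcases hx with rfl | rfl | rfl
      · refine ⟨n, ?_⟩
        have h1 : Commute (x - algebraMap k A μ) x :=
          (Commute.refl x).sub_left (Algebra.commutes μ x)
        rw [← mul_smul, (h1.pow_left n).eq, mul_smul, hn, smul_zero]
      · exact ⟨n + 2, eps_f H M μ n w hn⟩
      · exact ⟨n + 1, eps_h H M μ n w hn⟩
    | algebraMap r =>
      intro w hw
      rw [algebraMap_smul]
      exact Submodule.smul_mem _ _ hw
    | add x y _ _ hx hy =>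
      intro w hw
      rw [add_smul]
      exact Submodule.add_mem _ (hx w hw) (hy w hw)
    | mul x y _ _ hx hy =>
      intro w hw
      rw [mul_smul]
      exact hx _ (hy w hw)
  by_contra hinf
  have hinf' : {μ : k | ∃ w : M, w ≠ 0 ∧ e • w = μ • w}.Infinite := hinf
  let ν := hinf'.natEmbedding
  have hν : ∀ n, ∃ w : M, w ≠ 0 ∧ e • w = (ν n : k) • w := fun n => (ν n).2
  choose w hw0 hw using hν
  have hwG : ∀ n, w n ∈ T.maxGenEigenspace (ν n : k) := by
    intro n
    rw [hG]
    refine ⟨1, ?_⟩
    rw [pow_one, sub_smul, hw n, algebraMap_smul, sub_self]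
  let N : ℕ →o Submodule A M := ⟨fun n => Submodule.span A (w '' {i | i < n}), by
    intro a b hab
    apply Submodule.span_mono
    apply Set.image_mono
    intro i hi
    exact lt_of_lt_of_le hi hab⟩
  obtain ⟨n, hn⟩ := (monotone_stabilizes_iff_noetherian (R := A) (M := M)).2 inferInstance N
  have hmem : w n ∈ N n := by
    rw [hn (n + 1) (Nat.le_succ n)]
    exact Submodule.subset_span ⟨n, Nat.lt_succ_self n, rfl⟩
  have hsub : ∀ x ∈ N n, x ∈ ⨆ (μ : k) (_ : μ ≠ (ν n : k)), T.maxGenEigenspace μ := by
    intro x hx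
    refine Submodule.span_induction ?_ ?_ ?_ ?_ hx
    · rintro _ ⟨i, hi, rfl⟩
      have hne : (ν i : k) ≠ (ν n : k) := by
        intro h
        have := ν.injective (Subtype.ext h)
        exact absurd this (ne_of_lt hi)
      exact Submodule.mem_iSup_of_mem (ν i : k) (Submodule.mem_iSup_of_mem hne (hwG i))
    · exact Submodule.zero_mem _
    · intro x y _ _ hx hy
      exact Submodule.add_mem _ hx hy
    · intro a x _ hx
      have hle : (⨆ (μ : k) (_ : μ ≠ (ν n : k)), T.maxGenEigenspace μ).map (Algebra.lsmul k k M a) ≤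
          ⨆ (μ : k) (_ : μ ≠ (ν n : k)), T.maxGenEigenspace μ := by
        rw [Submodule.map_iSup]
        apply iSup_mono
        intro μ
        rw [Submodule.map_iSup]
        apply iSup_mono
        intro _
        rintro _ ⟨y, hy, rfl⟩
        exact hstab μ a y hy
      exact hle ⟨x, hx, rfl⟩
  have hdis := Module.End.independent_maxGenEigenspace T (ν n : k)
  have := Submodule.disjoint_def.1 hdis (w n) (hwG n) (hsub _ hmem)
  exact hw0 n this

end Zg
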