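import Pool.Agent.Helper462.Zg.Dual

/-!
# Existence of indecomposable pure-injectives, hulls, and transfer to the hull
-/

namespace Zg

universe u

section Retract

variable {R : Type u} [Ring R] {P W : Type u} [AddCommGroup P] [Module R P] [AddCommGroup W]
  [Module R W]

theorem IsPureInjective.retract (hP : IsPureInjective R P) (s : W →ₗ[R] P) (r : P →ₗ[R] W)
    (h : r ∘ₗ s = LinearMap.id) : IsPureInjective R W := by
  intro A B _ _ _ _ i hi g
  obtain ⟨f, hf⟩ := hP A B i hi (s ∘ₗ g)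
  refine ⟨r ∘ₗ f, ?_⟩
  rw [LinearMap.comp_assoc, hf, ← LinearMap.comp_assoc, h, LinearMap.id_comp]

theorem mem_sol_map (φ : PPFormula R) (f : P →ₗ[R] W) {v : P} (hv : v ∈ φ.sol P) :
    f v ∈ φ.sol W := by
  have h := Solvable.map hv f
  change Solvable φ.B (fun j => φ.a j • f v)
  simpa using h

end Retract

section

variable {k : Type u} [Field k] {R : Type u} [Ring R] [Algebra k R]

/-- restriction of scalars along `k → R` -/
abbrev kmod (k : Type u) [Field k] (R : Type u) [Ring R] [Algebra k R] (Q : Type u)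
    [AddCommGroup Q] [Module R Q] : Module k Q := Module.compHom Q (algebraMap k R)

theorem kmod_tower (Q : Type u) [AddCommGroup Q] [Module R Q] :
    letI := kmod k R Q
    IsScalarTower k R Q := by
  let _ := kmod k R Q
  refine ⟨fun c r q => ?_⟩
  rw [Algebra.smul_def, mul_smul]
  rfl

/-- every module purely embeds in a pure-injective module satisfying the same pp implications -/
theorem exists_pureInjective (k : Type u) [Field k] [Algebra k R] (Q : Type u) [AddCommGroup Q]
    [Module R Q] :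
    ∃ F : HomFrom R Q, IsPureEmbedding F.g ∧ IsPureInjective R F.Q ∧
      ∀ φ ψ : PPFormula R, φ.sol Q ⊆ ψ.sol Q → φ.sol F.Q ⊆ ψ.sol F.Q := by
  let _ := kmod k R Q
  have := kmod_tower (k := k) (R := R) Q
  exact ⟨⟨DD k Q, kap⟩, kap_isPureEmbedding, DD.isPureInjective, DD.sol_subset⟩

/-- **Existence of indecomposable pure-injectives** (Ziegler). -/
theorem exists_indecomposable (k : Type u) [Field k] [Algebra k R] {Y : Type u} [AddCommGroup Y]
    [Module R Y] (χ₀ : Sys R Y) (hχ₀ : ¬ Solvable χ₀.B χ₀.c) :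
    ∃ F : HomFrom R Y, IsPureInjective R F.Q ∧ IsIndecomposable R F.Q ∧
      ¬ Solvable χ₀.B (fun j => F.g (χ₀.c j)) := by
  classical
  obtain ⟨F, hF, -, hFmax⟩ := exists_maximal_hom {χ₀} (LinearMap.id : Y →ₗ[R] Y)
    (by rintro χ rfl h; exact hχ₀ h)
  obtain ⟨⟨P, κ⟩, hκ, hP, -⟩ := exists_pureInjective (R := R) k F.Q
  simp only at κ hκ hP
  let f : Y →ₗ[R] P := κ ∘ₗ F.g
  let χ₁ : Sys R P := ⟨χ₀.m, χ₀.l, χ₀.B, fun j => f (χ₀.c j)⟩
  have hΦ : Avoids {χ₁} (LinearMap.id : P →ₗ[R] P) := by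
    rintro χ rfl h
    exact hF χ₀ rfl (hκ.2 _ _ _ _ h)
  have hsmall : Small {χ₁} (LinearMap.range f) := by
    intro Q' _ _ h hh χ hχ hD
    choose y hy using hχ
    let χ' : Sys R Y := ⟨χ.m, χ.l, χ.B, y⟩
    have h1 : χ' ∈ Delta (h ∘ₗ f) := by
      obtain ⟨z, hz⟩ := hD
      refine ⟨z, fun j => ?_⟩
      change _ = h (f (y j))
      rw [hy j]
      exact hz j
    have h2 : Avoids {χ₀} (h ∘ₗ f) := by
      rintro χ rfl h
      exact hh χ₁ rfl h
    have h3 : χ' ∈ Delta F.g := hFmax Q' (h ∘ₗ f) h2 (Delta_mono F.g (h ∘ₗ κ)) h1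
    obtain ⟨z, hz⟩ := Delta_mono F.g κ h3
    refine ⟨z, fun j => ?_⟩
    change _ = χ.c j
    rw [← hy j]
    exact hz j
  obtain ⟨W, hW0, hW, hmax⟩ := exists_maximal_small {χ₁} (LinearMap.range f) hsmall
  have hcW : ∀ j, f (χ₀.c j) ∈ W := fun j => hW0 ⟨_, rfl⟩
  obtain ⟨g, hg, hgr⟩ := exists_retraction hP {χ₁} hΦ W hW hmax (by
    rintro χ rfl j
    exact hcW j)
  let r : P →ₗ[R] W := LinearMap.codRestrict W g (fun x => by rw [← hgr]; exact ⟨x, rfl⟩)
  have hr : r ∘ₗ W.subtype = LinearMap.id := by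
    ext w
    exact hg w w.2
  have hrW : ∀ w : W, r w = w := fun w => LinearMap.congr_fun hr w
  have hzero : ∀ (h : P →ₗ[R] P), Avoids {χ₁} h → ∀ w ∈ W, h w = 0 → w = 0 := by
    intro h hh w hw h0
    obtain ⟨z, hz⟩ := hW P h hh ⟨0, 1, fun _ i => i.elim0, fun _ => w⟩ (fun _ => hw)
      ⟨fun i => i.elim0, fun j => by simp [h0]⟩
    simpa using (hz 0).symm
  refine ⟨⟨W, r ∘ₗ f⟩, hP.retract W.subtype r hr, ⟨?_, ?_⟩, ?_⟩
  · by_contra hnt
    rw [not_nontrivial_iff_subsingleton] at hnt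
    refine hΦ χ₁ rfl ⟨fun _ => 0, fun j => ?_⟩
    have : (⟨f (χ₀.c j), hcW j⟩ : W) = 0 := Subsingleton.elim _ _
    have h2 : f (χ₀.c j) = 0 := congrArg Subtype.val this
    simp [χ₁, h2]
  · intro N₁ N₂ hN
    let p₁ : W →ₗ[R] W := N₁.subtype ∘ₗ N₁.projectionOnto N₂ hN
    let p₂ : W →ₗ[R] W := N₂.subtype ∘ₗ N₂.projectionOnto N₁ hN.symm
    have hsum : ∀ w : W, p₁ w + p₂ w = w := by
      intro w
      have := LinearMap.congr_fun (Submodule.projection_add_projection_eq_id hN) w
      simpa [p₁, p₂] using this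
    let h₁ : P →ₗ[R] P := W.subtype ∘ₗ p₁ ∘ₗ r
    let h₂ : P →ₗ[R] P := W.subtype ∘ₗ p₂ ∘ₗ r
    have hh : ∀ w ∈ W, h₁ w + h₂ w = w := by
      intro w hw
      have h1 : r w = ⟨w, hw⟩ := hrW ⟨w, hw⟩
      have h2 := hsum ⟨w, hw⟩
      have h3 := congrArg Subtype.val h2
      simpa [h₁, h₂, h1] using h3
    by_cases h1 : χ₁ ∈ Delta h₁
    · by_cases h2 : χ₁ ∈ Delta h₂
      · exfalso
        refine hΦ χ₁ rfl ?_
        have h3 := Solvable.add h1 h2
        have h4 : (fun j => h₁ (χ₁.c j) + h₂ (χ₁.c j)) =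
            fun j => (LinearMap.id : P →ₗ[R] P) (χ₁.c j) := by
          funext j
          exact hh _ (hcW j)
        rw [h4] at h3
        exact h3
      · left
        rw [Submodule.eq_bot_iff]
        intro x hx
        have h3 : p₂ x = 0 := by
          change ((N₂.projectionOnto N₁ hN.symm x : N₂) : W) = 0
          rw [(Submodule.projectionOnto_apply_eq_zero_iff hN.symm).2 hx]
          rfl
        have h4 : h₂ (x : P) = 0 := by
          change ((p₂ (r (x : P)) : W) : P) = 0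
          rw [hrW x, h3]
          rfl
        have := hzero h₂ (by rintro χ rfl; exact h2) x x.2 h4
        exact Subtype.ext this
    · right
      rw [Submodule.eq_bot_iff]
      intro x hx
      have h3 : p₁ x = 0 := by
        change ((N₁.projectionOnto N₂ hN x : N₁) : W) = 0
        rw [(Submodule.projectionOnto_apply_eq_zero_iff hN).2 hx]
        rfl
      have h4 : h₁ (x : P) = 0 := by
        change ((p₁ (r (x : P)) : W) : P) = 0
        rw [hrW x, h3]
        rfl
      have := hzero h₁ (by rintro χ rfl; exact h1) x x.2 h4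
      exact Subtype.ext this
  · intro hcon
    refine hΦ χ₁ rfl ?_
    have h1 := Solvable.map hcon W.subtype
    have h2 : (fun j => W.subtype ((r ∘ₗ f) (χ₀.c j))) =
        fun j => (LinearMap.id : P →ₗ[R] P) (χ₁.c j) := by
      funext j
      exact hg _ (hcW j)
    rw [h2] at h1
    exact h1

/-- pp implications valid in `M` are valid in a pure-injective hull of `M` -/
theorem sol_subset_of_hull (k : Type u) [Field k] [Algebra k R] {M N : Type u} [AddCommGroup M]
    [Module R M] [AddCommGroup N] [Module R N] (i : M →ₗ[R] N) (hi : IsPureInjectiveHull i)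
    (φ ψ : PPFormula R) (h : φ.sol M ⊆ ψ.sol M) : φ.sol N ⊆ ψ.sol N := by
  obtain ⟨⟨P, κ⟩, hκ, hP, hPP⟩ := exists_pureInjective (R := R) k M
  simp only at κ hκ hP hPP
  obtain ⟨hi1, hN, hmin⟩ := hi
  obtain ⟨α, hα⟩ := hP M N i hi1 κ
  obtain ⟨β, hβ⟩ := hN M P κ hκ i
  have hba : Function.Bijective (β ∘ₗ α) := by
    refine hmin (β ∘ₗ α) ?_
    rw [LinearMap.comp_assoc, hα, hβ]
  intro v hv
  let e := LinearEquiv.ofBijective (β ∘ₗ α) hba
  have h1 : (β ∘ₗ α) v ∈ ψ.sol N := mem_sol_map ψ β (hPP φ ψ h (mem_sol_map φ α hv))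
  have h2 := mem_sol_map ψ (e.symm : N →ₗ[R] N) h1
  have h3 : (e.symm : N →ₗ[R] N) ((β ∘ₗ α) v) = v := e.symm_apply_apply v
  rwa [h3] at h2

/-- **Existence of pure-injective hulls** (Warfield). -/
theorem exists_hull (k : Type u) [Field k] [Algebra k R] (M : Type u) [AddCommGroup M]
    [Module R M] : ∃ F : HomFrom R M, IsPureInjectiveHull F.g := by
  classical
  obtain ⟨⟨P, κ⟩, hκ, hP, -⟩ := exists_pureInjective (R := R) k M
  simp only at κ hκ hP
  let Φ : Set (Sys R P) := {χ | (∀ j, χ.c j ∈ LinearMap.range κ) ∧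
    χ ∉ Delta (LinearMap.id : P →ₗ[R] P)}
  have hΦ : Avoids Φ (LinearMap.id : P →ₗ[R] P) := fun χ hχ => hχ.2
  have hsmall : Small Φ (LinearMap.range κ) := by
    intro Q' _ _ h hh χ hχ hD
    by_contra hcon
    exact hh χ ⟨hχ, hcon⟩ hD
  obtain ⟨W, hW0, hW, hmax⟩ := exists_maximal_small Φ (LinearMap.range κ) hsmall
  obtain ⟨g, hg, hgr⟩ := exists_retraction hP Φ hΦ W hW hmax (fun χ hχ j => hW0 (hχ.1 j))
  let r : P →ₗ[R] W := LinearMap.codRestrict W g (fun x => by rw [← hgr]; exact ⟨x, rfl⟩)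
  have hr : r ∘ₗ W.subtype = LinearMap.id := by
    ext w
    exact hg w w.2
  have hrW : ∀ w : W, r w = w := fun w => LinearMap.congr_fun hr w
  have hWinj : IsPureInjective R W := hP.retract W.subtype r hr
  have hiW : ∀ x : M, κ x ∈ W := fun x => hW0 ⟨x, rfl⟩
  let i : M →ₗ[R] W := LinearMap.codRestrict W κ hiW
  have hi : IsPureEmbedding i := by
    refine ⟨fun x y hxy => hκ.1 (congrArg Subtype.val hxy), fun m l s c h => ?_⟩
    exact hκ.2 m l s c (Solvable.map h W.subtype)
  -- homomorphisms fixing the image of `M` are pure embeddings on `W`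
  have hpure : ∀ q : W →ₗ[R] W, q ∘ₗ i = i → IsPureEmbedding q := by
    intro q hq
    have hqi : ∀ x : M, q (i x) = i x := fun x => LinearMap.congr_fun hq x
    let h : P →ₗ[R] P := W.subtype ∘ₗ q ∘ₗ r
    have hfix : ∀ p ∈ LinearMap.range κ, h p = p := by
      rintro p ⟨x, rfl⟩
      have h1 : r (κ x) = i x := hrW (i x)
      change ((q (r (κ x)) : W) : P) = κ x
      rw [h1, hqi]
      rfl
    have hav : Avoids Φ h := by
      intro χ hχ hD
      refine hχ.2 ?_
      obtain ⟨z, hz⟩ := hD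
      refine ⟨z, fun j => ?_⟩
      rw [hz j]
      exact hfix _ (hχ.1 j)
    have hsys : ∀ (m l : ℕ) (s : Fin l → Fin m → R) (c : Fin l → W),
        Solvable s (fun j => q (c j)) → Solvable s c := by
      intro m l s c hs
      have h1 : (⟨m, l, s, fun j => (c j : P)⟩ : Sys R P) ∈
          Delta (LinearMap.id : P →ₗ[R] P) := by
        refine hW P h hav _ (fun j => (c j).2) ?_
        have h2 := Solvable.map hs W.subtype
        have h3 : (fun j => W.subtype (q (c j))) = fun j => h (c j : P) := by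
          funext j
          change _ = ((q (r (c j : P)) : W) : P)
          rw [hrW]
          rfl
        rw [h3] at h2
        exact h2
      have h4 := Solvable.map h1 r
      have h5 : (fun j => r ((LinearMap.id : P →ₗ[R] P) (c j : P))) = c := by
        funext j
        exact hrW (c j)
      have h6 : Solvable s (fun j => r ((LinearMap.id : P →ₗ[R] P) (c j : P))) := h4
      rw [h5] at h6
      exact h6
    refine ⟨?_, hsys⟩
    rw [injective_iff_map_eq_zero]
    intro a ha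
    obtain ⟨z, hz⟩ := hsys 0 1 (fun _ i => i.elim0) (fun _ => a)
      ⟨fun i => i.elim0, fun j => by simp [ha]⟩
    simpa using (hz 0).symm
  refine ⟨⟨W, i⟩, hi, hWinj, ?_⟩
  intro (q : W →ₗ[R] W) (hq : q ∘ₗ i = i)
  have hqp := hpure q hq
  obtain ⟨s, hs⟩ := hWinj W W q hqp LinearMap.id
  have hsi : s ∘ₗ i = i := by
    conv_lhs => rw [← hq]
    rw [← LinearMap.comp_assoc, hs, LinearMap.id_comp]
  have hsp := hpure s hsi
  refine ⟨hqp.1, fun w => ⟨s w, ?_⟩⟩
  apply hsp.1
  exact LinearMap.congr_fun hs (s w)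

end

end Zg
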