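import Pool.Agent.Helper462.Zg.Sl2Def

namespace Zg

universe u


open Polynomial

section ZG6

variable {k : Type u} [Field k] {A : Type u} [Ring A] [Algebra k A] {e f h : A}

theorem zg6_he (H : Sl2Gen k e f h) : h * e = e * h + 2 * e := by
  have := H.he
  rw [sub_eq_iff_eq_add] at this
  rw [this, add_comm]

theorem zg6_fe (H : Sl2Gen k e f h) : f * e = e * f - h := by
  have := H.ef
  rw [← this]; abel

theorem zg6_fh (H : Sl2Gen k e f h) : f * h = (h + 2) * f := by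
  have := H.hf
  rw [sub_eq_iff_eq_add] at this
  have h2 : h * f = -(2 * f) + f * h := this
  rw [add_mul, h2]; abel

theorem zg6_fhpow (H : Sl2Gen k e f h) (a : ℕ) : f * h ^ a = (h + 2) ^ a * f := by
  induction a with
  | zero => simp
  | succ a ih =>
    rw [pow_succ, ← mul_assoc, ih, mul_assoc, zg6_fh H, ← mul_assoc, ← pow_succ]

theorem zg6_R1 (H : Sl2Gen k e f h) (p : k[X]) :
    ∃ q : k[X], h * aeval e p = aeval e p * h + aeval e q := by
  induction p using Polynomial.induction_on with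
  | C a =>
    refine ⟨0, ?_⟩
    rw [aeval_C, map_zero, add_zero]
    exact (Algebra.commutes a h).symm
  | add p q hp hq =>
    obtain ⟨p', hp'⟩ := hp
    obtain ⟨q', hq'⟩ := hq
    refine ⟨p' + q', ?_⟩
    rw [map_add, map_add, mul_add, add_mul, hp', hq']; abel
  | monomial n a hp =>
    obtain ⟨q, hq⟩ := hp
    refine ⟨2 * (C a * X ^ n) * X + q * X, ?_⟩
    have e1 : (C a * X ^ (n + 1) : k[X]) = C a * X ^ n * X := by rw [pow_succ, mul_assoc]
    rw [e1]
    generalize (C a * X ^ n : k[X]) = p at hq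
    simp only [map_mul, map_add, aeval_X, map_ofNat] 
    rw [← mul_assoc, hq, add_mul, mul_assoc _ h e, zg6_he H, mul_add]
    have e2 : aeval e p * (2 * e) = 2 * aeval e p * e := by
      rw [← mul_assoc, (Commute.ofNat_right (aeval e p) 2).eq]
    rw [e2, ← mul_assoc]
    abel

theorem zg6_R2 (H : Sl2Gen k e f h) (p : k[X]) :
    ∃ q₁ q₂ : k[X], f * aeval e p = aeval e p * f + aeval e q₁ * h + aeval e q₂ := by
  induction p using Polynomial.induction_on with
  | C a =>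
    refine ⟨0, 0, ?_⟩
    rw [aeval_C, map_zero, zero_mul, add_zero, add_zero]
    exact (Algebra.commutes a f).symm
  | add p q hp hq =>
    obtain ⟨p', p'', hp'⟩ := hp
    obtain ⟨q', q'', hq'⟩ := hq
    refine ⟨p' + q', p'' + q'', ?_⟩
    simp only [map_add, mul_add, add_mul, hp', hq']; abel
  | monomial n a hp =>
    obtain ⟨q₁, q₂, hq⟩ := hp
    refine ⟨-(C a * X ^ n) + q₁ * X, 2 * q₁ * X + q₂ * X, ?_⟩
    have e1 : (C a * X ^ (n + 1) : k[X]) = C a * X ^ n * X := by rw [pow_succ, mul_assoc]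
    rw [e1]
    generalize (C a * X ^ n : k[X]) = p at hq
    simp only [map_mul, map_add, map_neg, aeval_X, map_ofNat]
    rw [← mul_assoc, hq, add_mul, add_mul, mul_assoc _ f e, zg6_fe H, mul_assoc _ h e, zg6_he H,
      mul_sub, mul_add]
    have e2 : aeval e q₁ * (2 * e) = 2 * aeval e q₁ * e := by
      rw [← mul_assoc, (Commute.ofNat_right (aeval e q₁) 2).eq]
    rw [e2]
    simp only [add_mul, neg_mul, mul_assoc]
    abel

variable {M : Type u} [AddCommGroup M] [Module A M] [Module k[X] M]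

/-- the spanning vectors -/
def zg6_x (f h : A) (s : M) (b a : ℕ) : M := h ^ a • f ^ b • s

/-- the filtration -/
noncomputable def zg6_G (k : Type u) [Field k] [Module k[X] M] (f h : A) (s : M) (b a : ℕ) :
    Submodule k[X] M :=
  Submodule.span k[X] {m | ∃ b' a', (b' < b ∨ (b' = b ∧ a' < a)) ∧ m = zg6_x f h s b' a'}

theorem zg6_mono (s : M) {b a b' a' : ℕ} (hle : b' < b ∨ (b' = b ∧ a' ≤ a)) :
    zg6_G k f h s b' a' ≤ zg6_G k f h s b a := by
  apply Submodule.span_mono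
  rintro m ⟨b'', a'', h1, rfl⟩
  exact ⟨b'', a'', by omega, rfl⟩

theorem zg6_mem (s : M) {b a b' a' : ℕ} (hlt : b' < b ∨ (b' = b ∧ a' < a)) :
    zg6_x f h s b' a' ∈ zg6_G k f h s b a :=
  Submodule.subset_span ⟨b', a', hlt, rfl⟩

theorem zg6_hx (s : M) (b a : ℕ) : h • zg6_x f h s b a = zg6_x f h s b (a + 1) := by
  unfold zg6_x
  rw [pow_succ', mul_smul]

variable (hX : ∀ (p : k[X]) (m : M), p • m = (aeval e p) • m)
include hX

theorem zg6_hp (H : Sl2Gen k e f h) (p : k[X]) : ∃ q : k[X], ∀ m : M,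
    h • (p • m) = p • (h • m) + q • m := by
  obtain ⟨q, hq⟩ := zg6_R1 H p
  refine ⟨q, fun m => ?_⟩
  rw [hX, hX, hX, ← mul_smul, hq, add_smul, mul_smul]

theorem zg6_fp (H : Sl2Gen k e f h) (p : k[X]) : ∃ q₁ q₂ : k[X], ∀ m : M,
    f • (p • m) = p • (f • m) + q₁ • (h • m) + q₂ • m := by
  obtain ⟨q₁, q₂, hq⟩ := zg6_R2 H p
  refine ⟨q₁, q₂, fun m => ?_⟩
  rw [hX, hX, hX, hX, ← mul_smul, hq, add_smul, add_smul, mul_smul, mul_smul]

theorem zg6_hG (H : Sl2Gen k e f h) (s : M) (b a : ℕ) {g : M} (hg : g ∈ zg6_G k f h s b a) :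
    h • g ∈ zg6_G k f h s b (a + 1) := by
  refine Submodule.span_induction (p := fun g _ => h • g ∈ zg6_G k f h s b (a + 1))
    ?_ ?_ ?_ ?_ hg
  · rintro _ ⟨b', a', hlt, rfl⟩
    rw [zg6_hx]
    exact zg6_mem s (by omega)
  · rw [smul_zero]; exact zero_mem _
  · intro x y _ _ hx hy
    rw [smul_add]; exact add_mem hx hy
  · intro p m hm ih
    obtain ⟨q, hq⟩ := zg6_hp hX H p
    rw [hq]
    exact add_mem (Submodule.smul_mem _ _ ih)
      (Submodule.smul_mem _ _ (zg6_mono s (by omega) hm))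

theorem zg6_fx (H : Sl2Gen k e f h) (s : M) (b a : ℕ) :
    f • zg6_x f h s b a - zg6_x f h s (b + 1) a ∈ zg6_G k f h s (b + 1) a := by
  have e1 : f • zg6_x f h s b a = (h + 2) ^ a • f ^ (b + 1) • s := by
    unfold zg6_x
    rw [← mul_smul, zg6_fhpow H, mul_smul, pow_succ', mul_smul]
  rw [e1]
  induction a with
  | zero => simp [zg6_x]
  | succ a ih =>
    have ih' := ih (by
      unfold zg6_x
      rw [← mul_smul, zg6_fhpow H, mul_smul, pow_succ', mul_smul])
    set g := (h + 2) ^ a • f ^ (b + 1) • s - zg6_x f h s (b + 1) a with hg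
    have e2 : (h + 2) ^ a • f ^ (b + 1) • s = g + zg6_x f h s (b + 1) a := by rw [hg]; abel
    have e3 : (h + 2) ^ (a + 1) • f ^ (b + 1) • s - zg6_x f h s (b + 1) (a + 1) =
        h • g + (2 : k[X]) • (g + zg6_x f h s (b + 1) a) := by
      rw [pow_succ', mul_smul, e2, add_smul, smul_add, zg6_hx, hX]
      simp only [map_ofNat]
      abel
    rw [e3]
    refine add_mem (zg6_hG hX H s _ _ ih') (Submodule.smul_mem _ _ (add_mem ?_ ?_))
    · exact zg6_mono s (by omega) ih'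
    · exact zg6_mem s (by omega)

theorem zg6_fx' (H : Sl2Gen k e f h) (s : M) {b a b₀ a₀ : ℕ}
    (hlt : b + 1 < b₀ ∨ (b + 1 = b₀ ∧ a < a₀)) :
    f • zg6_x f h s b a ∈ zg6_G k f h s b₀ a₀ := by
  have h1 := zg6_fx hX H s b a
  have h2 : f • zg6_x f h s b a = (f • zg6_x f h s b a - zg6_x f h s (b + 1) a) +
      zg6_x f h s (b + 1) a := by abel
  rw [h2]
  exact add_mem (zg6_mono s (by omega) h1) (zg6_mem s hlt)

theorem zg6_fG (H : Sl2Gen k e f h) (s : M) (b a : ℕ) {g : M} (hg : g ∈ zg6_G k f h s b a) :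
    f • g ∈ zg6_G k f h s (b + 1) a := by
  refine Submodule.span_induction (p := fun g _ => f • g ∈ zg6_G k f h s (b + 1) a)
    ?_ ?_ ?_ ?_ hg
  · rintro _ ⟨b', a', hlt, rfl⟩
    exact zg6_fx' hX H s (by omega)
  · rw [smul_zero]; exact zero_mem _
  · intro x y _ _ hx hy
    rw [smul_add]; exact add_mem hx hy
  · intro p m hm ih
    obtain ⟨q₁, q₂, hq⟩ := zg6_fp hX H p
    rw [hq]
    refine add_mem (add_mem (Submodule.smul_mem _ _ ih) (Submodule.smul_mem _ _ ?_))
      (Submodule.smul_mem _ _ (zg6_mono s (by omega) hm))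
    exact zg6_mono s (by omega) (zg6_hG hX H s _ _ hm)

omit hX in
/-- leading coefficient ideals -/
noncomputable def zg6_L (k : Type u) [Field k] [Module k[X] M] (f h : A) (s : M) (i : ℕ × ℕ) : Ideal k[X] :=
  (zg6_G k f h s i.1 i.2).comap (LinearMap.toSpanSingleton k[X] M (zg6_x f h s i.1 i.2))

omit hX in
theorem zg6_memL (s : M) (i : ℕ × ℕ) (p : k[X]) :
    p ∈ zg6_L k f h s i ↔ p • zg6_x f h s i.1 i.2 ∈ zg6_G k f h s i.1 i.2 := Iff.rfl

theorem zg6_L1 (H : Sl2Gen k e f h) (s : M) (b a : ℕ) :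
    zg6_L k f h s (b, a) ≤ zg6_L k f h s (b, a + 1) := by
  intro p hp
  rw [zg6_memL] at hp ⊢
  have h1 := zg6_hG hX H s _ _ hp
  obtain ⟨q, hq⟩ := zg6_hp hX H p
  rw [hq, zg6_hx] at h1
  exact (add_mem_cancel_right (Submodule.smul_mem _ _ (zg6_mem s (by simp)))).1 h1

theorem zg6_L2 (H : Sl2Gen k e f h) (s : M) (b a : ℕ) :
    zg6_L k f h s (b, a) ≤ zg6_L k f h s (b + 1, a) := by
  intro p hp
  rw [zg6_memL] at hp ⊢
  have h1 := zg6_fG hX H s _ _ hp
  obtain ⟨q₁, q₂, hq⟩ := zg6_fp hX H p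
  rw [hq, zg6_hx] at h1
  have h2 := (add_mem_cancel_right (Submodule.smul_mem _ q₂
    (zg6_mem s (b := b + 1) (a := a) (b' := b) (a' := a) (by simp)))).1 h1
  have h3 := (add_mem_cancel_right (Submodule.smul_mem _ q₁
    (zg6_mem s (b := b + 1) (a := a) (b' := b) (a' := a + 1) (by simp)))).1 h2
  have h4 := Submodule.smul_mem _ p (zg6_fx hX H s b a)
  rw [smul_sub] at h4
  have h5 := sub_mem h3 h4
  simpa using h5

theorem zg6_Lmono (H : Sl2Gen k e f h) (s : M) : Monotone (zg6_L k f h s) := by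
  rintro ⟨b, a⟩ ⟨b', a'⟩ ⟨hb, ha⟩
  have h1 : Monotone (fun a => zg6_L k f h s (b, a)) :=
    monotone_nat_of_le_succ fun a => zg6_L1 hX H s b a
  have h2 : Monotone (fun b => zg6_L k f h s (b, a')) :=
    monotone_nat_of_le_succ fun b => zg6_L2 hX H s b a'
  exact (h1 ha).trans (h2 hb)

omit hX in
theorem zg6_range {P : Type u} [PartialOrder P] [WellFoundedGT P] (F : ℕ × ℕ → P)
    (hF : Monotone F) : (Set.range F).Finite := by
  by_contra hinf
  have hinf' : (Set.range F).Infinite := hinf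
  let φ := hinf'.natEmbedding
  have hc : ∀ n, ∃ i, F i = (φ n : P) := fun n => (φ n).2
  choose c hc using hc
  obtain ⟨g, hg⟩ := (wellQuasiOrdered_le (α := ℕ × ℕ)).exists_monotone_subseq c
  have hmono : Monotone (fun n => F (c (g n))) := fun m n hmn => hF (hg m n hmn)
  have hinj : Function.Injective (fun n => F (c (g n))) := by
    intro m n hmn
    simp only [hc] at hmn
    exact g.injective (φ.injective (Subtype.ext hmn))
  exact not_strictMono_of_wellFoundedGT _ (hmono.strictMono_of_injective hinj)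

omit hX in
theorem zg6_sigma (L : Ideal k[X]) :
    {μ : k | ∃ p : k[X], p ∉ L ∧ (X - C μ) * p ∈ L}.Finite := by
  classical
  by_cases hL : L = ⊥
  · subst hL
    convert Set.finite_empty
    ext μ
    simp only [Set.mem_empty_iff_false, iff_false]
    rintro ⟨p, h1, h2⟩
    rw [Ideal.mem_bot] at h1 h2
    rcases mul_eq_zero.1 h2 with h | h
    · exact X_sub_C_ne_zero μ h
    · exact h1 h
  · obtain ⟨q, hq, hq0⟩ := Submodule.exists_mem_ne_zero_of_ne_bot hL
    refine (q.roots.toFinset.finite_toSet).subset ?_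
    rintro μ ⟨p, h1, h2⟩
    rw [Finset.mem_coe, Multiset.mem_toFinset, mem_roots hq0]
    by_contra hroot
    have hcop : IsCoprime (X - C μ) q := by
      rw [(irreducible_X_sub_C μ).coprime_iff_not_dvd, dvd_iff_isRoot]
      exact hroot
    obtain ⟨u, v, huv⟩ := hcop
    apply h1
    have e1 : p = u * ((X - C μ) * p) + v * p * q := by
      calc p = (u * (X - C μ) + v * q) * p := by rw [huv, one_mul]
        _ = _ := by ring
    rw [e1]
    exact add_mem (Ideal.mul_mem_left _ _ h2) (Ideal.mul_mem_left _ _ hq)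

omit hX in
theorem zg6_zero_bot (s : M) : zg6_G k f h s 0 0 = ⊥ := by
  unfold zg6_G
  rw [Submodule.span_eq_bot]
  rintro m ⟨b', a', hlt, rfl⟩
  omega

omit hX in
theorem zg6_limit (s : M) (b : ℕ) {g : M} (hg : g ∈ zg6_G k f h s (b + 1) 0) :
    ∃ a, g ∈ zg6_G k f h s b a := by
  refine Submodule.span_induction (p := fun g _ => ∃ a, g ∈ zg6_G k f h s b a) ?_ ?_ ?_ ?_ hg
  · rintro _ ⟨b', a', hlt, rfl⟩
    exact ⟨a' + 1, zg6_mem s (by omega)⟩
  · exact ⟨0, zero_mem _⟩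
  · rintro x y _ _ ⟨a₁, h₁⟩ ⟨a₂, h₂⟩
    exact ⟨max a₁ a₂, add_mem (zg6_mono s (Or.inr ⟨rfl, le_max_left _ _⟩) h₁)
      (zg6_mono s (Or.inr ⟨rfl, le_max_right _ _⟩) h₂)⟩
  · rintro p m _ ⟨a, ha⟩
    exact ⟨a, Submodule.smul_mem _ _ ha⟩

omit hX in
theorem zg6_succ (s : M) (b a : ℕ) {g : M} (hg : g ∈ zg6_G k f h s b (a + 1)) :
    ∃ g' ∈ zg6_G k f h s b a, ∃ p : k[X], g = g' + p • zg6_x f h s b a := by
  refine Submodule.span_induction (p := fun g _ => ∃ g' ∈ zg6_G k f h s b a, ∃ p : k[X],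
    g = g' + p • zg6_x f h s b a) ?_ ?_ ?_ ?_ hg
  · rintro _ ⟨b', a', hlt, rfl⟩
    by_cases hc : b' = b ∧ a' = a
    · obtain ⟨rfl, rfl⟩ := hc
      exact ⟨0, zero_mem _, 1, by rw [one_smul, zero_add]⟩
    · exact ⟨zg6_x f h s b' a', zg6_mem s (by omega), 0, by rw [zero_smul, add_zero]⟩
  · exact ⟨0, zero_mem _, 0, by rw [zero_smul, add_zero]⟩
  · rintro x y _ _ ⟨g₁, h₁, p₁, rfl⟩ ⟨g₂, h₂, p₂, rfl⟩
    exact ⟨g₁ + g₂, add_mem h₁ h₂, p₁ + p₂, by rw [add_smul]; abel⟩
  · rintro p m _ ⟨g₁, h₁, p₁, rfl⟩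
    exact ⟨p • g₁, Submodule.smul_mem _ _ h₁, p * p₁, by rw [smul_add, mul_smul]⟩

/-- membership of some piece -/
theorem zg6_cover (H : Sl2Gen k e f h) (s : M) (α : A) :
    ∀ m : M, (∃ b a, m ∈ zg6_G k f h s b a) → ∃ b a, α • m ∈ zg6_G k f h s b a := by
  have hα : α ∈ Algebra.adjoin k ({e, f, h} : Set A) := by rw [H.gen]; exact Algebra.mem_top
  induction hα using Algebra.adjoin_induction with
  | mem x hx =>
    rintro m ⟨b, a, hm⟩
    rcases hx with rfl | rfl | rfl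
    · refine ⟨b, a, ?_⟩
      have h1 := Submodule.smul_mem _ (X : k[X]) hm
      rwa [hX, aeval_X] at h1
    · exact ⟨_, _, zg6_fG hX H s b a hm⟩
    · exact ⟨_, _, zg6_hG hX H s b a hm⟩
  | algebraMap r =>
    rintro m ⟨b, a, hm⟩
    refine ⟨b, a, ?_⟩
    have h1 := Submodule.smul_mem _ (C r : k[X]) hm
    rwa [hX, aeval_C] at h1
  | add x y _ _ hx hy =>
    intro m hm
    obtain ⟨b, a, h1⟩ := hx m hm
    obtain ⟨b', a', h2⟩ := hy m hm
    refine ⟨max b b' + 1, 0, ?_⟩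
    rw [add_smul]
    exact add_mem (zg6_mono s (by omega) h1) (zg6_mono s (by omega) h2)
  | mul x y _ _ hx hy =>
    intro m hm
    rw [mul_smul]
    exact hx _ (hy m hm)

theorem zg6_step (s : M) (hs : ∀ p : k[X], p ≠ 0 → (aeval e p) • s ≠ 0) (μ : k)
    (hμ : ∀ (i : ℕ × ℕ) (p : k[X]), (X - C μ) * p ∈ zg6_L k f h s i → p ∈ zg6_L k f h s i)
    (b a : ℕ) (ih : ∀ y ∈ zg6_G k f h s b a, (X - C μ : k[X]) • y ≠ s) :
    ∀ y ∈ zg6_G k f h s b (a + 1), (X - C μ : k[X]) • y ≠ s := by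
  intro y hy hys
  obtain ⟨g, hg, p, rfl⟩ := zg6_succ s b a hy
  rw [smul_add, ← mul_smul] at hys
  by_cases h0 : b = 0 ∧ a = 0
  · obtain ⟨rfl, rfl⟩ := h0
    rw [zg6_zero_bot, Submodule.mem_bot] at hg
    rw [hg, smul_zero, zero_add] at hys
    have hx0 : zg6_x f h s 0 0 = s := by simp [zg6_x]
    rw [hx0] at hys
    have h1 : ((X - C μ) * p - 1 : k[X]) • s = 0 := by
      rw [sub_smul, hys, one_smul, sub_self]
    rw [hX] at h1
    have h2 : ((X - C μ) * p - 1 : k[X]) ≠ 0 := by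
      intro h3
      have := congrArg (eval μ) h3
      simp at this
    exact hs _ h2 h1
  · have hsG : s ∈ zg6_G k f h s b a := by
      have hx0 : zg6_x f h s 0 0 = s := by simp [zg6_x]
      have h9 := zg6_mem (k := k) (f := f) (h := h) s (b := b) (a := a) (b' := 0) (a' := 0) (by omega)
      rwa [hx0] at h9
    have h1 : ((X - C μ) * p) • zg6_x f h s b a ∈ zg6_G k f h s b a := by
      have h8 : ((X - C μ) * p) • zg6_x f h s b a = s - (X - C μ : k[X]) • g :=
        eq_sub_of_add_eq' hys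
      rw [h8]
      exact sub_mem hsG (Submodule.smul_mem _ _ hg)
    have h2 : p • zg6_x f h s b a ∈ zg6_G k f h s b a := hμ (b, a) p h1
    exact ih _ (add_mem hg h2) (by rw [smul_add, ← mul_smul]; exact hys)

theorem zg6_all (s : M) (hs : ∀ p : k[X], p ≠ 0 → (aeval e p) • s ≠ 0) (μ : k)
    (hμ : ∀ (i : ℕ × ℕ) (p : k[X]), (X - C μ) * p ∈ zg6_L k f h s i → p ∈ zg6_L k f h s i) :
    ∀ b a : ℕ, ∀ y ∈ zg6_G k f h s b a, (X - C μ : k[X]) • y ≠ s := by
  intro b
  induction b with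
  | zero =>
    intro a
    induction a with
    | zero =>
      intro y hy hys
      rw [zg6_zero_bot, Submodule.mem_bot] at hy
      rw [hy, smul_zero] at hys
      have := hs 1 one_ne_zero
      rw [map_one, one_smul] at this
      exact this hys.symm
    | succ a ih => exact zg6_step hX s hs μ hμ 0 a ih
  | succ b ihb =>
    intro a
    induction a with
    | zero =>
      intro y hy
      obtain ⟨a, ha⟩ := zg6_limit s b hy
      exact ihb a y ha
    | succ a ih => exact zg6_step hX s hs μ hμ (b + 1) a ih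

end ZG6

/-- generic flatness for cyclic modules -/
theorem Sl2Gen.finite_divisible {k : Type u} [Field k] {A : Type u}
    [Ring A] [Algebra k A] {e f h : A} (H : Sl2Gen k e f h)
    (M : Type u) [AddCommGroup M] [Module k M] [Module A M] [IsScalarTower k A M]
    (s : M) (hs : ∀ p : Polynomial k, p ≠ 0 → (Polynomial.aeval e p) • s ≠ 0) :
    {μ : k | ∃ y ∈ Submodule.span A {s}, (e - algebraMap k A μ) • y = s}.Finite := by
  letI : Module k[X] M := Module.compHom M (Polynomial.aeval e : k[X] →ₐ[k] A).toRingHom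
  have hX : ∀ (p : k[X]) (m : M), p • m = (aeval e p) • m := fun p m => rfl
  have hfin : (⋃ L ∈ Set.range (zg6_L k f h s),
      {μ : k | ∃ p : k[X], p ∉ L ∧ (X - C μ) * p ∈ L}).Finite :=
    (zg6_range _ (zg6_Lmono hX H s)).biUnion fun L _ => zg6_sigma L
  refine hfin.subset ?_
  rintro μ ⟨y, hy, hys⟩
  by_contra hμ
  have hμ' : ∀ (i : ℕ × ℕ) (p : k[X]), (X - C μ) * p ∈ zg6_L k f h s i →
      p ∈ zg6_L k f h s i := by
    intro i p hp
    by_contra hcon
    apply hμ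
    exact Set.mem_biUnion ⟨i, rfl⟩ ⟨p, hcon, hp⟩
  obtain ⟨α, rfl⟩ := Submodule.mem_span_singleton.1 hy
  have hs01 : s ∈ zg6_G k f h s 0 1 := by
    have hx0 : zg6_x f h s 0 0 = s := by simp [zg6_x]
    have h9 := zg6_mem (k := k) (f := f) (h := h) s (b := 0) (a := 1) (b' := 0) (a' := 0) (by omega)
    rwa [hx0] at h9
  obtain ⟨b, a, hm⟩ := zg6_cover hX H s α s ⟨0, 1, hs01⟩
  apply zg6_all hX s hs μ hμ' b a _ hm
  rw [hX]
  simp only [map_sub, aeval_X, aeval_C]
  exact hys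

end Zg
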