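import Pool.Agent.Helper462.Zg.Sl2Def

namespace Zg

universe u


theorem sat_11027 {k : Type u} [Field k] {A : Type u} [Ring A] [Algebra k A]
    (M : Type u) [AddCommGroup M] [Module k M] [Module A M] [IsScalarTower k A M] (a : A)
    (ha : ∀ s : M, ∃ p : Polynomial k, p ≠ 0 ∧ (Polynomial.aeval a p) • s = 0)
    (V : Submodule k M) (hV : V.FG) :
    ∃ V' : Submodule k M, V'.FG ∧ V ≤ V' ∧ ∀ v ∈ V', a • v ∈ V' := by
  classical
  induction V, hV using Submodule.fg_induction with
  | singleton x =>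
    obtain ⟨p, hp, hpx⟩ := ha x
    let ev : Polynomial k →ₗ[k] M :=
      { toFun := fun q => Polynomial.aeval a q • x
        map_add' := fun q r => by rw [map_add, add_smul]
        map_smul' := fun c q => by rw [map_smul, smul_assoc]; rfl }
    have hev : ∀ q, ev q = Polynomial.aeval a q • x := fun q => rfl
    refine ⟨LinearMap.range ev, ?_, ?_, ?_⟩
    · have h1 : LinearMap.range ev = (Polynomial.degreeLT k p.natDegree).map ev := by
        apply le_antisymm
        · rintro _ ⟨q, rfl⟩
          refine ⟨q % p, ?_, ?_⟩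
          · rw [SetLike.mem_coe, Polynomial.mem_degreeLT, ← Polynomial.degree_eq_natDegree hp]
            exact Polynomial.degree_mod_lt q hp
          · have h2 : p * (q / p) + q % p = q := EuclideanDomain.div_add_mod q p
            conv_rhs => rw [← h2, map_add]
            have h3 : ev (p * (q / p)) = 0 := by
              rw [hev, mul_comm, map_mul, mul_smul, hpx, smul_zero]
            rw [h3, zero_add]
        · rintro _ ⟨q, -, rfl⟩
          exact ⟨q, rfl⟩
      rw [h1, Polynomial.degreeLT_eq_span_X_pow]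
      exact Submodule.FG.map _ ⟨_, rfl⟩
    · rw [Submodule.span_singleton_le_iff_mem]
      exact ⟨1, by rw [hev, map_one, one_smul]⟩
    · rintro _ ⟨q, rfl⟩
      exact ⟨Polynomial.X * q, by rw [hev, hev, map_mul, Polynomial.aeval_X, mul_smul]⟩
  | sup V₁ V₂ _ _ h₁ h₂ =>
    obtain ⟨W₁, h11, h12, h13⟩ := h₁
    obtain ⟨W₂, h21, h22, h23⟩ := h₂
    refine ⟨W₁ ⊔ W₂, h11.sup h21, sup_le_sup h12 h22, ?_⟩
    intro v hv
    obtain ⟨x, hx, y, hy, rfl⟩ := Submodule.mem_sup.mp hv
    rw [smul_add]
    exact Submodule.add_mem_sup (h13 x hx) (h23 y hy)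

theorem ef_11027 {k : Type u} [Field k] {A : Type u} [Ring A] [Algebra k A] {e f h : A}
    (H : Sl2Gen k e f h) (a : ℕ) :
    e * f ^ (a + 1) = f ^ (a + 1) * e + ((a : k) + 1) • (f ^ a * h) -
      ((a : k) * (a + 1)) • f ^ a := by
  have hef : e * f = f * e + h := by rw [← H.ef]; abel
  have hhf : h * f = f * h - (2 : k) • f := by
    have h1 := H.hf
    have h2 : (2 : A) * f = (2 : k) • f := by
      rw [Algebra.smul_def, map_ofNat]
    rw [h2] at h1
    rw [sub_eq_iff_eq_add] at h1
    rw [h1]; abel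
  induction a with
  | zero =>
    rw [zero_add, pow_one, pow_zero, hef]
    simp
  | succ a ih =>
    rw [pow_succ f (a + 1), ← mul_assoc, ih, sub_mul, add_mul, smul_mul_assoc, smul_mul_assoc,
      mul_assoc, mul_assoc, hef, hhf, mul_add, mul_sub, mul_smul_comm, ← mul_assoc, ← mul_assoc,
      ← pow_succ, ← pow_succ]
    push_cast
    module

theorem eb_11027 {k : Type u} [Field k] {A : Type u} [Ring A] [Algebra k A] {e f h : A}
    (H : Sl2Gen k e f h) (b : ℕ) :
    e ^ (b + 1) * f = f * e ^ (b + 1) + ((b : k) + 1) • (h * e ^ b) -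
      ((b : k) * (b + 1)) • e ^ b := by
  have hef : e * f = f * e + h := by rw [← H.ef]; abel
  have heh : e * h = h * e - (2 : k) • e := by
    have h1 := H.he
    have h2 : (2 : A) * e = (2 : k) • e := by
      rw [Algebra.smul_def, map_ofNat]
    rw [h2] at h1
    rw [← h1]; abel
  induction b with
  | zero =>
    rw [zero_add, pow_one, pow_zero, hef]
    simp
  | succ b ih =>
    rw [pow_succ' e (b + 1), mul_assoc, ih, mul_sub, mul_add, mul_smul_comm, mul_smul_comm,
      ← mul_assoc, ← mul_assoc, hef, heh, add_mul, sub_mul, smul_mul_assoc, mul_assoc, mul_assoc,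
      ← pow_succ', ← pow_succ']
    push_cast
    module

theorem cyc_11027 {k : Type u} [Field k] [CharZero k] {A : Type u}
    [Ring A] [Algebra k A] {e f h : A} (H : Sl2Gen k e f h)
    (M : Type u) [AddCommGroup M] [Module k M] [Module A M] [IsScalarTower k A M]
    (hE : ∀ s : M, ∃ p : Polynomial k, p ≠ 0 ∧ (Polynomial.aeval e p) • s = 0)
    (hF : ∀ s : M, ∃ p : Polynomial k, p ≠ 0 ∧ (Polynomial.aeval f p) • s = 0) (s : M) :
    ∃ W : Submodule k M, W.FG ∧ ∀ a : A, a • s ∈ W := by
  obtain ⟨V1, h1F, h1s, h1f⟩ := sat_11027 M f hF (Submodule.span k {s})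
    (Submodule.fg_span (Set.finite_singleton s))
  obtain ⟨V2, h2F, h2s, h2e⟩ := sat_11027 M e hE V1 h1F
  obtain ⟨V3, h3F, h3s, h3f⟩ := sat_11027 M f hF V2 h2F
  have hpow : ∀ (x : A) (V : Submodule k M), (∀ v ∈ V, x • v ∈ V) → ∀ n : ℕ, ∀ v ∈ V,
      x ^ n • v ∈ V := by
    intro x V hV n
    induction n with
    | zero => intro v hv; rwa [pow_zero, one_smul]
    | succ n ih => intro v hv; rw [pow_succ, mul_smul]; exact ih _ (hV v hv)
  obtain ⟨W, hW⟩ : ∃ W : Submodule k M, W = Submodule.span k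
    {x | ∃ a b c : ℕ, x = f ^ a • e ^ b • f ^ c • s} := ⟨_, rfl⟩
  have hmem : ∀ a b c : ℕ, f ^ a • e ^ b • f ^ c • s ∈ W := fun a b c => by
    rw [hW]; exact Submodule.subset_span ⟨a, b, c, rfl⟩
  have hW3 : W ≤ V3 := by
    rw [hW, Submodule.span_le]
    rintro _ ⟨a, b, c, rfl⟩
    apply hpow f V3 h3f
    apply h3s
    apply hpow e V2 h2e
    apply h2s
    apply hpow f V1 h1f
    apply h1s
    exact Submodule.mem_span_singleton_self s
  have hWF : W.FG := by
    have : Module.Finite k V3 := Module.Finite.iff_fg.mpr h3F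
    have h4 := Submodule.finiteDimensional_of_le hW3
    exact Module.Finite.iff_fg.mp h4
  -- stability under `f`
  have hWf : ∀ w ∈ W, f • w ∈ W := by
    intro w hw
    rw [hW] at hw
    induction hw using Submodule.span_induction with
    | mem x hx =>
      obtain ⟨a, b, c, rfl⟩ := hx
      rw [← mul_smul, ← pow_succ']
      exact hmem (a + 1) b c
    | zero => rw [smul_zero]; exact W.zero_mem
    | add x y _ _ hx hy => rw [smul_add]; exact W.add_mem hx hy
    | smul r x _ hx => rw [smul_comm]; exact W.smul_mem r hx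
  have hWh : ∀ a b c : ℕ, f ^ a • h • e ^ b • f ^ c • s ∈ W := by
    intro a b c
    have h1 : ((b : k) + 1) • (f ^ a • h • e ^ b • f ^ c • s) =
        f ^ a • e ^ (b + 1) • f ^ (c + 1) • s - f ^ (a + 1) • e ^ (b + 1) • f ^ c • s +
          ((b : k) * (b + 1)) • (f ^ a • e ^ b • f ^ c • s) := by
      have h2 := eb_11027 H b
      have h3 : ((b : k) + 1) • (h * e ^ b) = e ^ (b + 1) * f - f * e ^ (b + 1) +
          ((b : k) * (b + 1)) • e ^ b := by rw [h2]; abel
      rw [← mul_smul h, ← smul_comm (f ^ a) ((b : k) + 1), ← smul_assoc ((b : k) + 1), h3,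
        add_smul, sub_smul, smul_add, smul_sub, mul_smul, mul_smul, smul_assoc,
        smul_comm (f ^ a) ((b : k) * (b + 1)), pow_succ' f c, mul_smul f (f ^ c), pow_succ f a,
        mul_smul (f ^ a) f]
    have h4 : ((b : k) + 1) • (f ^ a • h • e ^ b • f ^ c • s) ∈ W := by
      rw [h1]
      exact W.add_mem (W.sub_mem (hmem _ _ _) (hmem _ _ _)) (W.smul_mem _ (hmem _ _ _))
    have hb : ((b : k) + 1) ≠ 0 := by exact_mod_cast Nat.succ_ne_zero b
    exact (W.smul_mem_iff hb).mp h4
  have hWe : ∀ w ∈ W, e • w ∈ W := by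
    intro w hw
    rw [hW] at hw
    induction hw using Submodule.span_induction with
    | mem x hx =>
      obtain ⟨a, b, c, rfl⟩ := hx
      cases a with
      | zero =>
        rw [pow_zero, one_smul, ← mul_smul, ← pow_succ']
        have := hmem 0 (b + 1) c
        rwa [pow_zero, one_smul] at this
      | succ a =>
        rw [← mul_smul, ef_11027 H a, sub_smul, add_smul, mul_smul, smul_assoc, smul_assoc,
          mul_smul, ← mul_smul e, ← pow_succ']
        exact W.sub_mem (W.add_mem (hmem _ _ _) (W.smul_mem _ (hWh _ _ _)))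
          (W.smul_mem _ (hmem _ _ _))
    | zero => rw [smul_zero]; exact W.zero_mem
    | add x y _ _ hx hy => rw [smul_add]; exact W.add_mem hx hy
    | smul r x _ hx => rw [smul_comm]; exact W.smul_mem r hx
  have hWA : ∀ a : A, ∀ w ∈ W, a • w ∈ W := by
    intro a
    have ha : a ∈ Algebra.adjoin k {e, f, h} := by rw [H.gen]; trivial
    induction ha using Algebra.adjoin_induction with
    | mem x hx =>
      rcases hx with rfl | rfl | rfl
      · exact hWe
      · exact hWf
      · intro w hw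
        rw [← H.ef, sub_smul, mul_smul, mul_smul]
        exact W.sub_mem (hWe _ (hWf _ hw)) (hWf _ (hWe _ hw))
    | algebraMap r => intro w hw; rw [algebraMap_smul]; exact W.smul_mem r hw
    | add x y _ _ hx hy => intro w hw; rw [add_smul]; exact W.add_mem (hx w hw) (hy w hw)
    | mul x y _ _ hx hy => intro w hw; rw [mul_smul]; exact hx _ (hy w hw)
  refine ⟨W, hWF, fun a => hWA a s ?_⟩
  have := hmem 0 0 0
  simpa only [pow_zero, one_smul] using this

theorem Sl2Gen.exists_free {k : Type u} [Field k] [CharZero k] {A : Type u}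
    [Ring A] [Algebra k A] {e f h : A} (H : Sl2Gen k e f h)
    (M : Type u) [AddCommGroup M] [Module k M] [Module A M] [IsScalarTower k A M]
    [Module.Finite A M] (hM : ¬ FiniteDimensional k M) :
    ∃ s : M, (∀ p : Polynomial k, p ≠ 0 → (Polynomial.aeval e p) • s ≠ 0) ∨
      (∀ p : Polynomial k, p ≠ 0 → (Polynomial.aeval f p) • s ≠ 0) := by
  by_contra hcon
  push Not at hcon
  apply hM
  have hE : ∀ s : M, ∃ p : Polynomial k, p ≠ 0 ∧ (Polynomial.aeval e p) • s = 0 :=
    fun s => (hcon s).1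
  have hF : ∀ s : M, ∃ p : Polynomial k, p ≠ 0 ∧ (Polynomial.aeval f p) • s = 0 :=
    fun s => (hcon s).2
  have hfin : ∀ (N : Submodule k M), N.FG → Module.Finite k N := fun N hN =>
    Module.Finite.iff_fg.mpr hN
  have key : ∀ N : Submodule A M, N.FG → ∃ W : Submodule k M, W.FG ∧ ∀ x ∈ N, x ∈ W := by
    intro N hN
    induction N, hN using Submodule.fg_induction with
    | singleton x =>
      obtain ⟨W, hW1, hW2⟩ := cyc_11027 H M hE hF x
      refine ⟨W, hW1, fun y hy => ?_⟩
      obtain ⟨a, rfl⟩ := Submodule.mem_span_singleton.mp hy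
      exact hW2 a
    | sup V₁ V₂ _ _ h₁ h₂ =>
      obtain ⟨W₁, h11, h12⟩ := h₁
      obtain ⟨W₂, h21, h22⟩ := h₂
      refine ⟨W₁ ⊔ W₂, h11.sup h21, fun y hy => ?_⟩
      obtain ⟨x, hx, z, hz, rfl⟩ := Submodule.mem_sup.mp hy
      exact Submodule.add_mem_sup (h12 x hx) (h22 z hz)
  obtain ⟨W, hW1, hW2⟩ := key ⊤ Module.Finite.fg_top
  have hW3 : W = ⊤ := by
    rw [eq_top_iff]
    intro x _
    exact hW2 x trivial
  rw [hW3] at hW1
  exact ⟨hW1⟩

end Zg
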