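import Mathlib

namespace Zg

universe u

theorem harada_sai_inj {A : Type u} [Ring A] (M : Type u) [AddCommGroup M] [Module A M]
    [IsArtinian A M] [IsNoetherian A M] (f q : M →ₗ[A] M)
    (h : Module.length A (LinearMap.range (q ∘ₗ f)) = Module.length A (LinearMap.range f)) :
    Disjoint (LinearMap.range f) (LinearMap.ker q) := by
  obtain ⟨g, hg⟩ : ∃ g : LinearMap.range f →ₗ[A] M, g = q.domRestrict (LinearMap.range f) :=
    ⟨_, rfl⟩
  have hgr : LinearMap.range g = LinearMap.range (q ∘ₗ f) := by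
    rw [hg, LinearMap.range_domRestrict, LinearMap.range_comp]
  have h1 := Module.length_eq_add_of_exact (LinearMap.ker g.rangeRestrict).subtype g.rangeRestrict
    (Submodule.subtype_injective _) (LinearMap.surjective_rangeRestrict g)
    (LinearMap.exact_subtype_ker_map g.rangeRestrict)
  have h0 : Module.length A (LinearMap.range g) = Module.length A (LinearMap.range f) := by
    rw [hgr, h]
  rw [h0] at h1
  have h2 : Module.length A (LinearMap.range f) ≠ ⊤ := Module.length_ne_top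
  have h3 : Module.length A (LinearMap.ker g.rangeRestrict) = 0 := by
    by_contra hne
    have h4 : 0 < Module.length A (LinearMap.ker g.rangeRestrict) := pos_iff_ne_zero.2 hne
    have h5 : Module.length A (LinearMap.ker g.rangeRestrict) ≠ ⊤ := Module.length_ne_top
    obtain ⟨a, ha⟩ := ENat.ne_top_iff_exists.1 h2
    obtain ⟨c, hc⟩ := ENat.ne_top_iff_exists.1 h5
    rw [← ha, ← hc] at h1
    rw [← hc] at h4
    have h6 : a = c + a := by exact_mod_cast h1
    have h7 : 0 < c := by exact_mod_cast h4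
    omega
  rw [Module.length_eq_zero_iff] at h3
  rw [Submodule.disjoint_def]
  intro x hx hx'
  have h6 : (⟨x, hx⟩ : LinearMap.range f) ∈ LinearMap.ker g.rangeRestrict := by
    rw [LinearMap.ker_rangeRestrict, LinearMap.mem_ker, hg, LinearMap.domRestrict_apply]
    exact hx'
  have h7 : (⟨⟨x, hx⟩, h6⟩ : LinearMap.ker g.rangeRestrict) = 0 := Subsingleton.elim _ _
  have h8 := congrArg (fun y : LinearMap.ker g.rangeRestrict => ((y : LinearMap.range f) : M)) h7
  exact h8

/-- an abstract form of the Harada-Sai argument -/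
theorem harada_sai {A : Type u} [Ring A] (M : Type u) [AddCommGroup M] [Module A M]
    (hfl : IsFiniteLength A M)
    (hind : ∀ N₁ N₂ : Submodule A M, IsCompl N₁ N₂ → N₁ = ⊥ ∨ N₂ = ⊥)
    (P : M → Prop) (h0 : ¬ P 0)
    (hstep : ∀ m, P m → ∃ j : M →ₗ[A] M, ¬ Function.Bijective j ∧ P (j m)) :
    ∀ m, ¬ P m := by
  classical
  obtain ⟨hno, har⟩ := isFiniteLength_iff_isNoetherian_isArtinian.1 hfl
  intro m0 hm0
  -- the length of submodules
  obtain ⟨ell, hell⟩ : ∃ ell : Submodule A M → ℕ, ∀ N : Submodule A M,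
      (ell N : ℕ∞) = Module.length A N :=
    ⟨fun N => (Module.length A N).toNat, fun N => ENat.natCast_toNat Module.length_ne_top⟩
  have hlt : ∀ N N' : Submodule A M, N < N' → ell N < ell N' := by
    intro N N' h
    have h1 := Submodule.height_strictMono h
    rw [← Module.length_submodule, ← Module.length_submodule, ← hell, ← hell] at h1
    exact_mod_cast h1
  have hle : ∀ N N' : Submodule A M, N ≤ N' → ell N ≤ ell N' := by
    intro N N' h
    rcases lt_or_eq_of_le h with h | h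
    · exact (hlt N N' h).le
    · rw [h]
  obtain ⟨R, hR⟩ : ∃ R : M → Set ℕ, ∀ m k, k ∈ R m ↔
      ∃ q : M →ₗ[A] M, ¬ Function.Bijective q ∧ P (q m) ∧ ell (LinearMap.range q) = k :=
    ⟨fun m => {k | ∃ q : M →ₗ[A] M, ¬ Function.Bijective q ∧ P (q m) ∧
      ell (LinearMap.range q) = k}, fun m k => Iff.rfl⟩
  have hne : ∀ m, P m → (R m).Nonempty := by
    intro m hm
    obtain ⟨j, hj, hj'⟩ := hstep m hm
    exact ⟨_, (hR m _).2 ⟨j, hj, hj', rfl⟩⟩
  have hmin : ∀ m, P m → sInf (R m) ∈ R m := fun m hm => Nat.sInf_mem (hne m hm)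
  -- the values
  obtain ⟨m, hm, hmax⟩ : ∃ m, P m ∧ ∀ m', P m' → sInf (R m') ≤ sInf (R m) := by
    have hbdd : BddAbove {k | ∃ m, P m ∧ sInf (R m) = k} := by
      refine ⟨ell ⊤, ?_⟩
      rintro k ⟨m, hm, rfl⟩
      obtain ⟨q, _, _, hq⟩ := (hR m _).1 (hmin m hm)
      rw [← hq]
      exact hle _ _ le_top
    obtain ⟨m, hm, hms⟩ := Nat.sSup_mem (s := {k | ∃ m, P m ∧ sInf (R m) = k})
      ⟨_, m0, hm0, rfl⟩ hbdd
    refine ⟨m, hm, fun m' hm' => ?_⟩
    rw [hms]
    exact le_csSup hbdd ⟨m', hm', rfl⟩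
  obtain ⟨f, hf, hPf, hfr⟩ := (hR m _).1 (hmin m hm)
  obtain ⟨q, hq, hPq, hqr⟩ := (hR (f m) _).1 (hmin (f m) hPf)
  have h1 := hmax (f m) hPf
  have hqf : ¬ Function.Bijective (q ∘ₗ f) := by
    intro hb
    apply hf
    apply IsArtinian.bijective_of_injective_endomorphism
    have : Function.Injective (q ∘ f) := hb.1
    exact this.of_comp
  have h2 : sInf (R m) ≤ ell (LinearMap.range (q ∘ₗ f)) :=
    Nat.sInf_le ((hR m _).2 ⟨q ∘ₗ f, hqf, hPq, rfl⟩)
  have hrle : LinearMap.range (q ∘ₗ f) ≤ LinearMap.range q := LinearMap.range_comp_le_range f q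
  have h3 : LinearMap.range (q ∘ₗ f) = LinearMap.range q := by
    by_contra hne
    have := hlt _ _ (lt_of_le_of_ne hrle hne)
    omega
  have h4 : ell (LinearMap.range (q ∘ₗ f)) = ell (LinearMap.range f) := by
    have := hle _ _ hrle
    omega
  have hdisj : Disjoint (LinearMap.range f) (LinearMap.ker q) := by
    apply harada_sai_inj
    rw [← hell, ← hell, h4]
  have hcod : Codisjoint (LinearMap.range f) (LinearMap.ker q) := by
    rw [codisjoint_iff, eq_top_iff]
    intro x _
    have hx : q x ∈ LinearMap.range (q ∘ₗ f) := by rw [h3]; exact ⟨x, rfl⟩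
    obtain ⟨y, hy⟩ := hx
    rw [Submodule.mem_sup]
    refine ⟨f y, ⟨y, rfl⟩, x - f y, ?_, by abel⟩
    rw [LinearMap.mem_ker, map_sub, sub_eq_zero]
    exact hy.symm
  rcases hind _ _ ⟨hdisj, hcod⟩ with h | h
  · have : f m ∈ LinearMap.range f := ⟨m, rfl⟩
    rw [h, Submodule.mem_bot] at this
    rw [this] at hPf
    exact h0 hPf
  · exact hq (IsArtinian.bijective_of_injective_endomorphism _ (LinearMap.ker_eq_bot.1 h))

end Zg
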