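import Pool.Agent.Helper462.Zg.Defs
import Pool.Agent.Helper462.Zg.Dual

/-!
# The Ziegler spectrum: definitions

Modules are left modules over a ring `R`; right modules over `S` are left modules over `Sᵐᵒᵖ`.
Everything lives in one universe `u`.
-/

namespace Zg

universe u





theorem hull_indecomposable_bij {A : Type u} [Ring A] {M : Type u} [AddCommGroup M] [Module A M]
    [IsNoetherian A M] [IsArtinian A M] (hM : IsIndecomposable A M) (u : Module.End A M) :
    Function.Bijective u ∨ IsNilpotent u := by
  obtain ⟨n, hn0, hn⟩ := ((Filter.eventually_ge_atTop 1).and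
    (LinearMap.eventually_isCompl_ker_pow_range_pow u)).exists
  rcases hM.2 _ _ hn with h | h
  · left
    apply IsArtinian.bijective_of_injective_endomorphism
    intro x y hxy
    have hx : x - y ∈ LinearMap.ker (u ^ n) := by
      rw [LinearMap.mem_ker]
      obtain ⟨m, rfl⟩ : ∃ m, n = m + 1 := ⟨n - 1, by omega⟩
      rw [pow_succ, Module.End.mul_apply, map_sub, hxy, sub_self, map_zero]
    rw [h, Submodule.mem_bot] at hx
    exact sub_eq_zero.1 hx
  · right
    exact ⟨n, LinearMap.range_eq_bot.1 h⟩

theorem hull_indecomposable_local {A : Type u} [Ring A] {M : Type u} [AddCommGroup M] [Module A M]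
    [IsNoetherian A M] [IsArtinian A M] (hM : IsIndecomposable A M) (u v : Module.End A M)
    (h : u + v = 1) : Function.Bijective u ∨ Function.Bijective v := by
  rcases hull_indecomposable_bij hM u with h1 | h1
  · exact Or.inl h1
  · right
    have h2 : v = 1 - u := by rw [← h]; abel
    rw [← Module.End.isUnit_iff, h2]
    exact h1.isUnit_one_sub

theorem hull_indecomposable_factor {A : Type u} [Ring A] {F M Q : Type u} [AddCommGroup F]
    [Module A F] [AddCommGroup M] [Module A M] [AddCommGroup Q] [Module A Q] (p : F →ₗ[A] M)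
    (hp : Function.Surjective p) (g : F →ₗ[A] Q) (h : LinearMap.ker p ≤ LinearMap.ker g) :
    ∃ u : M →ₗ[A] Q, ∀ x, u (p x) = g x := by
  refine ⟨(LinearMap.ker p).liftQ g h ∘ₗ ((p.quotKerEquivOfSurjective hp).symm : _ →ₗ[A] _), ?_⟩
  intro x
  simp only [LinearMap.comp_apply, LinearEquiv.coe_coe]
  rw [LinearMap.quotKerEquivOfSurjective_symm_apply]
  rfl

/-- a solvable system is sent to a solvable system -/
theorem hull_indecomposable_map {A : Type u} [Ring A] {M Q : Type u} [AddCommGroup M]
    [Module A M] [AddCommGroup Q] [Module A Q] {m l : ℕ} (B : Fin l → Fin m → A) (c : Fin l → M)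
    (f : M →ₗ[A] Q) (h : Solvable B c) : Solvable B (fun j => f (c j)) := by
  obtain ⟨z, hz⟩ := h
  refine ⟨fun i => f (z i), fun j => ?_⟩
  beta_reduce
  rw [← hz j, map_sum]
  simp

theorem hull_indecomposable_main {A : Type u} [Ring A] [IsNoetherianRing A]
    {M N : Type u} [AddCommGroup M] [Module A M] [AddCommGroup N] [Module A N]
    [IsNoetherian A M] [IsArtinian A M] (hM : IsIndecomposable A M) (i : M →ₗ[A] N)
    (hi : IsPureEmbedding i) (p q : N →ₗ[A] N) (hpq : ∀ x, p x + q x = x)
    {m l m' l' : ℕ} (B : Fin l → Fin m → A) (c : Fin l → M)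
    (B' : Fin l' → Fin m' → A) (c' : Fin l' → M)
    (h1 : Solvable B (fun j => p (i (c j)))) (h2 : Solvable B' (fun j => q (i (c' j)))) :
    Solvable B c ∨ Solvable B' c' := by
  classical
  obtain ⟨n, π, hπ⟩ := Module.Finite.exists_fin' A M
  have hK : (LinearMap.ker π).FG := IsNoetherian.noetherian _
  obtain ⟨r, κ, hκ⟩ := Submodule.fg_iff_exists_fin_generating_family.1 hK
  let x : Fin n → M := fun t => π (Pi.single t 1)
  have hπx : ∀ d : Fin n → A, π d = ∑ t, d t • x t := by
    intro d
    have h3 : d = ∑ t, d t • (Pi.single t 1 : Fin n → A) := by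
      funext s
      simp [Finset.sum_apply, Pi.single_apply]
    conv_lhs => rw [h3]
    rw [map_sum]
    simp [x]
  choose γ hγ using fun j => hπ (c j)
  choose γ' hγ' using fun j => hπ (c' j)
  obtain ⟨w, hw⟩ := h1
  obtain ⟨w', hw'⟩ := h2
  -- the system
  let I := (Fin n ⊕ Fin n) ⊕ (Fin m ⊕ Fin m')
  let J := (Fin n ⊕ (Fin r ⊕ Fin r)) ⊕ (Fin l ⊕ Fin l')
  let z1 : Fin n → I := fun t => Sum.inl (Sum.inl t)
  let z2 : Fin n → I := fun t => Sum.inl (Sum.inr t)
  let w1 : Fin m → I := fun t => Sum.inr (Sum.inl t)
  let w2 : Fin m' → I := fun t => Sum.inr (Sum.inr t)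
  let a : J → (I →₀ A) := fun j => match j with
    | Sum.inl (Sum.inl t) => Finsupp.single (z1 t) 1 + Finsupp.single (z2 t) 1
    | Sum.inl (Sum.inr (Sum.inl s)) => ∑ t, Finsupp.single (z1 t) (κ s t)
    | Sum.inl (Sum.inr (Sum.inr s)) => ∑ t, Finsupp.single (z2 t) (κ s t)
    | Sum.inr (Sum.inl s) => (∑ t, Finsupp.single (w1 t) (B s t)) -
        ∑ t, Finsupp.single (z1 t) (γ s t)
    | Sum.inr (Sum.inr s) => (∑ t, Finsupp.single (w2 t) (B' s t)) -
        ∑ t, Finsupp.single (z2 t) (γ' s t)
  let b : J → M := fun j => match j with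
    | Sum.inl (Sum.inl t) => x t
    | _ => 0
  have key := hi.finset (I := I) (J := J) Finset.univ a b (by
    refine ⟨fun k => match k with
      | Sum.inl (Sum.inl t) => p (i (x t))
      | Sum.inl (Sum.inr t) => q (i (x t))
      | Sum.inr (Sum.inl t) => w t
      | Sum.inr (Sum.inr t) => w' t, ?_⟩
    have hκ0 : ∀ s, ∑ t, κ s t • x t = 0 := by
      intro s
      rw [← hπx]
      have : κ s ∈ LinearMap.ker π := by rw [← hκ]; exact Submodule.subset_span ⟨s, rfl⟩
      exact this
    rintro ((t | (s | s)) | (s | s)) -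
    · simp only [a, b, z1, z2, map_add, Finsupp.linearCombination_single, one_smul]
      exact hpq _
    · simp only [a, b, z1, map_sum, Finsupp.linearCombination_single, map_zero]
      have := congrArg (fun y => p (i y)) (hκ0 s)
      simpa [map_sum] using this
    · simp only [a, b, z2, map_sum, Finsupp.linearCombination_single, map_zero]
      have := congrArg (fun y => q (i y)) (hκ0 s)
      simpa [map_sum] using this
    · simp only [a, b, z1, w1, map_sum, map_sub, Finsupp.linearCombination_single, map_zero]
      rw [hw s]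
      beta_reduce
      rw [← hγ s, hπx]
      simp [map_sum]
    · simp only [a, b, z2, w2, map_sum, map_sub, Finsupp.linearCombination_single, map_zero]
      rw [hw' s]
      beta_reduce
      rw [← hγ' s, hπx]
      simp [map_sum])
  obtain ⟨y, hy⟩ := key
  have e1 : ∀ t, y (z1 t) + y (z2 t) = x t := by
    intro t
    have := hy (Sum.inl (Sum.inl t)) (Finset.mem_univ _)
    simpa only [a, b, map_add, Finsupp.linearCombination_single, one_smul] using this
  have e2 : ∀ s, ∑ t, κ s t • y (z1 t) = 0 := by
    intro s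
    have := hy (Sum.inl (Sum.inr (Sum.inl s))) (Finset.mem_univ _)
    simpa only [a, b, map_sum, Finsupp.linearCombination_single] using this
  have e3 : ∀ s, ∑ t, κ s t • y (z2 t) = 0 := by
    intro s
    have := hy (Sum.inl (Sum.inr (Sum.inr s))) (Finset.mem_univ _)
    simpa only [a, b, map_sum, Finsupp.linearCombination_single] using this
  have e4 : ∀ s, ∑ t, B s t • y (w1 t) = ∑ t, γ s t • y (z1 t) := by
    intro s
    have := hy (Sum.inr (Sum.inl s)) (Finset.mem_univ _)
    simp only [a, b, map_sum, map_sub, Finsupp.linearCombination_single] at this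
    exact sub_eq_zero.1 this
  have e5 : ∀ s, ∑ t, B' s t • y (w2 t) = ∑ t, γ' s t • y (z2 t) := by
    intro s
    have := hy (Sum.inr (Sum.inr s)) (Finset.mem_univ _)
    simp only [a, b, map_sum, map_sub, Finsupp.linearCombination_single] at this
    exact sub_eq_zero.1 this
  have hex : ∀ z : Fin n → M, (∀ s, ∑ t, κ s t • z t = 0) →
      ∃ u : Module.End A M, ∀ d : Fin n → A, u (π d) = ∑ t, d t • z t := by
    intro z hz
    obtain ⟨u, hu⟩ := hull_indecomposable_factor π hπ (Fintype.linearCombination A z) (by
      rw [← hκ, Submodule.span_le]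
      rintro _ ⟨s, rfl⟩
      show Fintype.linearCombination A z (κ s) = 0
      rw [Fintype.linearCombination_apply]
      exact hz s)
    refine ⟨u, fun d => ?_⟩
    rw [hu d, Fintype.linearCombination_apply]
  obtain ⟨u, hu⟩ := hex _ e2
  obtain ⟨v, hv⟩ := hex _ e3
  have huv : u + v = 1 := by
    refine LinearMap.ext fun m₀ => ?_
    obtain ⟨d, rfl⟩ := hπ m₀
    rw [LinearMap.add_apply, hu, hv, ← Finset.sum_add_distrib, Module.End.one_apply, hπx]
    exact Finset.sum_congr rfl fun t _ => by rw [← smul_add, e1]
  have back : ∀ (g : Module.End A M), Function.Bijective g → ∀ {m l : ℕ} (B : Fin l → Fin m → A)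
      (c : Fin l → M), Solvable B (fun j => g (c j)) → Solvable B c := by
    intro g hg m l B c h
    let e := LinearEquiv.ofBijective g hg
    have h3 := hull_indecomposable_map B _ (e.symm : M →ₗ[A] M) h
    have h4 : (fun j => (e.symm : M →ₗ[A] M) (g (c j))) = c := by
      funext j
      exact e.symm_apply_apply (c j)
    rwa [h4] at h3
  rcases hull_indecomposable_local hM u v huv with h | h
  · left
    apply back u h
    refine ⟨fun t => y (w1 t), fun s => ?_⟩
    rw [e4 s, ← hu, hγ]
  · right
    apply back v h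
    refine ⟨fun t => y (w2 t), fun s => ?_⟩
    rw [e5 s, ← hv, hγ']

/-- The pure-injective hull of an indecomposable module of finite length is indecomposable. -/
theorem hull_indecomposable {A : Type u} [Ring A] [IsNoetherianRing A]
    {M N : Type u} [AddCommGroup M] [Module A M] [AddCommGroup N] [Module A N]
    (hfl : IsFiniteLength A M) (hM : IsIndecomposable A M) (i : M →ₗ[A] N)
    (hi : IsPureInjectiveHull i) : IsIndecomposable A N := by
  obtain ⟨hN, hA⟩ := isFiniteLength_iff_isNoetherian_isArtinian.1 hfl
  obtain ⟨hpe, hpi, hend⟩ := hi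
  have := hM.1
  refine ⟨hpe.1.nontrivial, fun N₁ N₂ hc => ?_⟩
  have hadd := Submodule.projection_add_projection_eq_self hc
  -- conclusion from purity
  have concl : ∀ p : N →ₗ[A] N, (∀ (m l : ℕ) (B : Fin l → Fin m → A) (c : Fin l → M),
      Solvable B (fun j => p (i (c j))) → Solvable B c) → LinearMap.ker p = ⊥ := by
    intro p hp
    have hpure : IsPureEmbedding (p ∘ₗ i) := by
      refine ⟨fun x y hxy => ?_, fun m l B c h => hp m l B c h⟩
      have h0 : p (i (x - y)) = 0 := by
        have h1 : p (i x) = p (i y) := hxy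
        rw [map_sub, map_sub, h1, sub_self]
      obtain ⟨z, hz⟩ := hp 0 1 (fun _ k => k.elim0) (fun _ => x - y)
        ⟨fun k => k.elim0, fun j => by
          beta_reduce
          rw [h0]; simp⟩
      have := hz 0
      simp only [Finset.univ_eq_empty, Finset.sum_empty] at this
      exact sub_eq_zero.1 this.symm
    obtain ⟨s, hs⟩ := hpi M N (p ∘ₗ i) hpure i
    have hb := hend (s ∘ₗ p) (by rw [LinearMap.comp_assoc]; exact hs)
    rw [LinearMap.ker_eq_bot]
    intro x y hxy
    apply hb.1
    simp only [LinearMap.comp_apply]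
    rw [hxy]
  by_cases h1 : ∀ (m l : ℕ) (B : Fin l → Fin m → A) (c : Fin l → M),
      Solvable B (fun j => (N₁.projection N₂ hc) (i (c j))) → Solvable B c
  · right
    have := concl _ h1
    rwa [Submodule.ker_projection] at this
  · left
    have h2 : ∀ (m l : ℕ) (B : Fin l → Fin m → A) (c : Fin l → M),
        Solvable B (fun j => (N₂.projection N₁ hc.symm) (i (c j))) → Solvable B c := by
      intro m' l' B' c' h'
      push Not at h1
      obtain ⟨m, l, B, c, hs, hns⟩ := h1
      rcases hull_indecomposable_main hM i hpe _ _ hadd B c B' c' hs h' with h | h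
      · exact absurd h hns
      · exact h
    have := concl _ h2
    rwa [Submodule.ker_projection] at this

end Zg
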