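import Pool.Agent.Helper462.Zg.Sl2Def

namespace Zg

universe u


/-- exponents, ordered lexicographically -/
abbrev T3 : Type := ℕ ×ₗ (ℕ ×ₗ ℕ)

def mk3 (b a c : ℕ) : T3 := toLex (b, toLex (a, c))

theorem mk3_lt (b a c b' a' c' : ℕ) : mk3 b a c < mk3 b' a' c' ↔
    b < b' ∨ (b = b' ∧ (a < a' ∨ (a = a' ∧ c < c'))) := by
  simp [mk3, Prod.Lex.toLex_lt_toLex]

theorem exists_mk3 (d : T3) : ∃ b a c, d = mk3 b a c :=
  ⟨(ofLex d).1, (ofLex (ofLex d).2).1, (ofLex (ofLex d).2).2, rfl⟩

section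
variable (k : Type u) [Field k] {A : Type u} [Ring A] [Algebra k A] (e f h : A)

def mon (d : T3) : A :=
  e ^ (ofLex (ofLex d).2).2 * h ^ (ofLex (ofLex d).2).1 * f ^ (ofLex d).1

theorem mon_mk (b a c : ℕ) : mon e f h (mk3 b a c) = e ^ c * h ^ a * f ^ b := rfl

def GG (d : T3) : Submodule k A := Submodule.span k (mon e f h '' Set.Iio d)

def GE (d : T3) : Submodule k A := Submodule.span k (mon e f h '' Set.Iic d)

variable {e f h}

theorem GG_mono {d d' : T3} (hd : d ≤ d') : GG k e f h d ≤ GG k e f h d' :=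
  Submodule.span_mono (Set.image_mono (Set.Iio_subset_Iio hd))

theorem GE_mono {d d' : T3} (hd : d ≤ d') : GE k e f h d ≤ GE k e f h d' :=
  Submodule.span_mono (Set.image_mono (Set.Iic_subset_Iic.2 hd))

theorem mon_mem_GG {d d' : T3} (hd : d < d') : mon e f h d ∈ GG k e f h d' :=
  Submodule.subset_span ⟨d, hd, rfl⟩

theorem mon_mem_GE (d : T3) : mon e f h d ∈ GE k e f h d :=
  Submodule.subset_span ⟨d, Set.mem_Iic.2 le_rfl, rfl⟩

theorem GG_cases {d : T3} {u : A} (hu : u ∈ GG k e f h d) :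
    u = 0 ∨ ∃ d' < d, u ∈ GE k e f h d' := by
  unfold GG at hu
  induction hu using Submodule.span_induction with
  | mem x hx =>
    obtain ⟨d', hd', rfl⟩ := hx
    exact Or.inr ⟨d', hd', mon_mem_GE k d'⟩
  | zero => exact Or.inl rfl
  | add x y _ _ hx hy =>
    rcases hx with rfl | ⟨d1, h1, hx⟩
    · rw [zero_add]; exact hy
    · rcases hy with rfl | ⟨d2, h2, hy⟩
      · rw [add_zero]; exact Or.inr ⟨d1, h1, hx⟩
      · exact Or.inr ⟨max d1 d2, max_lt h1 h2,
          Submodule.add_mem _ (GE_mono k (le_max_left _ _) hx) (GE_mono k (le_max_right _ _) hy)⟩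
  | smul a x _ hx =>
    rcases hx with rfl | ⟨d1, h1, hx⟩
    · exact Or.inl (smul_zero _)
    · exact Or.inr ⟨d1, h1, Submodule.smul_mem _ _ hx⟩

theorem GE_cases {d : T3} {u : A} (hu : u ∈ GE k e f h d) :
    ∃ α : k, u - α • mon e f h d ∈ GG k e f h d := by
  unfold GE at hu
  induction hu using Submodule.span_induction with
  | mem x hx =>
    obtain ⟨d', hd', rfl⟩ := hx
    rcases eq_or_lt_of_le (Set.mem_Iic.1 hd') with rfl | hlt
    · exact ⟨1, by simp⟩
    · exact ⟨0, by simpa using mon_mem_GG k hlt⟩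
  | zero => exact ⟨0, by simp⟩
  | add x y _ _ hx hy =>
    obtain ⟨α, hx⟩ := hx
    obtain ⟨β, hy⟩ := hy
    refine ⟨α + β, ?_⟩
    have : x + y - (α + β) • mon e f h d = (x - α • mon e f h d) + (y - β • mon e f h d) := by
      rw [add_smul]; abel
    rw [this]
    exact Submodule.add_mem _ hx hy
  | smul a x _ hx =>
    obtain ⟨α, hx⟩ := hx
    refine ⟨a * α, ?_⟩
    have : a • x - (a * α) • mon e f h d = a • (x - α • mon e f h d) := by
      rw [smul_sub, mul_smul]
    rw [this]
    exact Submodule.smul_mem _ _ hx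

/-! multiplication rules -/

variable {k}

theorem h_epow (H : Sl2Gen k e f h) (c : ℕ) : h * e ^ c = e ^ c * h + (2 * c : ℕ) • e ^ c := by
  have he : h * e = e * h + 2 * e := by
    have := H.he
    rw [sub_eq_iff_eq_add] at this
    rw [this]; abel
  induction c with
  | zero => simp
  | succ c ih =>
    have : h * e ^ (c + 1) = (h * e ^ c) * e := by rw [pow_succ, mul_assoc]
    rw [this, ih, add_mul, mul_assoc, he, mul_add, ← mul_assoc, ← pow_succ, smul_mul_assoc,
      ← pow_succ]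
    have h2 : e ^ c * (2 * e) = 2 • e ^ (c + 1) := by
      rw [two_mul, mul_add, ← pow_succ, two_smul]
    rw [h2, add_assoc, ← add_smul]
    congr 2
    ring

theorem f_hpow (H : Sl2Gen k e f h) (a : ℕ) : f * h ^ a = (h + 2) ^ a * f := by
  have hf : f * h = (h + 2) * f := by
    have := H.hf
    rw [sub_eq_iff_eq_add] at this
    rw [add_mul, this]; abel
  induction a with
  | zero => simp
  | succ a ih =>
    rw [pow_succ, ← mul_assoc, ih, mul_assoc, hf, ← mul_assoc, ← pow_succ]

theorem f_epow (H : Sl2Gen k e f h) (c : ℕ) :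
    f * e ^ (c + 1) = e ^ (c + 1) * f - (c + 1 : ℕ) • (e ^ c * h + c • e ^ c) := by
  have hfe : f * e = e * f - h := by
    have := H.ef
    rw [sub_eq_iff_eq_add] at this
    rw [this]; abel
  induction c with
  | zero => simp [hfe]
  | succ c ih =>
    have h1 : f * e ^ (c + 1 + 1) = (f * e) * e ^ (c + 1) := by
      rw [pow_succ' e (c + 1), mul_assoc]
    rw [h1, hfe, sub_mul, mul_assoc, ih, h_epow H (c + 1), mul_sub, ← mul_assoc, ← pow_succ',
      mul_smul_comm, mul_add, ← mul_assoc, ← pow_succ', mul_smul_comm, ← pow_succ']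
    generalize e ^ (c + 1) * h = X
    generalize e ^ (c + 1) = Z
    generalize e ^ (c + 1 + 1) * f = Y
    simp only [nsmul_eq_mul]
    push_cast
    noncomm_ring

variable (k)

theorem e_mon (d : ℕ × ℕ × ℕ) : e * mon e f h (mk3 d.1 d.2.1 d.2.2) =
    mon e f h (mk3 d.1 d.2.1 (d.2.2 + 1)) := by
  rw [mon_mk, mon_mk, pow_succ', mul_assoc, mul_assoc, mul_assoc]

variable {k} in
theorem h_mon (H : Sl2Gen k e f h) (b a c : ℕ) : h * mon e f h (mk3 b a c) -
    mon e f h (mk3 b (a + 1) c) ∈ GG k e f h (mk3 b (a + 1) c) := by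
  have e1 : h * mon e f h (mk3 b a c) - mon e f h (mk3 b (a + 1) c) =
      ((2 * c : ℕ) : k) • mon e f h (mk3 b a c) := by
    rw [mon_mk, mon_mk, Nat.cast_smul_eq_nsmul, ← mul_assoc, ← mul_assoc, h_epow H c, add_mul,
      add_mul, smul_mul_assoc, smul_mul_assoc, pow_succ' h a, ← mul_assoc]
    abel
  rw [e1]
  refine Submodule.smul_mem _ _ (mon_mem_GG k ?_)
  rw [mk3_lt]
  right
  exact ⟨rfl, Or.inl (Nat.lt_succ_self a)⟩

variable {k} in
theorem hpow_aux (b a c : ℕ) : e ^ c * (h + 2) ^ a * f ^ b -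
    mon e f h (mk3 b a c) ∈ GG k e f h (mk3 b a c) := by
  have hc : Commute h (2 : A) := (Commute.ofNat_right h 2)
  rw [hc.add_pow, Finset.sum_range_succ]
  simp only [Nat.sub_self, pow_zero, mul_one, Nat.choose_self, Nat.cast_one]
  rw [mul_add, add_mul, mon_mk, add_sub_cancel_right, Finset.mul_sum, Finset.sum_mul]
  refine Submodule.sum_mem _ fun m hm => ?_
  have hm' : m < a := Finset.mem_range.1 hm
  have e1 : e ^ c * (h ^ m * 2 ^ (a - m) * (a.choose m : A)) * f ^ b =
      ((2 ^ (a - m) * a.choose m : ℕ) : k) • mon e f h (mk3 b m c) := by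
    rw [mon_mk, Nat.cast_smul_eq_nsmul, nsmul_eq_mul]
    have e2 : h ^ m * 2 ^ (a - m) * (a.choose m : A) = ((2 ^ (a - m) * a.choose m : ℕ) : A) * h ^ m := by
      rw [mul_assoc, ← Nat.cast_ofNat (R := A) (n := 2), ← Nat.cast_pow, ← Nat.cast_mul]
      exact (Nat.cast_commute _ _).symm
    rw [e2, ← mul_assoc, ← (Nat.cast_commute (2 ^ (a - m) * a.choose m) (e ^ c)).eq, mul_assoc,
      mul_assoc, mul_assoc]
  rw [e1]
  refine Submodule.smul_mem _ _ (mon_mem_GG k ?_)
  rw [mk3_lt]
  right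
  exact ⟨rfl, Or.inl hm'⟩

variable {k} in
theorem f_mon (H : Sl2Gen k e f h) (b a c : ℕ) : f * mon e f h (mk3 b a c) -
    mon e f h (mk3 (b + 1) a c) ∈ GG k e f h (mk3 (b + 1) a c) := by
  cases c with
  | zero =>
    have := hpow_aux (k := k) (e := e) (f := f) (h := h) (b + 1) a 0
    rw [pow_zero, one_mul] at this
    have e1 : f * mon e f h (mk3 b a 0) = (h + 2) ^ a * f ^ (b + 1) := by
      rw [mon_mk, pow_zero, one_mul, ← mul_assoc, f_hpow H a, pow_succ' f b, mul_assoc]
    rw [e1]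
    exact this
  | succ c =>
    have h1 := hpow_aux (k := k) (e := e) (f := f) (h := h) (b + 1) a (c + 1)
    have e1 : f * mon e f h (mk3 b a (c + 1)) - mon e f h (mk3 (b + 1) a (c + 1)) =
        (e ^ (c + 1) * (h + 2) ^ a * f ^ (b + 1) - mon e f h (mk3 (b + 1) a (c + 1))) -
        (((c + 1 : ℕ) : k) • mon e f h (mk3 b (a + 1) c) +
          (((c + 1) * c : ℕ) : k) • mon e f h (mk3 b a c)) := by
      have e2 : f * (e ^ (c + 1) * h ^ a * f ^ b) = e ^ (c + 1) * (h + 2) ^ a * f ^ (b + 1) -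
          ((c + 1 : ℕ) • (e ^ c * h ^ (a + 1) * f ^ b) + ((c + 1) * c : ℕ) • (e ^ c * h ^ a * f ^ b)) := by
        rw [← mul_assoc, ← mul_assoc, f_epow H c, sub_mul, sub_mul, mul_assoc (e ^ (c + 1)) f,
          f_hpow H a, smul_mul_assoc, smul_mul_assoc, add_mul, add_mul, smul_mul_assoc,
          smul_mul_assoc, smul_add, smul_smul, pow_succ' f b, pow_succ' h a]
        simp only [mul_assoc]
      rw [mon_mk, mon_mk, mon_mk, mon_mk, Nat.cast_smul_eq_nsmul, Nat.cast_smul_eq_nsmul, e2]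
      abel
    rw [e1]
    refine Submodule.sub_mem _ h1 (Submodule.add_mem _ (Submodule.smul_mem _ _ (mon_mem_GG k ?_))
      (Submodule.smul_mem _ _ (mon_mem_GG k ?_)))
    · rw [mk3_lt]; left; exact Nat.lt_succ_self b
    · rw [mk3_lt]; left; exact Nat.lt_succ_self b

/-- multiplication by `x` raises the order by `s` -/
theorem mul_GG {x : A} {s : ℕ × ℕ × ℕ}
    (hx : ∀ b a c, x * mon e f h (mk3 b a c) - mon e f h (mk3 (b + s.1) (a + s.2.1) (c + s.2.2)) ∈
      GG k e f h (mk3 (b + s.1) (a + s.2.1) (c + s.2.2))) {b a c : ℕ} {u : A}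
    (hu : u ∈ GG k e f h (mk3 b a c)) :
    x * u ∈ GG k e f h (mk3 (b + s.1) (a + s.2.1) (c + s.2.2)) := by
  unfold GG at hu
  induction hu using Submodule.span_induction with
  | mem y hy =>
    obtain ⟨d', hd', rfl⟩ := hy
    obtain ⟨b', a', c', rfl⟩ := exists_mk3 d'
    have hlt : mk3 (b' + s.1) (a' + s.2.1) (c' + s.2.2) < mk3 (b + s.1) (a + s.2.1) (c + s.2.2) := by
      have := (mk3_lt _ _ _ _ _ _).1 (Set.mem_Iio.1 hd')
      rw [mk3_lt]
      omega
    have h1 := GG_mono k hlt.le (hx b' a' c')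
    have h2 := mon_mem_GG (e := e) (f := f) (h := h) k hlt
    have := Submodule.add_mem _ h1 h2
    simpa using this
  | zero => simp
  | add y z _ _ hy hz => rw [mul_add]; exact Submodule.add_mem _ hy hz
  | smul α y _ hy => rw [mul_smul_comm]; exact Submodule.smul_mem _ _ hy

variable {k} in
theorem ex (H : Sl2Gen k e f h) (b a c : ℕ) : e * mon e f h (mk3 b a c) -
    mon e f h (mk3 (b + 0) (a + 0) (c + 1)) ∈ GG k e f h (mk3 (b + 0) (a + 0) (c + 1)) := by
  have := e_mon (e := e) (f := f) (h := h) (b, a, c)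
  simp only at this
  rw [this]
  simp

/-- leading exponents of a left ideal -/
def LM (N : Submodule A A) : Set (ℕ × ℕ × ℕ) :=
  {d | ∃ u ∈ N, u - mon e f h (mk3 d.1 d.2.1 d.2.2) ∈ GG k e f h (mk3 d.1 d.2.1 d.2.2)}

theorem LM_step {x : A} {s : ℕ × ℕ × ℕ}
    (hx : ∀ b a c, x * mon e f h (mk3 b a c) - mon e f h (mk3 (b + s.1) (a + s.2.1) (c + s.2.2)) ∈
      GG k e f h (mk3 (b + s.1) (a + s.2.1) (c + s.2.2))) {N : Submodule A A} {d : ℕ × ℕ × ℕ}
    (hd : d ∈ LM (e := e) (f := f) (h := h) k N) : d + s ∈ LM (e := e) (f := f) (h := h) k N := by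
  obtain ⟨u, hu, hud⟩ := hd
  refine ⟨x * u, N.smul_mem x hu, ?_⟩
  have h1 := mul_GG k hx hud
  have h2 := hx d.1 d.2.1 d.2.2
  have := Submodule.add_mem _ h1 h2
  rw [mul_sub] at this
  simpa using this

theorem LM_mono {N N' : Submodule A A} (hN : N ≤ N') :
    LM (e := e) (f := f) (h := h) k N ⊆ LM (e := e) (f := f) (h := h) k N' := by
  rintro d ⟨u, hu, hud⟩
  exact ⟨u, hN hu, hud⟩

variable {k} in
theorem LM_up (H : Sl2Gen k e f h) {N : Submodule A A} {d d' : ℕ × ℕ × ℕ}
    (hd : d ∈ LM (e := e) (f := f) (h := h) k N) (hdd : d ≤ d') :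
    d' ∈ LM (e := e) (f := f) (h := h) k N := by
  have s1 : ∀ d ∈ LM (e := e) (f := f) (h := h) k N, d + (0, 0, 1) ∈ LM (e := e) (f := f) (h := h) k N :=
    fun d hd => LM_step k (x := e) (s := (0, 0, 1)) (fun b a c => ex H b a c) hd
  have s2 : ∀ d ∈ LM (e := e) (f := f) (h := h) k N, d + (0, 1, 0) ∈ LM (e := e) (f := f) (h := h) k N :=
    fun d hd => LM_step k (x := h) (s := (0, 1, 0)) (fun b a c => h_mon H b a c) hd
  have s3 : ∀ d ∈ LM (e := e) (f := f) (h := h) k N, d + (1, 0, 0) ∈ LM (e := e) (f := f) (h := h) k N :=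
    fun d hd => LM_step k (x := f) (s := (1, 0, 0)) (fun b a c => f_mon H b a c) hd
  have t1 : ∀ n : ℕ, ∀ d ∈ LM (e := e) (f := f) (h := h) k N,
      d + (0, 0, n) ∈ LM (e := e) (f := f) (h := h) k N := by
    intro n
    induction n with
    | zero => intro d hd; rw [show d + ((0, 0, 0) : ℕ × ℕ × ℕ) = d from add_zero d]; exact hd
    | succ n ih =>
      intro d hd
      have := s1 _ (ih d hd)
      rw [add_assoc] at this
      simpa using this
  have t2 : ∀ n : ℕ, ∀ d ∈ LM (e := e) (f := f) (h := h) k N,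
      d + (0, n, 0) ∈ LM (e := e) (f := f) (h := h) k N := by
    intro n
    induction n with
    | zero => intro d hd; rw [show d + ((0, 0, 0) : ℕ × ℕ × ℕ) = d from add_zero d]; exact hd
    | succ n ih =>
      intro d hd
      have := s2 _ (ih d hd)
      rw [add_assoc] at this
      simpa using this
  have t3 : ∀ n : ℕ, ∀ d ∈ LM (e := e) (f := f) (h := h) k N,
      d + (n, 0, 0) ∈ LM (e := e) (f := f) (h := h) k N := by
    intro n
    induction n with
    | zero => intro d hd; rw [show d + ((0, 0, 0) : ℕ × ℕ × ℕ) = d from add_zero d]; exact hd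
    | succ n ih =>
      intro d hd
      have := s3 _ (ih d hd)
      rw [add_assoc] at this
      simpa using this
  obtain ⟨b, a, c⟩ := d
  obtain ⟨b', a', c'⟩ := d'
  simp only [Prod.mk_le_mk] at hdd
  have := t1 (c' - c) _ (t2 (a' - a) _ (t3 (b' - b) _ hd))
  have e1 : ((b, a, c) : ℕ × ℕ × ℕ) + (b' - b, 0, 0) + (0, a' - a, 0) + (0, 0, c' - c) =
      (b', a', c') := by
    simp only [Prod.mk_add_mk, Prod.mk.injEq]
    omega
  rwa [e1] at this

variable {k} in
/-- every element lies in some `GE d` -/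
theorem all_GE (H : Sl2Gen k e f h) (x : A) : ∃ d, x ∈ GE k e f h d := by
  set S : Submodule k A := Submodule.span k (Set.range (mon e f h)) with hS
  have hGS : ∀ d, GG k e f h d ≤ S := fun d =>
    Submodule.span_mono (Set.image_subset_range _ _)
  have hmul : ∀ y : A, ∀ s : ℕ × ℕ × ℕ, (∀ b a c, y * mon e f h (mk3 b a c) -
      mon e f h (mk3 (b + s.1) (a + s.2.1) (c + s.2.2)) ∈
      GG k e f h (mk3 (b + s.1) (a + s.2.1) (c + s.2.2))) → ∀ u ∈ S, y * u ∈ S := by
    intro y s hy u hu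
    rw [hS] at hu
    induction hu using Submodule.span_induction with
    | mem z hz =>
      obtain ⟨d, rfl⟩ := hz
      obtain ⟨b, a, c, rfl⟩ := exists_mk3 d
      have h1 := hGS _ (hy b a c)
      have h2 : mon e f h (mk3 (b + s.1) (a + s.2.1) (c + s.2.2)) ∈ S :=
        Submodule.subset_span ⟨_, rfl⟩
      simpa using Submodule.add_mem _ h1 h2
    | zero => simp
    | add y z _ _ hy hz => rw [mul_add]; exact Submodule.add_mem _ hy hz
    | smul α y _ hy => rw [mul_smul_comm]; exact Submodule.smul_mem _ _ hy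
  have hstab : ∀ y ∈ Algebra.adjoin k {e, f, h}, ∀ u ∈ S, y * u ∈ S := by
    intro y hy
    induction hy using Algebra.adjoin_induction with
    | mem z hz =>
      rcases hz with rfl | rfl | rfl
      · exact hmul _ (0, 0, 1) (fun b a c => ex H b a c)
      · exact hmul _ (1, 0, 0) (fun b a c => f_mon H b a c)
      · exact hmul _ (0, 1, 0) (fun b a c => h_mon H b a c)
    | algebraMap r =>
      intro u hu
      rw [← Algebra.smul_def]
      exact Submodule.smul_mem _ _ hu
    | add y z _ _ hy hz =>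
      intro u hu
      rw [add_mul]
      exact Submodule.add_mem _ (hy u hu) (hz u hu)
    | mul y z _ _ hy hz =>
      intro u hu
      rw [mul_assoc]
      exact hy _ (hz u hu)
  have h1 : (1 : A) ∈ S := Submodule.subset_span ⟨mk3 0 0 0, by rw [mon_mk]; simp⟩
  have hx : x ∈ S := by
    have := hstab x (by rw [H.gen]; trivial) 1 h1
    rwa [mul_one] at this
  rw [hS] at hx
  induction hx using Submodule.span_induction with
  | mem z hz =>
    obtain ⟨d, rfl⟩ := hz
    exact ⟨d, mon_mem_GE k d⟩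
  | zero => exact ⟨mk3 0 0 0, Submodule.zero_mem _⟩
  | add y z _ _ hy hz =>
    obtain ⟨d1, hy⟩ := hy
    obtain ⟨d2, hz⟩ := hz
    exact ⟨max d1 d2, Submodule.add_mem _ (GE_mono k (le_max_left _ _) hy)
      (GE_mono k (le_max_right _ _) hz)⟩
  | smul α y _ hy =>
    obtain ⟨d1, hy⟩ := hy
    exact ⟨d1, Submodule.smul_mem _ _ hy⟩

variable {k} in
theorem eq_of_LM (H : Sl2Gen k e f h) {N N' : Submodule A A} (hN : N ≤ N')
    (hL : LM (e := e) (f := f) (h := h) k N' ⊆ LM (e := e) (f := f) (h := h) k N) : N = N' := by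
  refine le_antisymm hN ?_
  have key : ∀ d : T3, ∀ u ∈ N', u ∈ GE k e f h d → u ∈ N := by
    intro d
    induction d using WellFoundedLT.induction with
    | ind d ih =>
      have hG : ∀ u ∈ N', u ∈ GG k e f h d → u ∈ N := by
        intro u hu hud
        rcases GG_cases k hud with rfl | ⟨d', hd', hu'⟩
        · exact N.zero_mem
        · exact ih d' hd' u hu hu'
      intro u hu hud
      obtain ⟨α, hα⟩ := GE_cases k hud
      rcases eq_or_ne α 0 with rfl | hα0
      · rw [zero_smul, sub_zero] at hα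
        exact hG u hu hα
      · obtain ⟨b, a, c, rfl⟩ := exists_mk3 d
        have hsm : ∀ (β : k) (v : A) (P : Submodule A A), v ∈ P → β • v ∈ P := by
          intro β v P hv
          rw [Algebra.smul_def]
          exact P.smul_mem _ hv
        have hmem : (b, a, c) ∈ LM (e := e) (f := f) (h := h) k N' := by
          refine ⟨α⁻¹ • u, hsm _ _ _ hu, ?_⟩
          have e1 : α⁻¹ • u - mon e f h (mk3 b a c) = α⁻¹ • (u - α • mon e f h (mk3 b a c)) := by
            rw [smul_sub, smul_smul, inv_mul_cancel₀ hα0, one_smul]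
          simp only
          rw [e1]
          exact Submodule.smul_mem _ _ hα
        obtain ⟨v, hv, hvd⟩ := hL hmem
        simp only at hvd
        have h3 : u - α • v ∈ GG k e f h (mk3 b a c) := by
          have e2 : u - α • v = (u - α • mon e f h (mk3 b a c)) -
              α • (v - mon e f h (mk3 b a c)) := by
            rw [smul_sub]; abel
          rw [e2]
          exact Submodule.sub_mem _ hα (Submodule.smul_mem _ _ hvd)
        have h4 := hG _ (N'.sub_mem hu (hsm α v N' (hN hv))) h3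
        have := N.add_mem h4 (hsm α v N hv)
        simpa using this
  intro u hu
  obtain ⟨d, hd⟩ := all_GE H u
  exact key d u hu hd

end

theorem Sl2Gen.isNoetherianRing {k : Type u} [Field k] {A : Type u}
    [Ring A] [Algebra k A] {e f h : A} (H : Sl2Gen k e f h) : IsNoetherianRing A := by
  rw [isNoetherianRing_iff, ← monotone_stabilizes_iff_noetherian]
  intro F
  by_contra hcon
  push Not at hcon
  have step : ∀ n : ℕ, ∃ m : ℕ, n ≤ m ∧ ∃ d : ℕ × ℕ × ℕ, d ∈ LM (e := e) (f := f) (h := h) k (F m) ∧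
      d ∉ LM (e := e) (f := f) (h := h) k (F n) := by
    intro n
    obtain ⟨m, hnm, hne⟩ := hcon n
    refine ⟨m, hnm, ?_⟩
    by_contra hd
    push Not at hd
    exact hne (eq_of_LM H (F.monotone hnm) fun d hd' => hd d hd')
  choose nx hnx dd hd1 hd2 using step
  let s : ℕ → ℕ := fun i => nx^[i] 0
  have hs : ∀ i, s (i + 1) = nx (s i) := fun i => Function.iterate_succ_apply' _ _ _
  have hsm : Monotone s := monotone_nat_of_le_succ fun i => by rw [hs]; exact hnx _
  obtain ⟨i, j, hij, hle⟩ := wellQuasiOrdered_le (α := ℕ × ℕ × ℕ) (fun i => dd (s i))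
  have h1 := hd1 (s i)
  rw [← hs] at h1
  have h2 := LM_mono (e := e) (f := f) (h := h) k (F.monotone (hsm (Nat.succ_le_of_lt hij))) h1
  exact hd2 (s j) (LM_up H h2 hle)

end Zg
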