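import Pool.Agent.Helper462.Zg.Sl2Def

namespace Zg

universe u


section Tri

variable {k : Type u} [Field k] {V : Type u} [AddCommGroup V] [Module k V]

structure job11023_Tri (E F H : Module.End k V) : Prop where
  ef : ∀ x, E (F x) = F (E x) + H x
  he : ∀ x, H (E x) = E (H x) + (2 : k) • E x
  hf : ∀ x, H (F x) = F (H x) - (2 : k) • F x

theorem job11023_Tri.symm {E F H : Module.End k V} (t : job11023_Tri E F H) :
    job11023_Tri F E (-H) where
  ef x := by rw [t.ef]; simp
  he x := by
    simp only [LinearMap.neg_apply, t.hf, map_neg]; abel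
  hf x := by
    simp only [LinearMap.neg_apply, t.he, map_neg]; abel

theorem job11023_Tri.dual {E F H : Module.End k V} (t : job11023_Tri E F H) :
    job11023_Tri (V := Module.Dual k V) F.dualMap E.dualMap H.dualMap where
  ef g := by
    ext x
    simp [t.ef]
  he g := by
    ext x
    simp [t.hf]
  hf g := by
    ext x
    simp [t.he]

theorem job11023_nilp [CharZero k] [FiniteDimensional k V] {E F H : Module.End k V}
    (t : job11023_Tri E F H) : ∃ n : ℕ, E ^ n = 0 := by
  by_contra hne
  push Not at hne
  have hc : ∀ j : ℕ, ∀ x, H ((E ^ j) x) = (E ^ j) (H x) + (2 * (j : k)) • (E ^ j) x := by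
    intro j
    induction j with
    | zero => intro x; simp
    | succ j ih =>
      intro x
      rw [pow_succ]
      simp only [Module.End.mul_apply, ih, t.he, map_add, map_smul]
      push_cast
      module
  have hli := Module.End.eigenvectors_linearIndependent'
    (LinearMap.mulLeft k H - LinearMap.mulRight k H : Module.End k (Module.End k V))
    (fun j : ℕ => (2 * (j : k))) (by
      intro a b hab
      simpa using hab) (fun j => E ^ j) (fun j => by
      rw [Module.End.hasEigenvector_iff]
      refine ⟨?_, hne j⟩
      rw [Module.End.mem_eigenspace_iff]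
      ext x
      simp only [LinearMap.sub_apply, LinearMap.mulLeft_apply, LinearMap.mulRight_apply,
        Module.End.mul_apply, LinearMap.smul_apply, hc]
      abel)
  have := hli.finite_of_isNoetherian
  exact not_finite ℕ

theorem job11023_P {E F H : Module.End k V} (t : job11023_Tri E F H) (n : ℕ) :
    ∀ x, E ((F ^ (n + 1)) x) =
      (F ^ (n + 1)) (E x) + ((n + 1 : ℕ) : k) • (F ^ n) (H x - (n : k) • x) := by
  induction n with
  | zero => intro x; simp [t.ef]
  | succ n ih =>
    intro x
    rw [pow_succ F (n + 1)]
    simp only [Module.End.mul_apply]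
    rw [ih, t.ef, t.hf]
    rw [pow_succ F n]
    simp only [Module.End.mul_apply, map_add, map_sub, map_smul]
    push_cast
    module

theorem job11023_HF {E F H : Module.End k V} (t : job11023_Tri E F H) (j : ℕ) :
    ∀ x, H ((F ^ j) x) = (F ^ j) (H x) - (2 * (j : k)) • (F ^ j) x := by
  induction j with
  | zero => intro x; simp
  | succ j ih =>
    intro x
    rw [pow_succ]
    simp only [Module.End.mul_apply, ih, t.hf, map_sub, map_smul]
    push_cast
    module

/-- Casimir -/
def job11023_Cas (E F H : Module.End k V) : Module.End k V :=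
  H * H + (2 : k) • H + (4 : k) • (F * E)

theorem job11023_Cas_symm {E F H : Module.End k V} (t : job11023_Tri E F H) :
    job11023_Cas F E (-H) = job11023_Cas E F H := by
  ext x
  simp only [job11023_Cas, LinearMap.add_apply, Module.End.mul_apply, LinearMap.smul_apply,
    LinearMap.neg_apply, t.ef, map_neg]
  module

theorem job11023_inj [CharZero k] {E F H : Module.End k V} {c : k} {N : ℕ}
    (hc : (job11023_Cas E F H - algebraMap k _ c) ^ N = 0) (i : k)
    (hi : i * i + 2 * i ≠ c) (v : V) (hv : E v = 0) (hHv : H v = i • v) : v = 0 := by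
  have h1 : (job11023_Cas E F H - algebraMap k _ c) v = (i * i + 2 * i - c) • v := by
    simp only [job11023_Cas, LinearMap.sub_apply, LinearMap.add_apply, Module.End.mul_apply,
      LinearMap.smul_apply, hHv, hv, map_zero, map_smul, Module.algebraMap_end_apply]
    module
  have h2 : ∀ n : ℕ, ((job11023_Cas E F H - algebraMap k _ c) ^ n) v =
      (i * i + 2 * i - c) ^ n • v := by
    intro n
    induction n with
    | zero => simp
    | succ n ih =>
      rw [pow_succ', Module.End.mul_apply, ih, map_smul, h1, smul_smul, pow_succ]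
  have h3 := h2 N
  rw [hc] at h3
  simp only [LinearMap.zero_apply] at h3
  have h4 := h3.symm
  rw [smul_eq_zero] at h4
  rcases h4 with h4 | h4
  · exact absurd h4 (pow_ne_zero N (sub_ne_zero.2 hi))
  · exact h4

theorem job11023_step {E F H : Module.End k V} (t : job11023_Tri E F H) (n : ℕ) (v : V)
    (hv : E v = 0) [CharZero k] (h0 : (E ^ (n + 1)) ((F ^ (n + 1)) v) = 0) :
    E (H v - (n : k) • v) = 0 ∧ (E ^ n) ((F ^ n) (H v - (n : k) • v)) = 0 := by
  constructor
  · have := t.he v
    rw [hv] at this
    simp only [map_zero, smul_zero, add_zero] at this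
    rw [map_sub, map_smul, hv, ← this]
    simp
  · rw [pow_succ E, Module.End.mul_apply, job11023_P t, hv] at h0
    simp only [map_zero, zero_add, map_smul] at h0
    rw [smul_eq_zero] at h0
    rcases h0 with h0 | h0
    · exact absurd h0 (Nat.cast_ne_zero.2 (Nat.succ_ne_zero n))
    · exact h0

theorem job11023_L1 [CharZero k] [FiniteDimensional k V] {E F H : Module.End k V}
    (t : job11023_Tri E F H) {c : k} {N : ℕ}
    (hc : (job11023_Cas E F H - algebraMap k _ c) ^ N = 0) (m : ℕ)
    (hm : c = (m : k) * m + 2 * m) (v : V) (hv : E v = 0) : H v = (m : k) • v := by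
  have key : ∀ i : ℕ, i ≠ m → ∀ v : V, E v = 0 → H v = (i : k) • v → v = 0 := by
    intro i hi v hv hHv
    refine job11023_inj hc (i : k) ?_ v hv hHv
    rw [hm]
    intro h
    apply hi
    have : i * i + 2 * i = m * m + 2 * m := by exact_mod_cast h
    nlinarith
  have A : ∀ n : ℕ, ∀ v : V, E v = 0 → (E ^ n) ((F ^ n) v) = 0 →
      (n ≤ m → v = 0) ∧ H v = (m : k) • v := by
    intro n
    induction n with
    | zero =>
      intro v hv h0
      simp only [pow_zero, Module.End.one_apply] at h0
      subst h0
      simp
    | succ n ih =>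
      intro v hv h0
      obtain ⟨h1, h2⟩ := job11023_step t n v hv h0
      obtain ⟨h3, h4⟩ := ih _ h1 h2
      rcases lt_trichotomy n m with hlt | heq | hgt
      · have h5 := h3 hlt.le
        have h6 : v = 0 := key n hlt.ne v hv (sub_eq_zero.1 h5)
        subst h6
        simp
      · subst heq
        have h5 := h3 le_rfl
        exact ⟨fun h => by omega, sub_eq_zero.1 h5⟩
      · refine ⟨fun h => by omega, ?_⟩
        have h5 : H v - (m : k) • v = 0 := by
          apply key n hgt.ne'
          · have := t.he v
            rw [hv] at this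
            simp only [map_zero, smul_zero, add_zero] at this
            rw [map_sub, map_smul, hv, ← this]
            simp
          · rw [map_sub, map_smul] at h4 ⊢
            linear_combination (norm := module) h4
        exact sub_eq_zero.1 h5
  obtain ⟨n, hn⟩ := job11023_nilp t.symm
  exact (A n v hv (by rw [hn]; simp)).2

theorem job11023_exm [CharZero k] [FiniteDimensional k V] [Nontrivial V] {E F H : Module.End k V}
    (t : job11023_Tri E F H) {c : k} {N : ℕ}
    (hc : (job11023_Cas E F H - algebraMap k _ c) ^ N = 0) :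
    ∃ m : ℕ, c = (m : k) * m + 2 * m := by
  by_contra hne
  push Not at hne
  have key : ∀ i : ℕ, ∀ v : V, E v = 0 → H v = (i : k) • v → v = 0 := fun i v hv hHv =>
    job11023_inj hc (i : k) (fun h => hne i h.symm) v hv hHv
  have A : ∀ n : ℕ, ∀ v : V, E v = 0 → (E ^ n) ((F ^ n) v) = 0 → v = 0 := by
    intro n
    induction n with
    | zero =>
      intro v hv h0
      simpa using h0
    | succ n ih =>
      intro v hv h0
      obtain ⟨h1, h2⟩ := job11023_step t n v hv h0
      exact key n v hv (sub_eq_zero.1 (ih _ h1 h2))
  obtain ⟨n, hn⟩ := job11023_nilp t.symm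
  have hker : ∀ v, E v = 0 → v = 0 := fun v hv => A n v hv (by rw [hn]; simp)
  obtain ⟨l, hl⟩ := job11023_nilp t
  obtain ⟨x, hx⟩ := exists_ne (0 : V)
  apply hx
  have : ∀ j : ℕ, (E ^ j) x = 0 → x = 0 := by
    intro j
    induction j with
    | zero => intro h; simpa using h
    | succ j ih =>
      intro h
      rw [pow_succ', Module.End.mul_apply] at h
      exact ih (hker _ h)
  exact this l (by rw [hl]; simp)


theorem job11023_range [CharZero k] [FiniteDimensional k V] {E F H : Module.End k V}
    (t : job11023_Tri E F H) {c : k} {N : ℕ}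
    (hc : (job11023_Cas E F H - algebraMap k _ c) ^ N = 0) (m : ℕ)
    (hm : c = (m : k) * m + 2 * m) (x : V) : H x - (m : k) • x ∈ LinearMap.range F := by
  have hcas : ∀ n : ℕ, ∀ g : Module.Dual k V, ∀ x,
      (((job11023_Cas (V := Module.Dual k V) F.dualMap E.dualMap H.dualMap -
        algebraMap k _ c) ^ n) g) x = g (((job11023_Cas E F H - algebraMap k _ c) ^ n) x) := by
    intro n
    induction n with
    | zero => intro g x; simp
    | succ n ih =>
      intro g x
      rw [pow_succ, pow_succ', Module.End.mul_apply, Module.End.mul_apply, ih]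
      simp [job11023_Cas]
  have hdual : (job11023_Cas (V := Module.Dual k V) F.dualMap E.dualMap H.dualMap -
        algebraMap k _ c) ^ N = 0 := by
    ext g x
    rw [hcas, hc]
    simp
  rw [← Submodule.Quotient.mk_eq_zero] 
  by_contra hne
  obtain ⟨g, hg⟩ : ∃ g : Module.Dual k (V ⧸ LinearMap.range F),
      g (Submodule.Quotient.mk (H x - (m : k) • x)) ≠ 0 := by
    by_contra hall
    push Not at hall
    exact hne ((Module.forall_dual_apply_eq_zero_iff k _).1 hall)
  have h1 := job11023_L1 t.dual hdual m hm (g.comp (LinearMap.range F).mkQ) (by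
    ext y
    have h0 : (Submodule.Quotient.mk (F y) : V ⧸ LinearMap.range F) = 0 :=
      (Submodule.Quotient.mk_eq_zero _).2 ⟨y, rfl⟩
    simp [h0])
  have h2 := LinearMap.congr_fun h1 x
  apply hg
  simp only [LinearMap.dualMap_apply, LinearMap.comp_apply, Submodule.mkQ_apply,
    LinearMap.smul_apply] at h2
  rw [Submodule.Quotient.mk_sub, Submodule.Quotient.mk_smul, map_sub, map_smul, h2, sub_self]

theorem job11023_L2 [CharZero k] [FiniteDimensional k V] {E F H : Module.End k V}
    (t : job11023_Tri E F H) {c : k} {N : ℕ}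
    (hc : (job11023_Cas E F H - algebraMap k _ c) ^ N = 0) (m : ℕ)
    (hm : c = (m : k) * m + 2 * m) : LinearMap.ker E ⊔ LinearMap.range F = ⊤ := by
  set T : Module.End k V := H - algebraMap k _ (m : k) with hT
  have hB : ∀ j : ℕ, ∀ s : ℕ, ∀ n : ℕ, ∀ y, (E ^ j) y = 0 →
      ((H - algebraMap k _ ((m : k) + 2 * (s + 1 : ℕ))) ^ n) y = 0 → y = 0 := by
    intro j
    induction j with
    | zero => intro s n y hy _; simpa using hy
    | succ j ih =>
      intro s n y hy hn
      have hEy : E y = 0 := by
        apply ih (s + 1) n (E y)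
        · rw [pow_succ, Module.End.mul_apply] at hy; exact hy
        · have hcomm : ∀ n : ℕ, ∀ y, ((H - algebraMap k _ ((m : k) + 2 * (s + 1 + 1 : ℕ))) ^ n) (E y)
              = E (((H - algebraMap k _ ((m : k) + 2 * (s + 1 : ℕ))) ^ n) y) := by
            intro n
            induction n with
            | zero => intro y; simp
            | succ n ih =>
              intro y
              rw [pow_succ, pow_succ, Module.End.mul_apply, Module.End.mul_apply, ← ih]
              congr 1
              simp only [LinearMap.sub_apply, Module.algebraMap_end_apply, t.he, map_sub, map_smul]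
              push_cast
              module
          rw [hcomm, hn, map_zero]
      have hHy := job11023_L1 t hc m hm y hEy
      have h2 : ∀ n : ℕ, ((H - algebraMap k _ ((m : k) + 2 * (s + 1 : ℕ))) ^ n) y =
          (-(2 * (s + 1 : ℕ)) : k) ^ n • y := by
        intro n
        induction n with
        | zero => simp
        | succ n ih =>
          rw [pow_succ', Module.End.mul_apply, ih, map_smul]
          simp only [LinearMap.sub_apply, Module.algebraMap_end_apply, hHy]
          rw [pow_succ]
          module
      rw [h2, smul_eq_zero] at hn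
      rcases hn with hn | hn
      · refine absurd hn (pow_ne_zero n ?_)
        rw [neg_ne_zero]
        exact mul_ne_zero two_ne_zero (Nat.cast_ne_zero.2 (Nat.succ_ne_zero s))
      · exact hn
  obtain ⟨n, hn⟩ := (LinearMap.eventually_isCompl_ker_pow_range_pow T).exists_forall_of_atTop
  have hcompl := hn (n + 1) (Nat.le_succ n)
  rw [eq_top_iff, ← hcompl.sup_eq_top]
  refine sup_le_sup ?_ ?_
  · intro y hy
    rw [LinearMap.mem_ker] at hy ⊢
    obtain ⟨l, hl⟩ := job11023_nilp t
    apply hB l 0 (n + 1) (E y) (by rw [hl]; simp)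
    have hcomm : ∀ n : ℕ, ∀ y, ((H - algebraMap k _ ((m : k) + 2 * (0 + 1 : ℕ))) ^ n) (E y)
        = E ((T ^ n) y) := by
      intro n
      induction n with
      | zero => intro y; simp
      | succ n ih =>
        intro y
        rw [pow_succ, pow_succ, Module.End.mul_apply, Module.End.mul_apply, ← ih]
        congr 1
        simp only [hT, LinearMap.sub_apply, Module.algebraMap_end_apply, t.he, map_sub, map_smul]
        push_cast
        module
    rw [hcomm, hy, map_zero]
  · rintro _ ⟨y, rfl⟩
    rw [pow_succ', Module.End.mul_apply]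
    exact job11023_range t hc m hm _

theorem job11023_finrank [FiniteDimensional k V] {E F : Module.End k V}
    (h : LinearMap.ker E ⊔ LinearMap.range F = ⊤) :
    Module.finrank k (LinearMap.range E) ≤ Module.finrank k (LinearMap.range F) := by
  have h1 := Submodule.finrank_sup_add_finrank_inf_eq (LinearMap.ker E) (LinearMap.range F)
  rw [h, finrank_top] at h1
  have h2 := LinearMap.finrank_range_add_finrank_ker E
  omega

theorem job11023_disj [CharZero k] [FiniteDimensional k V] {E F H : Module.End k V}
    (t : job11023_Tri E F H) {c : k} {N : ℕ}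
    (hc : (job11023_Cas E F H - algebraMap k _ c) ^ N = 0) (m : ℕ)
    (hm : c = (m : k) * m + 2 * m) : LinearMap.ker E ⊓ LinearMap.range F = ⊥ := by
  have h1 := job11023_L2 t hc m hm
  have h2 := job11023_L2 t.symm (by rw [job11023_Cas_symm t]; exact hc) m hm
  have h3 := job11023_finrank h1
  have h4 := job11023_finrank h2
  have h5 := Submodule.finrank_sup_add_finrank_inf_eq (LinearMap.ker E) (LinearMap.range F)
  rw [h1, finrank_top] at h5
  have h6 := LinearMap.finrank_range_add_finrank_ker E
  rw [← Submodule.finrank_eq_zero (R := k)]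
  omega


/-- the span of the `F`-translates -/
def job11023_S (F : Module.End k V) (W : Submodule k V) : Submodule k V :=
  ⨆ i : ℕ, W.map (F ^ i)

theorem job11023_S_le (F : Module.End k V) (W : Submodule k V) :
    job11023_S F W ≤ W ⊔ LinearMap.range F := by
  refine iSup_le fun i => ?_
  rintro _ ⟨w, hw, rfl⟩
  rcases i with _ | i
  · exact Submodule.mem_sup_left (by simpa using hw)
  · refine Submodule.mem_sup_right ?_
    rw [pow_succ', Module.End.mul_apply]
    exact ⟨_, rfl⟩

theorem job11023_le_S (F : Module.End k V) (W : Submodule k V) :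
    W ≤ job11023_S F W := by
  intro w hw
  exact Submodule.mem_iSup_of_mem 0 ⟨w, hw, by simp⟩

theorem job11023_S_F (F : Module.End k V) (W : Submodule k V) (x : V)
    (hx : x ∈ job11023_S F W) : F x ∈ job11023_S F W := by
  have : job11023_S F W ≤ (job11023_S F W).comap F := by
    refine iSup_le fun i => ?_
    rintro _ ⟨w, hw, rfl⟩
    rw [Submodule.mem_comap, ← Module.End.mul_apply, ← pow_succ']
    exact Submodule.mem_iSup_of_mem (i + 1) ⟨w, hw, rfl⟩
  exact this hx

theorem job11023_S_H {E F H : Module.End k V} (t : job11023_Tri E F H) (W : Submodule k V)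
    (m : k) (hW : ∀ w ∈ W, H w = m • w) (x : V)
    (hx : x ∈ job11023_S F W) : H x ∈ job11023_S F W := by
  have : job11023_S F W ≤ (job11023_S F W).comap H := by
    refine iSup_le fun i => ?_
    rintro _ ⟨w, hw, rfl⟩
    rw [Submodule.mem_comap, job11023_HF t, hW w hw, map_smul, ← sub_smul]
    exact Submodule.smul_mem _ _ (Submodule.mem_iSup_of_mem i ⟨w, hw, rfl⟩)
  exact this hx

theorem job11023_S_E {E F H : Module.End k V} (t : job11023_Tri E F H) (W : Submodule k V)
    (m : k) (hW : ∀ w ∈ W, H w = m • w) (hWE : ∀ w ∈ W, E w = 0) (x : V)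
    (hx : x ∈ job11023_S F W) : E x ∈ job11023_S F W := by
  have : job11023_S F W ≤ (job11023_S F W).comap E := by
    refine iSup_le fun i => ?_
    rintro _ ⟨w, hw, rfl⟩
    rcases i with _ | i
    · rw [Submodule.mem_comap]
      simp [hWE w hw]
    · rw [Submodule.mem_comap, job11023_P t, hWE w hw, hW w hw, ← sub_smul, map_smul, map_zero,
        zero_add]
      exact Submodule.smul_mem _ _ (Submodule.smul_mem _ _
        (Submodule.mem_iSup_of_mem i ⟨w, hw, rfl⟩))
  exact this hx

end Tri

/-- complete reducibility for `sl₂` in characteristic zero (indecomposable form) -/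
theorem Sl2Gen.isSimpleModule {k : Type u} [Field k] [IsAlgClosed k] [CharZero k] {A : Type u}
    [Ring A] [Algebra k A] {e f h : A} (H : Sl2Gen k e f h)
    (M : Type u) [AddCommGroup M] [Module k M] [Module A M] [IsScalarTower k A M]
    [FiniteDimensional k M] (hM : Nontrivial M)
    (hind : ∀ N₁ N₂ : Submodule A M, IsCompl N₁ N₂ → N₁ = ⊥ ∨ N₂ = ⊥) :
    IsSimpleModule A M := by
  classical
  have hact : ∀ (a : A) (x : M), (Algebra.lsmul k k M a) x = a • x := fun a x => rfl
  set E : Module.End k M := Algebra.lsmul k k M e with hE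
  set F : Module.End k M := Algebra.lsmul k k M f with hF
  set G : Module.End k M := Algebra.lsmul k k M h with hG
  have t : job11023_Tri E F G := by
    refine ⟨fun x => ?_, fun x => ?_, fun x => ?_⟩
    · have := congrArg (fun a : A => a • x) H.ef
      simp only [sub_smul, mul_smul] at this
      simp only [hE, hF, hG, hact]
      rw [← this]; abel
    · have := congrArg (fun a : A => a • x) H.he
      simp only [sub_smul, mul_smul] at this
      simp only [hE, hG, hact]
      rw [sub_eq_iff_eq_add, two_smul] at this
      rw [this, two_smul, add_comm]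
    · have := congrArg (fun a : A => a • x) H.hf
      simp only [sub_smul, mul_smul, neg_smul] at this
      simp only [hF, hG, hact]
      rw [sub_eq_iff_eq_add, two_smul] at this
      rw [this, two_smul]
      abel
  -- stable subspaces are submodules
  have hsub : ∀ (P : Submodule k M), (∀ x ∈ P, e • x ∈ P) → (∀ x ∈ P, f • x ∈ P) →
      (∀ x ∈ P, h • x ∈ P) → ∀ (a : A), ∀ x ∈ P, a • x ∈ P := by
    intro P he hf hh a
    have ha : a ∈ Algebra.adjoin k {e, f, h} := by rw [H.gen]; trivial
    induction ha using Algebra.adjoin_induction with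
    | mem y hy =>
      simp only [Set.mem_insert_iff, Set.mem_singleton_iff] at hy
      rcases hy with rfl | rfl | rfl
      · exact he
      · exact hf
      · exact hh
    | algebraMap r =>
      intro x hx
      rw [algebraMap_smul]
      exact P.smul_mem r hx
    | add y z _ _ hy hz =>
      intro x hx
      rw [add_smul]
      exact P.add_mem (hy x hx) (hz x hx)
    | mul y z _ _ hy hz =>
      intro x hx
      rw [mul_smul]
      exact hy _ (hz x hx)
  -- the Casimir element
  obtain ⟨C, hC⟩ : ∃ C : A, C = h * h + 2 * h + 4 * (f * e) := ⟨_, rfl⟩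
  have hCe : C * e = e * C := by
    rw [hC]
    linear_combination (norm := noncomm_ring) h * H.he + H.he * h - 4 * (H.ef * e)
  have hCf : C * f = f * C := by
    rw [hC]
    linear_combination (norm := noncomm_ring) h * H.hf + H.hf * h + 4 * (f * H.ef)
  have hCh : C * h = h * C := by
    rw [hC]
    linear_combination (norm := noncomm_ring) -4 * (f * H.he) - 4 * (H.hf * e)
  have hCall : ∀ a : A, C * a = a * C := by
    intro a
    have ha : a ∈ Algebra.adjoin k {e, f, h} := by rw [H.gen]; trivial
    induction ha using Algebra.adjoin_induction with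
    | mem y hy =>
      simp only [Set.mem_insert_iff, Set.mem_singleton_iff] at hy
      rcases hy with rfl | rfl | rfl
      · exact hCe
      · exact hCf
      · exact hCh
    | algebraMap r => exact (Algebra.commutes r C).symm
    | add y z _ _ hy hz => rw [mul_add, add_mul, hy, hz]
    | mul y z _ _ hy hz => rw [← mul_assoc, hy, mul_assoc, hz, mul_assoc]
  -- an eigenvalue
  obtain ⟨c, hcE⟩ := Module.End.exists_eigenvalue (Algebra.lsmul k k M C : Module.End k M)
  let φ : Module.End A M :=
    { toFun := fun x => C • x - c • x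
      map_add' := fun x y => by simp only [smul_add]; abel
      map_smul' := fun a x => by
        simp only [RingHom.id_apply, smul_sub]
        rw [← mul_smul, hCall, mul_smul, smul_comm c a x] }
  have hφ1 : ∀ x, φ x = C • x - c • x := fun x => rfl
  have hφ : ∀ n : ℕ, ∀ x, (φ ^ n) x = ((job11023_Cas E F G - algebraMap k _ c) ^ n) x := by
    intro n
    induction n with
    | zero => intro x; simp
    | succ n ih =>
      intro x
      rw [pow_succ, pow_succ, Module.End.mul_apply, Module.End.mul_apply, ih]
      congr 1
      rw [hφ1]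
      simp only [job11023_Cas, LinearMap.sub_apply, LinearMap.add_apply, Module.End.mul_apply,
        LinearMap.smul_apply, Module.algebraMap_end_apply, hE, hF, hG, hact, hC, add_smul,
        mul_smul, ofNat_smul_eq_nsmul]
  have : IsNoetherian A M := isNoetherian_of_tower k inferInstance
  have : IsArtinian A M := isArtinian_of_tower k inferInstance
  obtain ⟨N, hN⟩ : ∃ N : ℕ, (job11023_Cas E F G - algebraMap k _ c) ^ N = 0 := by
    obtain ⟨n, hn⟩ := (LinearMap.eventually_isCompl_ker_pow_range_pow φ).exists_forall_of_atTop
    refine ⟨n + 1, ?_⟩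
    rcases hind _ _ (hn (n + 1) (Nat.le_succ n)) with h1 | h1
    · exfalso
      obtain ⟨v, hv⟩ := hcE.exists_hasEigenvector
      have h2 : φ v = 0 := by
        rw [hφ1, sub_eq_zero]
        exact hv.apply_eq_smul
      have h3 : v ∈ LinearMap.ker (φ ^ (n + 1)) := by
        rw [LinearMap.mem_ker, pow_succ, Module.End.mul_apply, h2, map_zero]
      rw [h1] at h3
      exact hv.2 (by simpa using h3)
    · ext x
      rw [← hφ]
      have h3 : (φ ^ (n + 1)) x ∈ LinearMap.range (φ ^ (n + 1)) := ⟨x, rfl⟩
      rw [h1] at h3
      simpa using h3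
  obtain ⟨m, hm⟩ := job11023_exm t hN
  have hL1 := job11023_L1 t hN m hm
  have hsup := job11023_L2 t hN m hm
  have hinf := job11023_disj t hN m hm
  obtain ⟨l, hl⟩ := job11023_nilp t
  obtain ⟨r, hr⟩ := job11023_nilp t.symm
  -- a submodule containing the kernel of `E` is everything
  have htop : ∀ P : Submodule A M, (∀ x, E x = 0 → x ∈ P) → P = ⊤ := by
    intro P hP
    rw [eq_top_iff]
    have h1 : ∀ i : ℕ, ∀ x, ∃ y, x - (F ^ i) y ∈ P := by
      intro i
      induction i with
      | zero => intro x; exact ⟨x, by simp⟩
      | succ i ih =>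
        intro x
        obtain ⟨y, hy⟩ := ih x
        have h2 : y ∈ LinearMap.ker E ⊔ LinearMap.range F := by rw [hsup]; trivial
        obtain ⟨a, ha, _, ⟨z, rfl⟩, hz⟩ := Submodule.mem_sup.1 h2
        refine ⟨z, ?_⟩
        have h3 : x - (F ^ (i + 1)) z = (x - (F ^ i) y) + (F ^ i) a := by
          rw [pow_succ, Module.End.mul_apply, ← hz, map_add]
          abel
        rw [h3]
        refine P.add_mem hy ?_
        have h4 : ∀ j : ℕ, (F ^ j) a ∈ P := by
          intro j
          induction j with
          | zero => exact hP a ha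
          | succ j ih =>
            rw [pow_succ', Module.End.mul_apply]
            exact P.smul_mem f ih
        exact h4 i
    intro x _
    obtain ⟨y, hy⟩ := h1 r x
    rw [hr] at hy
    simpa using hy
  -- a nonzero submodule meets the kernel
  have hmeet : ∀ P : Submodule A M, P ≠ ⊥ → ∃ v ∈ P, v ≠ 0 ∧ E v = 0 := by
    intro P hP
    obtain ⟨x, hxP, hx⟩ := P.ne_bot_iff.1 hP
    have h1 : ∀ j : ℕ, ∀ x ∈ P, x ≠ 0 → (E ^ j) x = 0 → ∃ v ∈ P, v ≠ 0 ∧ E v = 0 := by
      intro j
      induction j with
      | zero => intro x _ hx h0; exact absurd (by simpa using h0) hx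
      | succ j ih =>
        intro x hxP hx h0
        by_cases h2 : E x = 0
        · exact ⟨x, hxP, hx, h2⟩
        · exact ih (E x) (P.smul_mem e hxP) h2 (by
            rw [pow_succ, Module.End.mul_apply] at h0; exact h0)
    exact h1 l x hxP hx (by rw [hl]; simp)
  -- the submodule generated by a subspace of the kernel
  have hgen : ∀ W : Submodule k M, W ≤ LinearMap.ker E → ∃ P : Submodule A M,
      (∀ x ∈ W, x ∈ P) ∧ (∀ x ∈ P, E x = 0 → x ∈ W) := by
    intro W hW
    have hWH : ∀ w ∈ W, G w = (m : k) • w := fun w hw => hL1 w (hW hw)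
    have hWE : ∀ w ∈ W, E w = 0 := fun w hw => hW hw
    refine ⟨{ carrier := job11023_S F W
              add_mem' := fun ha hb => (job11023_S F W).add_mem ha hb
              zero_mem' := (job11023_S F W).zero_mem
              smul_mem' := fun a x hx => hsub (job11023_S F W)
                (job11023_S_E t W _ hWH hWE) (job11023_S_F F W)
                (job11023_S_H t W _ hWH) a x hx }, ?_, ?_⟩
    · intro x hx
      exact job11023_le_S F W hx
    · intro x hx hEx
      have h1 : x ∈ W ⊔ LinearMap.range F := job11023_S_le F W hx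
      obtain ⟨w, hw, y, hy, hwy⟩ := Submodule.mem_sup.1 h1
      have h2 : y ∈ LinearMap.ker E ⊓ LinearMap.range F := by
        refine ⟨?_, hy⟩
        change E y = 0
        have h3 : E (w + y) = 0 := by rw [hwy]; exact hEx
        rw [map_add, hWE w hw, zero_add] at h3
        exact h3
      rw [hinf] at h2
      have h3 : y = 0 := by simpa using h2
      rw [h3, add_zero] at hwy
      rw [← hwy]
      exact hw
  -- the kernel is a line
  have hline : ∀ v, v ≠ 0 → E v = 0 → ∀ x, E x = 0 → x ∈ Submodule.span k {v} := by
    intro v hv hEv x hEx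
    obtain ⟨U, hU⟩ := Submodule.exists_isCompl (Submodule.span k {v})
    have hvK : Submodule.span k {v} ≤ LinearMap.ker E := by
      rw [Submodule.span_singleton_le_iff_mem]
      exact hEv
    obtain ⟨P₁, hP₁, hP₁'⟩ := hgen (Submodule.span k {v}) hvK
    obtain ⟨P₂, hP₂, hP₂'⟩ := hgen (LinearMap.ker E ⊓ U) inf_le_left
    have hdec : ∀ x, E x = 0 → ∃ a ∈ Submodule.span k {v}, ∃ b ∈ LinearMap.ker E ⊓ U,
        a + b = x := by
      intro x hx
      have h1 : x ∈ Submodule.span k {v} ⊔ U := by rw [hU.sup_eq_top]; trivial
      obtain ⟨a, ha, b, hb, hab⟩ := Submodule.mem_sup.1 h1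
      refine ⟨a, ha, b, ⟨?_, hb⟩, hab⟩
      change E b = 0
      have h3 : E (a + b) = 0 := by rw [hab]; exact hx
      have h4 : E a = 0 := hvK ha
      rw [map_add, h4, zero_add] at h3
      exact h3
    have hcompl : IsCompl P₁ P₂ := by
      constructor
      · rw [disjoint_iff]
        by_contra hne
        obtain ⟨w, ⟨hw1, hw2⟩, hw0, hEw⟩ := hmeet _ hne
        have h1 := hP₁' w hw1 hEw
        have h2 := hP₂' w hw2 hEw
        have h3 : w ∈ Submodule.span k {v} ⊓ U := ⟨h1, h2.2⟩
        rw [hU.inf_eq_bot] at h3
        exact hw0 (by simpa using h3)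
      · rw [codisjoint_iff]
        apply htop
        intro x hx
        obtain ⟨a, ha, b, hb, hab⟩ := hdec x hx
        rw [← hab]
        exact (P₁ ⊔ P₂).add_mem (Submodule.mem_sup_left (hP₁ a ha))
          (Submodule.mem_sup_right (hP₂ b hb))
    rcases hind _ _ hcompl with h1 | h1
    · exfalso
      have h2 := hP₁ v (Submodule.mem_span_singleton_self v)
      rw [h1] at h2
      exact hv (by simpa using h2)
    · obtain ⟨a, ha, b, hb, hab⟩ := hdec x hEx
      have h2 := hP₂ b hb
      rw [h1] at h2
      have h3 : b = 0 := by simpa using h2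
      rw [← hab, h3, add_zero]
      exact ha
  rw [isSimpleModule_iff]
  refine { exists_pair_ne := ⟨⊥, ⊤, bot_ne_top⟩, eq_bot_or_eq_top := ?_ }
  intro P
  by_cases hP : P = ⊥
  · exact Or.inl hP
  · right
    obtain ⟨v, hvP, hv, hEv⟩ := hmeet P hP
    apply htop
    intro x hx
    obtain ⟨a, ha⟩ := Submodule.mem_span_singleton.1 (hline v hv hEv x hx)
    rw [← ha, ← algebraMap_smul A a v]
    exact P.smul_mem _ hvP

end Zg
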