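import Pool.Agent.Helper462.Zg.Exist
import Pool.Agent.Helper462.Zg.Eigen
import Pool.Agent.Helper462.Zg.Noeth
import Pool.Agent.Helper462.Zg.Free
import Pool.Agent.Helper462.Zg.Harada
import Pool.Agent.Helper462.Zg.Flat
import Pool.Agent.Helper462.Zg.HullInd
import Pool.Agent.Helper462.Zg.Weyl

/-!
# Generic extensions and non-isolation of infinite-dimensional points
-/

namespace Zg

universe u

section Sl2

variable {k : Type u} [Field k] {A : Type u} [Ring A] [Algebra k A] {e f h : A}

theorem Sl2Gen.swap (H : Sl2Gen k e f h) : Sl2Gen k f e (-h) where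
  ef := by rw [← H.ef]; abel
  he := by
    have := H.hf
    calc -h * f - f * -h = -(h * f - f * h) := by noncomm_ring
      _ = 2 * f := by rw [this, neg_neg]
  hf := by
    have := H.he
    calc -h * e - e * -h = -(h * e - e * h) := by noncomm_ring
      _ = -(2 * e) := by rw [this]
  gen := by
    rw [eq_top_iff, ← H.gen]
    refine Algebra.adjoin_le ?_
    rintro x (rfl | rfl | rfl)
    · exact Algebra.subset_adjoin (by simp)
    · exact Algebra.subset_adjoin (by simp)
    · have h1 : -x ∈ Algebra.adjoin k {f, e, -x} := Algebra.subset_adjoin (by simp)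
      have := neg_mem h1
      rwa [neg_neg] at this

open MulOpposite in
theorem Sl2Gen.op (H : Sl2Gen k e f h) :
    Sl2Gen k (MulOpposite.op f) (MulOpposite.op e) (MulOpposite.op h) where
  ef := by
    apply unop_injective
    simpa using H.ef
  he := by
    apply unop_injective
    have := H.hf
    calc unop (MulOpposite.op h * MulOpposite.op f - MulOpposite.op f * MulOpposite.op h)
        = -(h * f - f * h) := by simp
      _ = 2 * f := by rw [this, neg_neg]
      _ = f * 2 := by rw [two_mul, mul_two]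
      _ = unop (2 * MulOpposite.op f) := by simp
  hf := by
    apply unop_injective
    have := H.he
    calc unop (MulOpposite.op h * MulOpposite.op e - MulOpposite.op e * MulOpposite.op h)
        = -(h * e - e * h) := by simp
      _ = -(2 * e) := by rw [this]
      _ = -(e * 2) := by rw [two_mul, mul_two]
      _ = unop (-(2 * MulOpposite.op e)) := by simp
  gen := by
    rw [eq_top_iff]
    rintro x -
    have hx : unop x ∈ Algebra.adjoin k {e, f, h} := by rw [H.gen]; trivial
    have key : ∀ y ∈ Algebra.adjoin k {e, f, h}, MulOpposite.op y ∈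
        Algebra.adjoin k {MulOpposite.op f, MulOpposite.op e, MulOpposite.op h} := by
      intro y hy
      induction hy using Algebra.adjoin_induction with
      | mem y hy =>
        rcases hy with rfl | rfl | rfl
        · exact Algebra.subset_adjoin (by simp)
        · exact Algebra.subset_adjoin (by simp)
        · exact Algebra.subset_adjoin (by simp)
      | algebraMap r =>
        have := Subalgebra.algebraMap_mem
          (Algebra.adjoin k {MulOpposite.op f, MulOpposite.op e, MulOpposite.op h}) r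
        simpa [MulOpposite.algebraMap_apply] using this
      | add x y _ _ hx hy =>
        rw [MulOpposite.op_add]
        exact add_mem hx hy
      | mul x y _ _ hx hy =>
        rw [MulOpposite.op_mul]
        exact mul_mem hy hx
    have := key _ hx
    simpa using this

/-- for all but finitely many `μ`, right multiplication by `e - μ` is injective on the cokernel
of the matrix `B` -/
theorem Sl2Gen.finite_bad (H : Sl2Gen k e f h) {m l : ℕ} (B : Fin l → Fin m → A) :
    {μ : k | ∃ w : Fin l → A, (∃ r : Fin m → A, ∀ j, ∑ i, B j i * r i =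
      w j * (e - algebraMap k A μ)) ∧ ¬ ∃ r : Fin m → A, ∀ j, ∑ i, B j i * r i = w j}.Finite := by
  have H' := H.swap.op
  have := H'.isNoetherianRing
  let L : (Fin m → Aᵐᵒᵖ) →ₗ[Aᵐᵒᵖ] (Fin l → Aᵐᵒᵖ) :=
    LinearMap.pi (fun j => ∑ i, (LinearMap.toSpanSingleton Aᵐᵒᵖ Aᵐᵒᵖ (MulOpposite.op (B j i))) ∘ₗ
      LinearMap.proj i)
  have hL : ∀ r j, L r j = ∑ i, r i * MulOpposite.op (B j i) := by
    intro r j
    simp [L, LinearMap.toSpanSingleton_apply]
  have hLmem : ∀ w : Fin l → A, (fun j => MulOpposite.op (w j)) ∈ LinearMap.range L ↔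
      ∃ r : Fin m → A, ∀ j, ∑ i, B j i * r i = w j := by
    intro w
    constructor
    · rintro ⟨r, hr⟩
      refine ⟨fun i => MulOpposite.unop (r i), fun j => ?_⟩
      have := congrFun hr j
      rw [hL] at this
      have := congrArg MulOpposite.unop this
      simpa using this
    · rintro ⟨r, hr⟩
      refine ⟨fun i => MulOpposite.op (r i), ?_⟩
      funext j
      rw [hL, ← hr j]
      simp
  have hfin := H'.finite_eigen ((Fin l → Aᵐᵒᵖ) ⧸ LinearMap.range L)
  refine hfin.subset ?_
  rintro μ ⟨w, h1, h2⟩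
  refine ⟨(LinearMap.range L).mkQ (fun j => MulOpposite.op (w j)), ?_, ?_⟩
  · rw [← hLmem] at h2
    rwa [Ne, ← LinearMap.mem_ker, Submodule.ker_mkQ]
  · rw [← sub_eq_zero]
    have h3 : (MulOpposite.op e) • (LinearMap.range L).mkQ (fun j => MulOpposite.op (w j)) -
        μ • (LinearMap.range L).mkQ (fun j => MulOpposite.op (w j)) =
        (LinearMap.range L).mkQ (fun j => MulOpposite.op (w j * (e - algebraMap k A μ))) := by
      have h4 : (fun j => MulOpposite.op (w j * (e - algebraMap k A μ))) =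
          (MulOpposite.op e) • (fun j => MulOpposite.op (w j)) -
            μ • (fun j => MulOpposite.op (w j)) := by
        funext j
        simp only [Pi.sub_apply, Pi.smul_apply, mul_sub, MulOpposite.op_sub, smul_eq_mul,
          ← MulOpposite.op_mul]
        congr 1
        rw [← Algebra.commutes, ← Algebra.smul_def]
        rfl
      rw [h4, map_sub, map_smul]
      rfl
    rw [h3, ← LinearMap.mem_ker, Submodule.ker_mkQ, hLmem]
    exact h1

/-- on an infinite-dimensional f.g. module some element is divisible by few `t - μ` only -/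
theorem Sl2Gen.exists_good [CharZero k] (H : Sl2Gen k e f h)
    (M : Type u) [AddCommGroup M] [Module k M] [Module A M] [IsScalarTower k A M]
    [Module.Finite A M] (hM : ¬ FiniteDimensional k M) :
    ∃ (t f' h' : A) (_ : Sl2Gen k t f' h') (s : M),
      {μ : k | ∃ y : M, (t - algebraMap k A μ) • y = s}.Finite := by
  have := H.isNoetherianRing
  have key : ∀ {t f' h' : A} (_ : Sl2Gen k t f' h') (s : M),
      (∀ p : Polynomial k, p ≠ 0 → (Polynomial.aeval t p) • s ≠ 0) →
      {μ : k | ∃ y : M, (t - algebraMap k A μ) • y = s}.Finite := by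
    intro t f' h' H' s hs
    have h1 := H'.finite_divisible M s hs
    have h2 := H'.finite_eigen (M ⧸ Submodule.span A {s})
    refine (h1.union h2).subset ?_
    rintro μ ⟨y, hy⟩
    by_cases hmem : y ∈ Submodule.span A {s}
    · exact Or.inl ⟨y, hmem, hy⟩
    · refine Or.inr ⟨(Submodule.span A {s}).mkQ y, ?_, ?_⟩
      · rwa [Ne, ← LinearMap.mem_ker, Submodule.ker_mkQ]
      · have h3 : (Submodule.span A {s}).mkQ ((t - algebraMap k A μ) • y) = 0 := by
          rw [hy, ← LinearMap.mem_ker, Submodule.ker_mkQ]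
          exact Submodule.mem_span_singleton_self s
        rw [sub_smul, algebraMap_smul, map_sub, map_smul, sub_eq_zero] at h3
        rw [h3]
        rfl
  obtain ⟨s, hs | hs⟩ := H.exists_free M hM
  · exact ⟨e, f, h, H, s, key H s hs⟩
  · exact ⟨f, e, -h, H.swap, s, key H.swap s hs⟩

end Sl2

section Extension

variable {A : Type u} [Ring A]

/-- the extension `Y` of `A ⧸ A ε` by `M` with `ε y = s` -/
theorem exists_extension {M : Type u} [AddCommGroup M] [Module A M] [Module.Finite A M]
    (ε : A) (s : M) (hs : ∀ y : M, ε • y ≠ s) :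
    ∃ F : HomFrom A M, Module.Finite A F.Q ∧ (∀ v : F.Q →ₗ[A] M, ¬ Function.Bijective (v ∘ₗ F.g)) ∧
      ∀ (m l : ℕ) (B : Fin l → Fin m → A) (c : Fin l → M),
        (∀ w : Fin l → A, (∃ r : Fin m → A, ∀ j, ∑ i, B j i * r i = w j * ε) →
          ∃ r : Fin m → A, ∀ j, ∑ i, B j i * r i = w j) →
        Solvable B (fun j => F.g (c j)) → Solvable B c := by
  let K : Submodule A (M × A) := LinearMap.range (LinearMap.toSpanSingleton A (M × A) (s, -ε))
  have hK : ∀ x : M × A, x ∈ K ↔ ∃ z : A, z • s = x.1 ∧ -(z * ε) = x.2 := by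
    intro x
    simp only [K, LinearMap.mem_range, LinearMap.toSpanSingleton_apply]
    constructor
    · rintro ⟨z, rfl⟩
      exact ⟨z, rfl, by simp⟩
    · rintro ⟨z, h1, h2⟩
      refine ⟨z, Prod.ext ?_ ?_⟩
      · simpa using h1
      · simpa using h2
  let g : M →ₗ[A] (M × A) ⧸ K := K.mkQ ∘ₗ LinearMap.inl A M A
  have hsy : ε • K.mkQ ((0 : M), (1 : A)) = g s := by
    change ε • K.mkQ ((0 : M), (1 : A)) = K.mkQ (s, 0)
    rw [← map_smul, ← sub_eq_zero, ← map_sub, ← LinearMap.mem_ker, Submodule.ker_mkQ, hK]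
    exact ⟨-1, by simp, by simp⟩
  refine ⟨⟨(M × A) ⧸ K, g⟩, ?_, ?_, ?_⟩
  · change Module.Finite A ((M × A) ⧸ K)
    infer_instance
  · intro v hv
    let v' : (M × A) ⧸ K →ₗ[A] M := v
    have hv' : Function.Bijective (v' ∘ₗ g) := hv
    let ej := LinearEquiv.ofBijective (v' ∘ₗ g) hv'
    refine hs (ej.symm (v' (K.mkQ ((0 : M), (1 : A))))) ?_
    have h1 : ej.symm (v' (g s)) = s := ej.symm_apply_apply s
    rw [← h1, ← hsy, map_smul, map_smul]
  · intro m l B c hB hsol
    obtain ⟨z, hz⟩ := hsol
    choose w hw using fun n => K.mkQ_surjective (z n)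
    have h1 : ∀ j, (∑ n, B j n • w n - (c j, (0 : A))) ∈ K := by
      intro j
      rw [← Submodule.ker_mkQ K, LinearMap.mem_ker, map_sub, sub_eq_zero]
      have h2 := hz j
      change _ = K.mkQ (c j, 0) at h2
      rw [← h2, map_sum]
      refine Finset.sum_congr rfl fun n _ => ?_
      rw [map_smul, hw n]
    choose q hq1 hq2 using fun j => (hK _).1 (h1 j)
    have h2 : ∀ j, q j • s = ∑ n, B j n • (w n).1 - c j := by
      intro j
      have := hq1 j
      simpa [Prod.fst_sum] using this
    have h3 : ∀ j, -(q j * ε) = ∑ n, B j n * (w n).2 := by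
      intro j
      have := hq2 j
      simpa [Prod.snd_sum] using this
    obtain ⟨r, hr⟩ := hB (fun j => - q j) ⟨fun n => (w n).2, fun j => by
      rw [← h3 j]; simp⟩
    refine ⟨fun n => (w n).1 + r n • s, fun j => ?_⟩
    have h4 : ∑ n, B j n • r n • s = - (q j • s) := by
      rw [← neg_smul, ← hr j, Finset.sum_smul]
      refine Finset.sum_congr rfl fun n _ => ?_
      rw [mul_smul]
    simp only [smul_add, Finset.sum_add_distrib]
    rw [h4, h2 j]
    abel

/-- the pp formula generating the pp type of an element of a f.g. module -/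
theorem exists_type_formula [IsNoetherianRing A] {Y : Type u} [AddCommGroup Y] [Module A Y]
    [Module.Finite A Y] (y : Y) :
    ∃ φ : PPFormula A, ∀ (Q : Type u) [AddCommGroup Q] [Module A Q] (q : Q),
      q ∈ φ.sol Q ↔ ∃ v : Y →ₗ[A] Q, v y = q := by
  classical
  obtain ⟨n, π, hπ⟩ := Module.Finite.exists_fin' A Y
  obtain ⟨l, κ, hκ⟩ := Submodule.fg_iff_exists_fin_generating_family.1
    (IsNoetherian.noetherian (LinearMap.ker π))
  obtain ⟨d, hd⟩ := hπ y
  refine ⟨⟨n, l + 1, Fin.cons d κ, Fin.cons 1 (fun _ => 0)⟩, fun Q _ _ q => ?_⟩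
  constructor
  · rintro ⟨z, hz⟩
    let L : (Fin n → A) →ₗ[A] Q := ∑ i, (LinearMap.toSpanSingleton A Q (z i)) ∘ₗ LinearMap.proj i
    have hL : ∀ x, L x = ∑ i, x i • z i := by
      intro x
      simp [L, LinearMap.toSpanSingleton_apply]
    have h0 : L d = q := by
      have := hz 0
      simpa [hL] using this
    have hle : LinearMap.ker π ≤ LinearMap.ker L := by
      rw [← hκ, Submodule.span_le]
      rintro x ⟨j, rfl⟩
      have := hz j.succ
      simp only [Fin.cons_succ, zero_smul] at this
      rw [SetLike.mem_coe, LinearMap.mem_ker, hL]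
      exact this
    refine ⟨(Submodule.liftQ (LinearMap.ker π) L hle) ∘ₗ
      (π.quotKerEquivOfSurjective hπ).symm.toLinearMap, ?_⟩
    have h1 : (π.quotKerEquivOfSurjective hπ).symm y = Submodule.Quotient.mk d := by
      rw [LinearEquiv.symm_apply_eq]
      rw [← hd]
      rfl
    simp only [LinearMap.comp_apply, LinearEquiv.coe_coe]
    rw [h1, ← h0]
    exact Submodule.liftQ_apply _ _ _
  · rintro ⟨v, rfl⟩
    have hv : ∀ x : Fin n → A, v (π x) = ∑ i, x i • v (π (Pi.single i 1)) := by
      intro x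
      conv_lhs => rw [← LinearMap.sum_single_apply (fun _ => A) (v := x)]
      rw [map_sum, map_sum]
      refine Finset.sum_congr rfl fun i _ => ?_
      rw [← map_smul, ← map_smul]
      congr 2
      ext j
      simp [Pi.single_apply]
    refine ⟨fun i => v (π (Pi.single i 1)), fun j => ?_⟩
    refine Fin.cases ?_ (fun j => ?_) j
    · simp only [Fin.cons_zero, one_smul]
      rw [← hv, hd]
    · simp only [Fin.cons_succ, zero_smul]
      rw [← hv]
      have : κ j ∈ LinearMap.ker π := by
        rw [← hκ]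
        exact Submodule.subset_span ⟨j, rfl⟩
      rw [LinearMap.mem_ker.1 this, map_zero]

end Extension

section Main

variable {k : Type u} [Field k] {A : Type u} [Ring A] [Algebra k A] {e f h : A}

theorem zero_mem_sol (ψ : PPFormula A) (M : Type u) [AddCommGroup M] [Module A M] :
    (0 : M) ∈ ψ.sol M := ⟨fun _ => 0, fun j => by simp⟩

/-- every open pair at the hull of an infinite-dimensional indecomposable module of finite length
is open at another point -/
theorem Sl2Gen.not_isolated [CharZero k] (H : Sl2Gen k e f h)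
    {M N : Type u} [AddCommGroup M] [Module k M] [Module A M] [IsScalarTower k A M]
    [AddCommGroup N] [Module A N] (hfl : IsFiniteLength A M) (hM : IsIndecomposable A M)
    (hdim : ¬ FiniteDimensional k M) (i : M →ₗ[A] N) (hi : IsPureInjectiveHull i)
    (φ ψ : PPFormula A) (hN : ∃ x : N, x ∈ φ.sol N ∧ x ∉ ψ.sol N) :
    ∃ F : HomFrom A M, IsPureInjective A F.Q ∧ IsIndecomposable A F.Q ∧
      (∃ x : F.Q, x ∈ φ.sol F.Q ∧ x ∉ ψ.sol F.Q) ∧ IsEmpty (F.Q ≃ₗ[A] N) := by
  by_contra hcon
  have := H.isNoetherianRing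
  have : IsNoetherian A M := (isFiniteLength_iff_isNoetherian_isArtinian.1 hfl).1
  have : Infinite k := inferInstance
  obtain ⟨t, f', h', H', s, hsfin⟩ := H.exists_good M hdim
  have hstep : ∀ m : M, (m ∈ φ.sol M ∧ m ∉ ψ.sol M) →
      ∃ j : M →ₗ[A] M, ¬ Function.Bijective j ∧ (j m ∈ φ.sol M ∧ j m ∉ ψ.sol M) := by
    rintro m ⟨hm1, hm2⟩
    obtain ⟨μ, hμ⟩ := (hsfin.union (H'.finite_bad ψ.B)).exists_notMem
    simp only [Set.mem_union, not_or] at hμ
    obtain ⟨h1, h2⟩ := hμ
    have hs : ∀ y : M, (t - algebraMap k A μ) • y ≠ s := fun y hy => h1 ⟨y, hy⟩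
    obtain ⟨⟨Y, g⟩, hYfin, hv, hlift⟩ := exists_extension _ s hs
    simp only at g hYfin hv hlift
    have hgm : g m ∉ ψ.sol Y := by
      intro hcon2
      refine hm2 (hlift _ _ ψ.B (fun j => ψ.a j • m) ?_ ?_)
      · intro w hw
        by_contra hw'
        exact h2 ⟨w, hw, hw'⟩
      · simp only [map_smul]
        exact hcon2
    obtain ⟨φ', hφ'⟩ := exists_type_formula (A := A) (g m)
    obtain ⟨F', hF1, hF2, hF3⟩ := exists_indecomposable (R := A) k
      (⟨ψ.m, ψ.l, ψ.B, fun j => ψ.a j • g m⟩ : Sys A Y) hgm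
    have hF3' : F'.g (g m) ∉ ψ.sol F'.Q := by
      intro hcon2
      refine hF3 ?_
      simp only [map_smul]
      exact hcon2
    have hF4 : F'.g (g m) ∈ φ.sol F'.Q := mem_sol_map φ F'.g (mem_sol_map φ g hm1)
    have hiso : Nonempty (F'.Q ≃ₗ[A] N) := by
      by_contra hne
      rw [not_nonempty_iff] at hne
      exact hcon ⟨⟨F'.Q, F'.g ∘ₗ g⟩, hF1, hF2, ⟨_, hF4, hF3'⟩, hne⟩
    obtain ⟨eq⟩ := hiso
    have hnot : ¬ φ'.sol N ⊆ ψ.sol N := by
      intro hsub
      have h5 : eq (F'.g (g m)) ∈ φ'.sol N := (hφ' N _).2 ⟨eq.toLinearMap ∘ₗ F'.g, rfl⟩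
      have h6 := mem_sol_map ψ eq.symm.toLinearMap (hsub h5)
      simp only [LinearEquiv.coe_coe, LinearEquiv.symm_apply_apply] at h6
      exact hF3' h6
    have hnot2 : ¬ φ'.sol M ⊆ ψ.sol M := fun hsub => hnot (sol_subset_of_hull k i hi φ' ψ hsub)
    obtain ⟨x, hx1, hx2⟩ := Set.not_subset.1 hnot2
    obtain ⟨v, hvx⟩ := (hφ' M x).1 hx1
    refine ⟨v ∘ₗ g, hv v, ?_, ?_⟩
    · exact mem_sol_map φ (v ∘ₗ g) hm1
    · change v (g m) ∉ ψ.sol M
      rw [hvx]
      exact hx2
  have hall := harada_sai M hfl hM.2 (fun m => m ∈ φ.sol M ∧ m ∉ ψ.sol M)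
    (fun h0 => h0.2 (zero_mem_sol ψ M)) hstep
  have hsub : φ.sol M ⊆ ψ.sol M := by
    intro m hm
    by_contra hm'
    exact hall m ⟨hm, hm'⟩
  obtain ⟨x, hx1, hx2⟩ := hN
  exact hx2 (sol_subset_of_hull k i hi φ ψ hsub hx1)

end Main

end Zg
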