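import Pool.Agent.Helper462.Zg.Defs

/-!
# Existence of indecomposable pure-injectives and of pure-injective hulls
-/

namespace Zg

universe u

variable {R : Type u} [Ring R]

/-- finite systems of linear equations with constants in `P` -/
structure Sys (R : Type u) (P : Type u) where
  m : ℕ
  l : ℕ
  B : Fin l → Fin m → R
  c : Fin l → P

section

variable {P Q Q' : Type u} [AddCommGroup P] [Module R P] [AddCommGroup Q] [Module R Q]
  [AddCommGroup Q'] [Module R Q']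

/-- the set of systems over `P` which become solvable along `g` -/
def Delta (g : P →ₗ[R] Q) : Set (Sys R P) := {χ | Solvable χ.B (fun j => g (χ.c j))}

theorem Solvable.map {m l : ℕ} {B : Fin l → Fin m → R} {c : Fin l → Q} (h : Solvable B c)
    (g : Q →ₗ[R] Q') : Solvable B (fun j => g (c j)) := by
  obtain ⟨z, hz⟩ := h
  refine ⟨fun i => g (z i), fun j => ?_⟩
  beta_reduce
  rw [← hz j]
  simp

theorem Solvable.add {m l : ℕ} {B : Fin l → Fin m → R} {c d : Fin l → Q} (h : Solvable B c)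
    (h' : Solvable B d) : Solvable B (fun j => c j + d j) := by
  obtain ⟨z, hz⟩ := h
  obtain ⟨w, hw⟩ := h'
  refine ⟨fun i => z i + w i, fun j => ?_⟩
  beta_reduce
  rw [← hz j, ← hw j]
  simp [Finset.sum_add_distrib]

theorem Solvable.neg {m l : ℕ} {B : Fin l → Fin m → R} {c : Fin l → Q} (h : Solvable B c) :
    Solvable B (fun j => - c j) := by
  obtain ⟨z, hz⟩ := h
  refine ⟨fun i => - z i, fun j => ?_⟩
  beta_reduce
  rw [← hz j]
  simp

theorem Delta_mono (g : P →ₗ[R] Q) (h : Q →ₗ[R] Q') : Delta g ⊆ Delta (h ∘ₗ g) :=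
  fun _ hχ => Solvable.map hχ h

/-- `g` does not make any system of `Φ` solvable -/
def Avoids (Φ : Set (Sys R P)) (g : P →ₗ[R] Q) : Prop := ∀ χ ∈ Φ, χ ∉ Delta g

end

/-- a homomorphism with source `P` -/
structure HomFrom (R : Type u) [Ring R] (P : Type u) [AddCommGroup P] [Module R P] where
  Q : Type u
  [grp : AddCommGroup Q]
  [mod : Module R Q]
  g : P →ₗ[R] Q

attribute [instance] HomFrom.grp HomFrom.mod

section Reduced

variable {P : Type u} [AddCommGroup P] [Module R P]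

/-- the reduced product submodule -/
def redSub (c : Set (Set (Sys R P))) (hc : IsChain (· ⊆ ·) c) (hne : c.Nonempty)
    (F : c → HomFrom R P) : Submodule R (∀ D : c, (F D).Q) where
  carrier := {x | ∃ D₀ : c, ∀ D : c, D₀.1 ⊆ D.1 → x D = 0}
  add_mem' := by
    rintro x y ⟨D₁, h₁⟩ ⟨D₂, h₂⟩
    rcases hc.total D₁.2 D₂.2 with h | h
    · refine ⟨D₂, fun D hD => ?_⟩
      simp [h₁ D (h.trans hD), h₂ D hD]
    · refine ⟨D₁, fun D hD => ?_⟩
      simp [h₁ D hD, h₂ D (h.trans hD)]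
  zero_mem' := ⟨⟨hne.some, hne.some_mem⟩, fun _ _ => rfl⟩
  smul_mem' := by
    rintro r x ⟨D₁, h₁⟩
    exact ⟨D₁, fun D hD => by simp [h₁ D hD]⟩

omit [Ring R] [AddCommGroup P] [Module R P] in
theorem exists_bound {c : Set (Set (Sys R P))} (hc : IsChain (· ⊆ ·) c) (hne : c.Nonempty)
    (l : ℕ) (D : Fin l → c) : ∃ D₀ : c, ∀ j, (D j).1 ⊆ D₀.1 := by
  induction l with
  | zero => exact ⟨⟨hne.some, hne.some_mem⟩, fun j => j.elim0⟩
  | succ l ih =>
    obtain ⟨D₀, h₀⟩ := ih (fun j => D j.castSucc)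
    rcases hc.total D₀.2 (D (Fin.last l)).2 with h | h
    · refine ⟨D (Fin.last l), fun j => ?_⟩
      refine Fin.lastCases ?_ (fun j => ?_) j
      · exact subset_rfl
      · exact (h₀ j).trans h
    · refine ⟨D₀, fun j => ?_⟩
      refine Fin.lastCases ?_ (fun j => ?_) j
      · exact h
      · exact h₀ j

theorem exists_reduced {c : Set (Set (Sys R P))} (hc : IsChain (· ⊆ ·) c) (hne : c.Nonempty)
    (h : ∀ D ∈ c, ∃ F : HomFrom R P, Delta F.g = D) :
    ∃ F : HomFrom R P, Delta F.g = ⋃₀ c := by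
  classical
  choose F hF using (fun D : c => h D.1 D.2)
  let K := redSub c hc hne F
  let g₀ : P →ₗ[R] (∀ D : c, (F D).Q) := LinearMap.pi (fun D => (F D).g)
  refine ⟨⟨(∀ D : c, (F D).Q) ⧸ K, K.mkQ ∘ₗ g₀⟩, ?_⟩
  ext χ
  constructor
  · rintro ⟨z, hz⟩
    choose w hw using fun i => K.mkQ_surjective (z i)
    have hz' : ∀ j, ∃ D₀ : c, ∀ D : c, D₀.1 ⊆ D.1 →
        (∑ i, χ.B j i • w i - g₀ (χ.c j)) D = 0 := by
      intro j
      have h1 : (∑ i, χ.B j i • w i - g₀ (χ.c j)) ∈ K := by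
        rw [← Submodule.ker_mkQ K, LinearMap.mem_ker, map_sub, sub_eq_zero]
        have h2 := hz j
        simp only [LinearMap.comp_apply] at h2
        rw [← h2, map_sum]
        refine Finset.sum_congr rfl fun i _ => ?_
        rw [map_smul, hw i]
      exact h1
    choose D hD using hz'
    obtain ⟨D₀, hD₀⟩ := exists_bound hc hne _ D
    refine ⟨D₀.1, D₀.2, ?_⟩
    rw [← hF D₀]
    refine ⟨fun i => w i D₀, fun j => ?_⟩
    have h3 := hD j D₀ (hD₀ j)
    simp only [Pi.sub_apply, Finset.sum_apply, Pi.smul_apply, sub_eq_zero] at h3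
    rw [h3]
    rfl
  · rintro ⟨D₁, hD₁, hχ⟩
    have hex : ∀ D : c, ∃ w : Fin χ.m → (F D).Q, D₁ ⊆ D.1 →
        ∀ j, ∑ i, χ.B j i • w i = (F D).g (χ.c j) := by
      intro D
      by_cases hD : D₁ ⊆ D.1
      · have : χ ∈ Delta (F D).g := by rw [hF D]; exact hD hχ
        obtain ⟨w, hw⟩ := this
        exact ⟨w, fun _ => hw⟩
      · exact ⟨fun _ => 0, fun h => absurd h hD⟩
    choose w hw using hex
    refine ⟨fun i => K.mkQ (fun D => w D i), fun j => ?_⟩
    simp only [LinearMap.comp_apply]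
    rw [← sub_eq_zero]
    have : (∑ i, χ.B j i • K.mkQ (fun D => w D i)) - K.mkQ (g₀ (χ.c j)) =
        K.mkQ (∑ i, χ.B j i • (fun D => w D i) - g₀ (χ.c j)) := by
      rw [map_sub, map_sum]
      congr 1
    rw [this]
    have h1 : (∑ i, χ.B j i • (fun D => w D i) - g₀ (χ.c j)) ∈ K := by
      refine ⟨⟨D₁, hD₁⟩, fun D hD => ?_⟩
      have h2 := hw D hD j
      simp only [Pi.sub_apply, Finset.sum_apply, Pi.smul_apply, sub_eq_zero]
      exact h2
    rwa [← Submodule.ker_mkQ K, LinearMap.mem_ker] at h1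

/-- a homomorphism from `P` avoiding `Φ` with maximal set of solvable systems -/
theorem exists_maximal_hom (Φ : Set (Sys R P)) {Q₀ : Type u} [AddCommGroup Q₀] [Module R Q₀]
    (g₀ : P →ₗ[R] Q₀) (h₀ : Avoids Φ g₀) :
    ∃ F : HomFrom R P, Avoids Φ F.g ∧ Delta g₀ ⊆ Delta F.g ∧
      ∀ (Q' : Type u) [AddCommGroup Q'] [Module R Q'] (g' : P →ₗ[R] Q'),
        Avoids Φ g' → Delta F.g ⊆ Delta g' → Delta g' ⊆ Delta F.g := by
  let S : Set (Set (Sys R P)) := {D | (∃ F : HomFrom R P, Delta F.g = D) ∧ ∀ χ ∈ Φ, χ ∉ D}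
  have key : ∀ c ⊆ S, IsChain (· ⊆ ·) c → c.Nonempty → ∃ ub ∈ S, ∀ s ∈ c, s ⊆ ub := by
    intro c hcS hc hne
    refine ⟨⋃₀ c, ⟨exists_reduced hc hne (fun D hD => (hcS hD).1), ?_⟩,
      fun s hs => Set.subset_sUnion_of_mem hs⟩
    rintro χ hχ ⟨D, hD, hχD⟩
    exact (hcS hD).2 χ hχ hχD
  have hx : Delta g₀ ∈ S := ⟨⟨⟨Q₀, g₀⟩, rfl⟩, h₀⟩
  obtain ⟨D, hsub, hmax⟩ := zorn_subset_nonempty S key (Delta g₀) hx
  obtain ⟨⟨F, hF⟩, hΦ⟩ := hmax.prop
  refine ⟨F, ?_, ?_, ?_⟩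
  · intro χ hχ
    rw [hF]
    exact hΦ χ hχ
  · rw [hF]
    exact hsub
  · intro Q' _ _ g' h1 h2
    rw [hF] at h2 ⊢
    exact hmax.le_of_ge ⟨⟨⟨Q', g'⟩, rfl⟩, h1⟩ h2

end Reduced

section Small

variable {P : Type u} [AddCommGroup P] [Module R P]

/-- `W` is small for `Φ`: every homomorphism avoiding `Φ` reflects solvability of systems with
constants in `W`. -/
def Small (Φ : Set (Sys R P)) (W : Submodule R P) : Prop :=
  ∀ (Q : Type u) [AddCommGroup Q] [Module R Q] (g : P →ₗ[R] Q), Avoids Φ g →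
    ∀ χ : Sys R P, (∀ j, χ.c j ∈ W) → χ ∈ Delta g → χ ∈ Delta (LinearMap.id : P →ₗ[R] P)

theorem exists_maximal_small (Φ : Set (Sys R P)) (W₀ : Submodule R P) (h₀ : Small Φ W₀) :
    ∃ W : Submodule R P, W₀ ≤ W ∧ Small Φ W ∧ ∀ W' : Submodule R P, Small Φ W' → W ≤ W' →
      W' ≤ W := by
  have key : ∀ c ⊆ {W : Submodule R P | Small Φ W}, IsChain (· ≤ ·) c → ∀ y ∈ c,
      ∃ ub ∈ {W : Submodule R P | Small Φ W}, ∀ z ∈ c, z ≤ ub := by
    intro c hcS hc y hy
    refine ⟨sSup c, ?_, fun z hz => le_sSup hz⟩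
    intro Q _ _ g hg χ hχ hD
    have hdir : DirectedOn (· ≤ ·) c := hc.directedOn
    have hmem : ∀ j, ∃ V ∈ c, χ.c j ∈ V := fun j =>
      (Submodule.mem_sSup_of_directed ⟨y, hy⟩ hdir).1 (hχ j)
    choose V hVc hV using hmem
    have hbound : ∃ V₀ ∈ c, ∀ j, V j ≤ V₀ := by
      have : ∀ (l : ℕ) (V : Fin l → Submodule R P), (∀ j, V j ∈ c) → ∃ V₀ ∈ c, ∀ j, V j ≤ V₀ := by
        intro l
        induction l with
        | zero => exact fun V _ => ⟨y, hy, fun j => j.elim0⟩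
        | succ l ih =>
          intro V hV
          obtain ⟨V₀, hV₀, h₀⟩ := ih (fun j => V j.castSucc) (fun j => hV _)
          obtain ⟨V₁, hV₁, h1, h2⟩ := hdir V₀ hV₀ (V (Fin.last l)) (hV _)
          refine ⟨V₁, hV₁, fun j => ?_⟩
          refine Fin.lastCases ?_ (fun j => ?_) j
          · exact h2
          · exact (h₀ j).trans h1
      exact this _ V hVc
    obtain ⟨V₀, hV₀, hle⟩ := hbound
    exact hcS hV₀ Q g hg χ (fun j => hle j (hV j)) hD
  obtain ⟨W, hle, hmax⟩ := zorn_le_nonempty₀ _ key W₀ h₀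
  exact ⟨W, hle, hmax.prop, fun W' h1 h2 => hmax.le_of_ge h1 h2⟩

/-- solve a hom extension problem into a pure-injective module -/
theorem exists_section (hP : IsPureInjective R P) (W : Submodule R P) {Q : Type u}
    [AddCommGroup Q] [Module R Q] (t : P →ₗ[R] Q)
    (ht : ∀ χ : Sys R P, (∀ j, χ.c j ∈ W) → χ ∈ Delta t → χ ∈ Delta (LinearMap.id : P →ₗ[R] P)) :
    ∃ s : Q →ₗ[R] P, ∀ w ∈ W, s (t w) = w := by
  -- pushout
  let K : Submodule R (P × Q) := W.map (LinearMap.prod LinearMap.id (-t))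
  let i : P →ₗ[R] (P × Q) ⧸ K := K.mkQ ∘ₗ LinearMap.inl R P Q
  have hK : ∀ x : P × Q, x ∈ K ↔ x.1 ∈ W ∧ x.2 = - t x.1 := by
    intro x
    simp only [K, Submodule.mem_map, LinearMap.prod_apply]
    constructor
    · rintro ⟨w, hw, rfl⟩
      exact ⟨hw, rfl⟩
    · rintro ⟨h1, h2⟩
      exact ⟨x.1, h1, Prod.ext rfl h2.symm⟩
  have hi : IsPureEmbedding i := by
    have hsys : ∀ (m l : ℕ) (r : Fin l → Fin m → R) (c : Fin l → P),
        Solvable r (fun j => i (c j)) → Solvable r c := by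
      rintro m l r c ⟨z, hz⟩
      choose w hw using fun n => K.mkQ_surjective (z n)
      have h1 : ∀ j, (∑ n, r j n • w n - (c j, 0)) ∈ K := by
        intro j
        rw [← Submodule.ker_mkQ K, LinearMap.mem_ker, map_sub, sub_eq_zero]
        have h2 := hz j
        change _ = K.mkQ (c j, 0) at h2
        rw [← h2, map_sum]
        refine Finset.sum_congr rfl fun n _ => ?_
        rw [map_smul, hw n]
      have h2 : ∀ j, (∑ n, r j n • (w n).1 - c j) ∈ W ∧
          ∑ n, r j n • (w n).2 = - t (∑ n, r j n • (w n).1 - c j) := by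
        intro j
        have := (hK _).1 (h1 j)
        simpa [Prod.fst_sum, Prod.snd_sum] using this
      let χ : Sys R P := ⟨m, l, r, fun j => -(∑ n, r j n • (w n).1 - c j)⟩
      have h3 : χ ∈ Delta (LinearMap.id : P →ₗ[R] P) := by
        refine ht χ (fun j => W.neg_mem (h2 j).1) ⟨fun n => (w n).2, fun j => ?_⟩
        change _ = t (-(∑ n, r j n • (w n).1 - c j))
        rw [map_neg]
        exact (h2 j).2
      obtain ⟨y, hy⟩ := h3
      refine ⟨fun n => (w n).1 + y n, fun j => ?_⟩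
      have h4 := hy j
      change _ = -(∑ n, r j n • (w n).1 - c j) at h4
      simp only [smul_add, Finset.sum_add_distrib]
      rw [h4]
      abel
    refine ⟨?_, hsys⟩
    rw [injective_iff_map_eq_zero]
    intro a ha
    have := hsys 0 1 (fun _ i => i.elim0) (fun _ => a) ⟨fun i => i.elim0, fun j => by simp [ha]⟩
    obtain ⟨z, hz⟩ := this
    simpa using (hz 0).symm
  obtain ⟨h, hh⟩ := hP P ((P × Q) ⧸ K) i hi LinearMap.id
  refine ⟨h ∘ₗ K.mkQ ∘ₗ LinearMap.inr R P Q, fun w hw => ?_⟩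
  have h1 : K.mkQ ((0 : P), t w) = i w := by
    change K.mkQ ((0 : P), t w) = K.mkQ (w, 0)
    rw [← sub_eq_zero, ← map_sub]
    have : ((0 : P), t w) - (w, 0) ∈ K := by
      rw [hK]
      simp [hw]
    rwa [← Submodule.ker_mkQ K, LinearMap.mem_ker] at this
  change h (K.mkQ (0, t w)) = w
  rw [h1]
  exact LinearMap.congr_fun hh w

/-- a maximal small submodule containing the constants of `Φ` is a direct summand -/
theorem exists_retraction (hP : IsPureInjective R P) (Φ : Set (Sys R P))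
    (hΦ : Avoids Φ (LinearMap.id : P →ₗ[R] P)) (W : Submodule R P) (hW : Small Φ W)
    (hmax : ∀ W' : Submodule R P, Small Φ W' → W ≤ W' → W' ≤ W)
    (hc : ∀ χ ∈ Φ, ∀ j, χ.c j ∈ W) :
    ∃ g : P →ₗ[R] P, (∀ w ∈ W, g w = w) ∧ LinearMap.range g = W := by
  obtain ⟨F, hF, -, hFmax⟩ := exists_maximal_hom Φ (LinearMap.id : P →ₗ[R] P) hΦ
  obtain ⟨s, hs⟩ := exists_section hP W F.g (hW F.Q F.g hF)
  let g := s ∘ₗ F.g
  have hg : ∀ w ∈ W, g w = w := hs
  have hav : ∀ {Q : Type u} [AddCommGroup Q] [Module R Q] (h : P →ₗ[R] Q), Avoids Φ h →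
      Avoids Φ (h ∘ₗ g) := by
    intro Q _ _ h hh χ hχ hD
    refine hh χ hχ ?_
    obtain ⟨z, hz⟩ := hD
    refine ⟨z, fun j => ?_⟩
    rw [hz j]
    change h (g (χ.c j)) = h (χ.c j)
    rw [hg _ (hc χ hχ j)]
  have hsmall : Small Φ (LinearMap.range g) := by
    intro Q' _ _ h hh χ hχ hD
    choose p hp using hχ
    let χ' : Sys R P := ⟨χ.m, χ.l, χ.B, p⟩
    have h1 : χ' ∈ Delta (h ∘ₗ g) := by
      obtain ⟨z, hz⟩ := hD
      refine ⟨z, fun j => ?_⟩
      change _ = h (g (p j))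
      rw [hp j]
      exact hz j
    have h2 : Delta F.g ⊆ Delta (h ∘ₗ g) := by
      change Delta F.g ⊆ Delta ((h ∘ₗ s) ∘ₗ F.g)
      exact Delta_mono _ _
    have h3 := hFmax Q' (h ∘ₗ g) (hav h hh) h2 h1
    have h4 : χ' ∈ Delta g := Delta_mono F.g s h3
    obtain ⟨z, hz⟩ := h4
    refine ⟨z, fun j => ?_⟩
    change _ = χ.c j
    rw [← hp j]
    exact hz j
  have hle : W ≤ LinearMap.range g := fun w hw => ⟨w, hg w hw⟩
  exact ⟨g, hg, le_antisymm (hmax _ hsmall hle) hle⟩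

end Small

end Zg
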