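import Mathlib

namespace Zg

universe u

/-- `e, f, h` satisfy the relations of `sl₂` and generate the algebra `A`. -/
structure Sl2Gen (k : Type u) [Field k] {A : Type u} [Ring A] [Algebra k A] (e f h : A) :
    Prop where
  ef : e * f - f * e = h
  he : h * e - e * h = 2 * e
  hf : h * f - f * h = -(2 * f)
  gen : Algebra.adjoin k {e, f, h} = ⊤

end Zg
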