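import Pool.Agent.Helper462.Zg.Sl2Def

/-!
# `U(sl₂(k))` is generated by an `sl₂`-triple
-/

namespace Zg

universe u

attribute [local instance 100] LieRing.ofAssociativeRing

/-- the universal enveloping algebra of `sl₂(k)` -/
abbrev UsL (k : Type u) [Field k] : Type u :=
  UniversalEnvelopingAlgebra k (LieAlgebra.SpecialLinear.sl (Fin 2) k)

variable (k : Type u) [Field k]

def slE : LieAlgebra.SpecialLinear.sl (Fin 2) k :=
  ⟨!![0, 1; 0, 0], by simp [LieAlgebra.SpecialLinear.sl, Matrix.trace_fin_two]⟩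

def slF : LieAlgebra.SpecialLinear.sl (Fin 2) k :=
  ⟨!![0, 0; 1, 0], by simp [LieAlgebra.SpecialLinear.sl, Matrix.trace_fin_two]⟩

def slH : LieAlgebra.SpecialLinear.sl (Fin 2) k :=
  ⟨!![1, 0; 0, -1], by simp [LieAlgebra.SpecialLinear.sl, Matrix.trace_fin_two]⟩

theorem lie_EF : ⁅slE k, slF k⁆ = slH k := by
  apply Subtype.ext
  rw [LieSubalgebra.coe_bracket]
  simp [slE, slF, slH, Ring.lie_def]

theorem lie_HE : ⁅slH k, slE k⁆ = (2 : k) • slE k := by
  apply Subtype.ext
  rw [LieSubalgebra.coe_bracket]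
  ext i j
  fin_cases i <;> fin_cases j <;> simp [slE, slH, Ring.lie_def]
  norm_num

theorem lie_HF : ⁅slH k, slF k⁆ = -((2 : k) • slF k) := by
  apply Subtype.ext
  rw [LieSubalgebra.coe_bracket]
  ext i j
  fin_cases i <;> fin_cases j <;> simp [slF, slH, Ring.lie_def]
  norm_num

theorem sl_decomp (x : LieAlgebra.SpecialLinear.sl (Fin 2) k) :
    x = (x.1 0 1) • slE k + (x.1 1 0) • slF k + (x.1 0 0) • slH k := by
  have hx : Matrix.trace x.1 = 0 := by
    have h0 : x.1 ∈ LinearMap.ker (Matrix.traceLinearMap (Fin 2) k k) := x.2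
    exact LinearMap.mem_ker.1 h0
  rw [Matrix.trace_fin_two] at hx
  apply Subtype.ext
  ext i j
  fin_cases i <;> fin_cases j <;> simp [slE, slF, slH]
  linear_combination hx

theorem usl_sl2Gen : Sl2Gen k (UniversalEnvelopingAlgebra.ι k (slE k))
    (UniversalEnvelopingAlgebra.ι k (slF k)) (UniversalEnvelopingAlgebra.ι k (slH k)) where
  ef := by
    rw [← lie_EF, LieHom.map_lie, Ring.lie_def]
  he := by
    have h := congrArg (UniversalEnvelopingAlgebra.ι k) (lie_HE k)
    rw [LieHom.map_lie, map_smul, Ring.lie_def] at h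
    rw [h, Algebra.smul_def, map_ofNat]
  hf := by
    have h := congrArg (UniversalEnvelopingAlgebra.ι k) (lie_HF k)
    rw [LieHom.map_lie, map_neg, map_smul, Ring.lie_def] at h
    rw [h, Algebra.smul_def, map_ofNat]
  gen := by
    set S := Algebra.adjoin k {UniversalEnvelopingAlgebra.ι k (slE k),
      UniversalEnvelopingAlgebra.ι k (slF k), UniversalEnvelopingAlgebra.ι k (slH k)} with hS
    have hmem : ∀ x, UniversalEnvelopingAlgebra.ι k x ∈ S := by
      intro x
      rw [sl_decomp k x, map_add, map_add, map_smul, map_smul,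
        map_smul]
      refine add_mem (add_mem (S.smul_mem ?_ _) (S.smul_mem ?_ _)) (S.smul_mem ?_ _)
      · exact Algebra.subset_adjoin (by simp)
      · exact Algebra.subset_adjoin (by simp)
      · exact Algebra.subset_adjoin (by simp)
    let g : LieAlgebra.SpecialLinear.sl (Fin 2) k →ₗ⁅k⁆ S :=
      { toFun := fun x => ⟨UniversalEnvelopingAlgebra.ι k x, hmem x⟩
        map_add' := fun x y => Subtype.ext (by simp)
        map_smul' := fun c x => Subtype.ext (by simp)
        map_lie' := fun {x y} => Subtype.ext (by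
          change UniversalEnvelopingAlgebra.ι k ⁅x, y⁆ = _
          rw [LieHom.map_lie, Ring.lie_def, Ring.lie_def]
          rfl) }
    have hcomp : S.val.comp (UniversalEnvelopingAlgebra.lift k g) = AlgHom.id k _ := by
      apply UniversalEnvelopingAlgebra.hom_ext
      ext x
      have := UniversalEnvelopingAlgebra.lift_ι_apply k g x
      change (S.val (UniversalEnvelopingAlgebra.lift k g (UniversalEnvelopingAlgebra.ι k x))) =
        UniversalEnvelopingAlgebra.ι k x
      rw [this]
      rfl
    rw [eq_top_iff]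
    rintro x -
    have := AlgHom.congr_fun hcomp x
    rw [AlgHom.id_apply] at this
    rw [← this]
    exact (UniversalEnvelopingAlgebra.lift k g x).2

/-- the augmentation of `Uᵐᵒᵖ` -/
noncomputable def aug : (UsL k)ᵐᵒᵖ →+* k :=
  { toFun := fun x => UniversalEnvelopingAlgebra.lift k
      (0 : LieAlgebra.SpecialLinear.sl (Fin 2) k →ₗ⁅k⁆ k) (MulOpposite.unop x)
    map_one' := by simp
    map_mul' := fun x y => by rw [MulOpposite.unop_mul, map_mul, mul_comm]
    map_zero' := by simp
    map_add' := fun x y => by rw [MulOpposite.unop_add, map_add] }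

theorem aug_algebraMap (c : k) : aug k (algebraMap k (UsL k)ᵐᵒᵖ c) = c := by
  change UniversalEnvelopingAlgebra.lift k _
    (MulOpposite.unop (algebraMap k (UsL k)ᵐᵒᵖ c)) = c
  rw [MulOpposite.algebraMap_apply, MulOpposite.unop_op, AlgHom.commutes]
  rfl

end Zg
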